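import Pool.Agent.CdV.Defs

/-!
# Existential certificates for lower bounds on the Colin de Verdière invariant
-/

namespace Pool.Agent.NPC.ER.CdV

open Matrix Finset

variable {V : Type} [Fintype V] [DecidableEq V]

/-- Certificate for a lower bound on the corank. -/
theorem corank_iff (M : Matrix V V ℝ) (k : ℕ) : k + M.rank ≤ Fintype.card V ↔
    ∃ (N : Matrix V (Fin k) ℝ) (L : Matrix (Fin k) V ℝ), M * N = 0 ∧ L * N = 1 := by
  have hr : Module.finrank ℝ (LinearMap.ker M.mulVecLin) + M.rank = Fintype.card V := by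
    have := LinearMap.finrank_range_add_finrank_ker M.mulVecLin
    rw [Module.finrank_fintype_fun_eq_card] at this
    rw [Matrix.rank]
    omega
  constructor
  · intro h
    obtain ⟨f, hf⟩ := exists_linearIndependent_of_le_finrank (R := ℝ)
      (M := LinearMap.ker M.mulVecLin) (n := k) (by omega)
    have hf' : LinearIndependent ℝ (fun j => (f j : V → ℝ)) :=
      hf.map' (LinearMap.ker M.mulVecLin).subtype (Submodule.ker_subtype _)
    set N : Matrix V (Fin k) ℝ := Matrix.of fun v j => (f j : V → ℝ) v with hN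
    have hinj : Function.Injective N.mulVecLin := by
      have h1 : Function.Injective N.mulVec := by
        rw [Matrix.mulVec_injective_iff]
        exact hf'
      exact h1
    obtain ⟨g, hg⟩ := LinearMap.exists_leftInverse_of_injective N.mulVecLin
      (LinearMap.ker_eq_bot.2 hinj)
    refine ⟨N, LinearMap.toMatrix' g, ?_, ?_⟩
    · ext v j
      have h2 : M *ᵥ (f j : V → ℝ) = 0 := (f j).2
      exact congrFun h2 v
    · have h3 := congrArg LinearMap.toMatrix' hg
      rw [LinearMap.toMatrix'_comp, LinearMap.toMatrix'_id] at h3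
      rw [← h3]
      congr 1
      rw [← Matrix.toLin'_apply', LinearMap.toMatrix'_toLin']
  · rintro ⟨N, L, h1, h2⟩
    have hinj : Function.Injective N.mulVecLin := by
      intro x y hxy
      have h3 : L *ᵥ (N *ᵥ x) = L *ᵥ (N *ᵥ y) := congrArg _ hxy
      simpa [Matrix.mulVec_mulVec, h2] using h3
    have h3 : ∀ x, N.mulVecLin x ∈ LinearMap.ker M.mulVecLin := by
      intro x
      rw [LinearMap.mem_ker, Matrix.mulVecLin_apply, Matrix.mulVecLin_apply,
        Matrix.mulVec_mulVec, h1, Matrix.zero_mulVec]
    have h4 := LinearMap.finrank_le_finrank_of_injective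
      (f := LinearMap.codRestrict (LinearMap.ker M.mulVecLin) N.mulVecLin h3) (fun x y hxy =>
        hinj (congrArg Subtype.val hxy))
    rw [Module.finrank_fintype_fun_eq_card, Fintype.card_fin] at h4
    omega

/-- Certificate for exactly one negative eigenvalue. -/
theorem neg_cert {M : Matrix V V ℝ} (hM : M.IsHermitian) :
    (univ.filter fun i => hM.eigenvalues i < 0).card = 1 ↔
      (∃ (b : V → ℝ) (C : V → V → ℝ), ∀ u v, M u v + b u * b v = ∑ w, C w u * C w v) ∧
        ∃ y : V → ℝ, ∑ u, y u * ∑ v, M u v * y v < 0 := by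
  constructor
  · intro hc
    refine ⟨?_, ((neg_iff hM).1 hc).2⟩
    obtain ⟨U, h1, h2, h3⟩ := exists_diag hM
    set e := hM.eigenvalues with he
    obtain ⟨j0, hj0⟩ := card_eq_one.1 hc
    have hneg : e j0 < 0 := by
      have : j0 ∈ univ.filter fun i => e i < 0 := by rw [hj0]; simp
      simpa using this
    have hpos : ∀ j, j ≠ j0 → 0 ≤ e j := by
      intro j hj
      by_contra hlt
      have : j ∈ univ.filter fun i => e i < 0 := by simpa using hlt
      rw [hj0] at this
      exact hj (by simpa using this)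
    refine ⟨fun u => √(-e j0) * U u j0, fun w u => if w = j0 then 0 else √(e w) * U u w,
      fun u v => ?_⟩
    have h4 : M u v = ∑ w, e w * (U u w * U v w) := by
      conv_lhs => rw [h3]
      rw [mul_apply]
      refine sum_congr rfl fun w _ => ?_
      rw [mul_diagonal, transpose_apply]
      ring
    rw [h4, ← add_sum_erase univ _ (mem_univ j0), ← add_sum_erase univ (fun w => (_ : ℝ)) (mem_univ j0)]
    have h5 : √(-e j0) * U u j0 * (√(-e j0) * U v j0) = -e j0 * (U u j0 * U v j0) := by
      have := Real.mul_self_sqrt (show 0 ≤ -e j0 by linarith)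
      calc √(-e j0) * U u j0 * (√(-e j0) * U v j0) =
          (√(-e j0) * √(-e j0)) * (U u j0 * U v j0) := by ring
        _ = _ := by rw [this]
    have h6 : ∑ w ∈ univ.erase j0, e w * (U u w * U v w) = ∑ w ∈ univ.erase j0,
        (if w = j0 then 0 else √(e w) * U u w) * (if w = j0 then 0 else √(e w) * U v w) := by
      refine sum_congr rfl fun w hw => ?_
      have hw' := (mem_erase.1 hw).1
      rw [if_neg hw', if_neg hw']
      have := Real.mul_self_sqrt (hpos w hw')
      calc e w * (U u w * U v w) = (√(e w) * √(e w)) * (U u w * U v w) := by rw [this]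
        _ = _ := by ring
    rw [h6, h5]
    simp only [if_true, zero_mul, zero_add]
    ring
  · rintro ⟨⟨b, C, h⟩, y, hy⟩
    refine (neg_iff hM).2 ⟨⟨b, fun z hz => ?_⟩, y, hy⟩
    have h1 : z ⬝ᵥ M *ᵥ z = ∑ w, (∑ u, C w u * z u) ^ 2 - (b ⬝ᵥ z) ^ 2 := by
      have h2 : ∀ u v, M u v = ∑ w, C w u * C w v - b u * b v := fun u v => by rw [← h]; ring
      have h3 : (b ⬝ᵥ z) ^ 2 = ∑ u, ∑ v, (b u * b v) * (z u * z v) := by
        rw [sq, dotProduct, sum_mul_sum]
        exact sum_congr rfl fun u _ => sum_congr rfl fun v _ => by ring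
      have h4 : ∑ w, (∑ u, C w u * z u) ^ 2 = ∑ u, ∑ v, (∑ w, C w u * C w v) * (z u * z v) := by
        simp_rw [sq, sum_mul_sum, sum_mul]
        rw [sum_comm]
        refine sum_congr rfl fun u _ => ?_
        rw [sum_comm]
        exact sum_congr rfl fun v _ => sum_congr rfl fun w _ => by ring
      rw [h3, h4, ← sum_sub_distrib, dotProduct]
      refine sum_congr rfl fun u _ => ?_
      rw [← sum_sub_distrib, mulVec, dotProduct, mul_sum]
      refine sum_congr rfl fun v _ => ?_
      rw [h2]
      ring
    rw [h1, hz]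
    have := sum_nonneg (s := univ) fun w (_ : w ∈ univ) => sq_nonneg (∑ u, C w u * z u)
    simpa using this

/-- Certificate for the strong Arnold property. -/
theorem sap_cert (G : SimpleGraph V) (M : Matrix V V ℝ) :
    (∀ X : Matrix V V ℝ, Xᵀ = X → (∀ i, X i i = 0) → (∀ i j, G.Adj i j → X i j = 0) →
      M * X = 0 → X = 0) ↔
    ∃ s : V → V → V → V → ℝ, ∀ p q u v, p ≠ q → ¬ G.Adj p q → u ≠ v → ¬ G.Adj u v →
      ∑ a, (s p q a v * M a u + s p q a u * M a v) =
        if (u = p ∧ v = q) ∨ (u = q ∧ v = p) then 1 else 0 := by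
  constructor
  · intro h
    let A : Submodule ℝ (Matrix V V ℝ) :=
      { carrier := {X | Xᵀ = X ∧ (∀ i, X i i = 0) ∧ ∀ i j, G.Adj i j → X i j = 0}
        add_mem' := by
          rintro X Y ⟨h1, h2, h3⟩ ⟨h4, h5, h6⟩
          exact ⟨by rw [transpose_add, h1, h4], fun i => by simp [h2, h5],
            fun i j hij => by simp [h3 i j hij, h6 i j hij]⟩
        zero_mem' := ⟨by simp, by simp, by simp⟩
        smul_mem' := by
          rintro c X ⟨h1, h2, h3⟩
          exact ⟨by rw [transpose_smul, h1], fun i => by simp [h2],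
            fun i j hij => by simp [h3 i j hij]⟩ }
    let T : A →ₗ[ℝ] Matrix V V ℝ := (LinearMap.mulLeft ℝ M).comp A.subtype
    have hT : LinearMap.ker T = ⊥ := by
      rw [LinearMap.ker_eq_bot']
      rintro ⟨X, h1, h2, h3⟩ hX
      exact Subtype.ext (h X h1 h2 h3 hX)
    obtain ⟨g, hg⟩ := LinearMap.exists_leftInverse_of_injective T hT
    refine ⟨fun p q a z => (g (Matrix.single a z 1) : Matrix V V ℝ) p q,
      fun p q u v hpq hpq' huv huv' => ?_⟩
    have hX : (Matrix.single u v (1 : ℝ) + Matrix.single v u 1) ∈ A := by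
      refine ⟨?_, fun i => ?_, fun i j hij => ?_⟩
      · rw [transpose_add, transpose_single, transpose_single, add_comm]
      · rw [Matrix.add_apply, single_apply, single_apply, if_neg, if_neg, add_zero]
        · rintro ⟨rfl, rfl⟩; exact huv rfl
        · rintro ⟨rfl, rfl⟩; exact huv rfl
      · rw [Matrix.add_apply, single_apply, single_apply, if_neg, if_neg, add_zero]
        · rintro ⟨rfl, rfl⟩; exact huv' hij.symm
        · rintro ⟨rfl, rfl⟩; exact huv' hij
    have h1 : g (T ⟨_, hX⟩) = ⟨_, hX⟩ := congrFun (congrArg DFunLike.coe hg) _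
    have h2 : T ⟨_, hX⟩ = ∑ a, (M a u • Matrix.single a v (1 : ℝ) +
        M a v • Matrix.single a u (1 : ℝ)) := by
      change M * (Matrix.single u v (1 : ℝ) + Matrix.single v u 1) = _
      ext i j
      rw [Matrix.sum_apply, mul_add, Matrix.add_apply]
      simp only [Matrix.add_apply, Matrix.smul_apply, smul_eq_mul, single_apply]
      rw [sum_add_distrib]
      congr 1
      · rw [mul_apply]
        simp only [single_apply, mul_ite, mul_one, mul_zero]
        by_cases hj : v = j
        · subst hj
          simp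
        · simp [hj]
      · rw [mul_apply]
        simp only [single_apply, mul_ite, mul_one, mul_zero]
        by_cases hj : u = j
        · subst hj
          simp
        · simp [hj]
    rw [h2, map_sum] at h1
    have h3 := congrFun (congrFun (congrArg Subtype.val h1) p) q
    rw [Submodule.coe_sum, Matrix.sum_apply] at h3
    simp only [map_add, map_smul, Submodule.coe_add, Submodule.coe_smul, Matrix.add_apply, Matrix.smul_apply,
      smul_eq_mul, single_apply] at h3
    rw [show (∑ a, ((g (Matrix.single a v 1) : Matrix V V ℝ) p q * M a u +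
      (g (Matrix.single a u 1) : Matrix V V ℝ) p q * M a v)) = ∑ x,
      (M x u * (g (Matrix.single x v 1) : Matrix V V ℝ) p q +
        M x v * (g (Matrix.single x u 1) : Matrix V V ℝ) p q) from
        sum_congr rfl fun a _ => by ring, h3]
    by_cases hc1 : u = p ∧ v = q
    · simp [hc1, hpq]
    · by_cases hc2 : v = p ∧ u = q
      · have hc3 : u = q ∧ v = p := ⟨hc2.2, hc2.1⟩
        rw [if_neg hc1, if_pos hc2, if_pos (Or.inr hc3)]
        simp
      · rw [if_neg hc1, if_neg hc2, if_neg]
        · simp
        · rintro (h5 | h5)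
          · exact hc1 h5
          · exact hc2 ⟨h5.2, h5.1⟩
  · rintro ⟨s, hs⟩ X h1 h2 h3 h4
    ext p q
    rw [Matrix.zero_apply]
    by_cases hpq : p = q
    · rw [hpq]; exact h2 q
    by_cases hadj : G.Adj p q
    · exact h3 p q hadj
    have hsym : ∀ u v, X u v = X v u := fun u v => congrFun (congrFun h1 v) u
    have h5 : ∑ u, ∑ v, X u v * ∑ a, (s p q a v * M a u + s p q a u * M a v) = X p q + X q p := by
      have h6 : ∀ u v, X u v * ∑ a, (s p q a v * M a u + s p q a u * M a v) =
          X u v * (if u = p ∧ v = q then 1 else 0) + X u v * (if u = q ∧ v = p then 1 else 0) := by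
        intro u v
        by_cases huv : u = v
        · subst huv
          rw [h2]; ring
        by_cases huv' : G.Adj u v
        · rw [h3 u v huv']; ring
        rw [hs p q u v hpq hadj huv huv', ← mul_add]
        congr 1
        by_cases hc1 : u = p ∧ v = q
        · have hc2 : ¬ (u = q ∧ v = p) := by
            rintro ⟨h7, h8⟩
            exact hpq (hc1.1.symm.trans h7)
          rw [if_pos (Or.inl hc1), if_pos hc1, if_neg hc2]; ring
        · by_cases hc2 : u = q ∧ v = p
          · rw [if_pos (Or.inr hc2), if_neg hc1, if_pos hc2]; ring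
          · rw [if_neg (by tauto), if_neg hc1, if_neg hc2]; ring
      simp_rw [h6, sum_add_distrib]
      congr 1
      · rw [sum_eq_single p, sum_eq_single q]
        · simp
        · intro v _ hv
          simp [hv]
        · simp
        · intro u _ hu
          simp [hu]
        · simp
      · rw [sum_eq_single q, sum_eq_single p]
        · simp
        · intro v _ hv
          simp [hv]
        · simp
        · intro u _ hu
          simp [hu]
        · simp
    have h7 : ∀ a v, ∑ u, M a u * X u v = 0 := by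
      intro a v
      have := congrFun (congrFun h4 a) v
      rwa [mul_apply] at this
    have h8 : ∑ u, ∑ v, X u v * ∑ a, (s p q a v * M a u + s p q a u * M a v) = 0 := by
      have e1 : ∑ u, ∑ v, X u v * ∑ a, s p q a v * M a u = 0 := by
        rw [sum_comm]
        refine sum_eq_zero fun v _ => ?_
        simp_rw [mul_sum]
        rw [sum_comm]
        refine sum_eq_zero fun a _ => ?_
        calc ∑ u, X u v * (s p q a v * M a u) = s p q a v * ∑ u, M a u * X u v := by
              rw [mul_sum]; exact sum_congr rfl fun u _ => by ring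
          _ = 0 := by rw [h7, mul_zero]
      have e2 : ∑ u, ∑ v, X u v * ∑ a, s p q a u * M a v = 0 := by
        refine sum_eq_zero fun u _ => ?_
        simp_rw [mul_sum]
        rw [sum_comm]
        refine sum_eq_zero fun a _ => ?_
        calc ∑ v, X u v * (s p q a u * M a v) = s p q a u * ∑ v, M a v * X v u := by
              rw [mul_sum]; exact sum_congr rfl fun v _ => by rw [hsym u v]; ring
          _ = 0 := by rw [h7, mul_zero]
      simp_rw [sum_add_distrib, mul_add, sum_add_distrib]
      rw [e1, e2, add_zero]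
    rw [h5, hsym q p] at h8
    linarith

/-- Certificates for lower bounds on the Colin de Verdière invariant. -/
theorem cert_iff (G : SimpleGraph V) {k : ℕ} (hk : 0 < k) : k ≤ mu G ↔
    ∃ (M : V → V → ℝ) (b : V → ℝ) (C : V → V → ℝ) (y : V → ℝ) (N : V → Fin k → ℝ)
      (L : Fin k → V → ℝ) (s : V → V → V → V → ℝ),
      (∀ u v, M u v = M v u) ∧
      (∀ u v, u ≠ v → (G.Adj u v → M u v < 0) ∧ (¬ G.Adj u v → M u v = 0)) ∧
      (∀ u v, M u v + b u * b v = ∑ w, C w u * C w v) ∧
      (∑ u, y u * ∑ v, M u v * y v < 0) ∧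
      (∀ u j, ∑ v, M u v * N v j = 0) ∧
      (∀ i j, ∑ u, L i u * N u j = if i = j then 1 else 0) ∧
      (∀ p q u v, p ≠ q → ¬ G.Adj p q → u ≠ v → ¬ G.Adj u v →
        ∑ a, (s p q a v * M a u + s p q a u * M a v) =
          if (u = p ∧ v = q) ∨ (u = q ∧ v = p) then 1 else 0) := by
  rw [le_mu_iff G hk]
  constructor
  · rintro ⟨M, ⟨h1, h2, ⟨hM, h3⟩, h4⟩, h5⟩
    obtain ⟨⟨b, C, h6⟩, y, h7⟩ := (neg_cert hM).1 h3
    obtain ⟨N, L, h8, h9⟩ := (corank_iff M k).1 h5
    obtain ⟨s, hs⟩ := (sap_cert G M).1 h4
    refine ⟨M, b, C, y, N, L, s, fun u v => congrFun (congrFun h1 v) u, h2, h6, h7, fun u j => ?_,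
      fun i j => ?_, hs⟩
    · have := congrFun (congrFun h8 u) j
      rwa [mul_apply] at this
    · have := congrFun (congrFun h9 i) j
      rwa [mul_apply, one_apply] at this
  · rintro ⟨M, b, C, y, N, L, s, h1, h2, h3, h4, h5, h6, h7⟩
    have hT : (Matrix.of M)ᵀ = Matrix.of M := by
      ext u v
      exact h1 v u
    have hM : (Matrix.of M).IsHermitian := by
      rw [IsHermitian, conjTranspose_eq_transpose_of_trivial]
      exact hT
    refine ⟨Matrix.of M, ⟨hT, h2, ⟨hM, (neg_cert hM).2 ⟨⟨b, C, h3⟩, y, h4⟩⟩,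
      (sap_cert G _).2 ⟨s, h7⟩⟩, (corank_iff _ k).2 ⟨Matrix.of N, Matrix.of L, ?_, ?_⟩⟩
    · ext u j
      rw [mul_apply]
      exact h5 u j
    · ext i j
      rw [mul_apply, one_apply]
      exact h6 i j

end Pool.Agent.NPC.ER.CdV
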