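import Pool.Agent.CdV.NetF
import Pool.Agent.ER.GraphCode
import Pool.Agent.ER.Macro

/-!
# The code of the graph of a network
-/

namespace Pool.Agent.NPC.ER.CdV

open Pool.Agent.NPC Pool.Agent.NPC.ER

section Generic

variable {α β : Type} [DecidableEq β]

/-- The code of the graph with a frame given by lists. -/
def gc (ca : α → ℕ) (cb : β → ℕ) (S : β → α → Bool) (H : β → β → Bool) (Is : List α)
    (Ws : List β) : GCode :=
  (0 :: (Is.map (fun i => 2 * ca i + 1) ++ Ws.map (fun w => 2 * cb w + 2)),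
   Ws.map (fun w => (0, 2 * cb w + 2)) ++
   (Ws.flatMap (fun w => (Is.filter (fun i => S w i)).map fun i => (2 * ca i + 1, 2 * cb w + 2)) ++
   Ws.flatMap (fun w => (Ws.filter (fun w' => !decide (w = w') && !H w w')).map fun w' =>
     (2 * cb w + 2, 2 * cb w' + 2))))

variable {ca : α → ℕ} {cb : β → ℕ} {S : β → α → Bool} {H : β → β → Bool} {Is : List α}
  {Ws : List β}

theorem mem_gc_edges {e : ℕ × ℕ} : e ∈ (gc ca cb S H Is Ws).2 ↔
    (∃ w ∈ Ws, e = (0, 2 * cb w + 2)) ∨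
    (∃ w ∈ Ws, ∃ i ∈ Is, S w i = true ∧ e = (2 * ca i + 1, 2 * cb w + 2)) ∨
    (∃ w ∈ Ws, ∃ w' ∈ Ws, w ≠ w' ∧ H w w' = false ∧ e = (2 * cb w + 2, 2 * cb w' + 2)) := by
  unfold gc
  simp only [List.mem_append, List.mem_map, List.mem_flatMap, List.mem_filter, Bool.and_eq_true,
    Bool.not_eq_true', decide_eq_false_iff_not]
  refine or_congr ?_ (or_congr ?_ ?_)
  · constructor
    · rintro ⟨w, h, rfl⟩
      exact ⟨w, h, rfl⟩
    · rintro ⟨w, h, rfl⟩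
      exact ⟨w, h, rfl⟩
  · constructor
    · rintro ⟨w, h, i, ⟨h1, h2⟩, rfl⟩
      exact ⟨w, h, i, h1, h2, rfl⟩
    · rintro ⟨w, h, i, h1, h2, rfl⟩
      exact ⟨w, h, i, ⟨h1, h2⟩, rfl⟩
  · constructor
    · rintro ⟨w, h, i, ⟨h1, h2, h3⟩, rfl⟩
      exact ⟨w, h, i, h1, h2, h3, rfl⟩
    · rintro ⟨w, h, i, h1, h2, h3, rfl⟩
      exact ⟨w, h, i, ⟨h1, h2, h3⟩, rfl⟩

theorem mem_gc_verts {n : ℕ} : n ∈ (gc ca cb S H Is Ws).1 ↔
    n = 0 ∨ (∃ i ∈ Is, n = 2 * ca i + 1) ∨ ∃ w ∈ Ws, n = 2 * cb w + 2 := by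
  unfold gc
  simp only [List.mem_cons, List.mem_append, List.mem_map]
  refine or_congr Iff.rfl (or_congr ?_ ?_)
  · constructor
    · rintro ⟨i, h, rfl⟩
      exact ⟨i, h, rfl⟩
    · rintro ⟨i, h, rfl⟩
      exact ⟨i, h, rfl⟩
  · constructor
    · rintro ⟨i, h, rfl⟩
      exact ⟨i, h, rfl⟩
    · rintro ⟨i, h, rfl⟩
      exact ⟨i, h, rfl⟩

theorem gc_wf (hcb : Function.Injective cb) : (gc ca cb S H Is Ws).WF := by
  intro e he
  rw [mem_gc_edges] at he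
  rcases he with ⟨w, hw, rfl⟩ | ⟨w, hw, i, hi, -, rfl⟩ | ⟨w, hw, w', hw', hne, -, rfl⟩
  · exact ⟨mem_gc_verts.2 (Or.inl rfl), mem_gc_verts.2 (Or.inr (Or.inr ⟨w, hw, rfl⟩)), by
      simp only; omega⟩
  · exact ⟨mem_gc_verts.2 (Or.inr (Or.inl ⟨i, hi, rfl⟩)),
      mem_gc_verts.2 (Or.inr (Or.inr ⟨w, hw, rfl⟩)), by simp only; omega⟩
  · refine ⟨mem_gc_verts.2 (Or.inr (Or.inr ⟨w, hw, rfl⟩)),
      mem_gc_verts.2 (Or.inr (Or.inr ⟨w', hw', rfl⟩)), fun h => hne (hcb ?_)⟩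
    simp only at h
    omega

/-- Numbers of the vertices. -/
def vnum (ca : α → ℕ) (cb : β → ℕ) : Option {i // i ∈ Is} ⊕ {w // w ∈ Ws} → ℕ
  | Sum.inl none => 0
  | Sum.inl (some i) => 2 * ca i.1 + 1
  | Sum.inr w => 2 * cb w.1 + 2

theorem vnum_mem (u : Option {i // i ∈ Is} ⊕ {w // w ∈ Ws}) :
    vnum ca cb u ∈ (gc ca cb S H Is Ws).1 := by
  rw [mem_gc_verts]
  rcases u with (_ | i) | w
  · exact Or.inl rfl
  · exact Or.inr (Or.inl ⟨i.1, i.2, rfl⟩)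
  · exact Or.inr (Or.inr ⟨w.1, w.2, rfl⟩)

theorem vnum_injective (hca : Function.Injective ca) (hcb : Function.Injective cb) :
    Function.Injective (vnum (Is := Is) (Ws := Ws) ca cb) := by
  rintro ((_ | i) | w) ((_ | j) | w') h <;> simp only [vnum] at h
  · rfl
  · omega
  · omega
  · omega
  · have : i = j := Subtype.ext (hca (by omega))
    rw [this]
  · omega
  · omega
  · omega
  · have : w = w' := Subtype.ext (hcb (by omega))
    rw [this]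

variable [DecidableEq α]

/-- The vertices of the code. -/
noncomputable def vequiv (hca : Function.Injective ca) (hcb : Function.Injective cb) :
    (Option {i // i ∈ Is} ⊕ {w // w ∈ Ws}) ≃ (gc ca cb S H Is Ws).V :=
  Equiv.ofBijective (fun u => ⟨vnum ca cb u, vnum_mem u⟩) ⟨fun u v h =>
    vnum_injective hca hcb (congrArg Subtype.val h), fun ⟨n, hn⟩ => by
      rcases mem_gc_verts.1 hn with rfl | ⟨i, hi, rfl⟩ | ⟨w, hw, rfl⟩
      · exact ⟨Sum.inl none, rfl⟩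
      · exact ⟨Sum.inl (some ⟨i, hi⟩), rfl⟩
      · exact ⟨Sum.inr ⟨w, hw⟩, rfl⟩⟩

theorem vequiv_adj (hca : Function.Injective ca) (hcb : Function.Injective cb)
    (hH : ∀ w w', H w w' = H w' w) (u v : Option {i // i ∈ Is} ⊕ {w // w ∈ Ws}) :
    (gc ca cb S H Is Ws).graph.Adj (vequiv hca hcb u) (vequiv hca hcb v) ↔
      (LG Is Ws S H).Adj u v := by
  rw [graph_adj (gc_wf hcb)]
  have h1 : ∀ u : Option {i // i ∈ Is} ⊕ {w // w ∈ Ws},
      (vequiv (S := S) (H := H) hca hcb u).1 = vnum ca cb u := fun _ => rfl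
  rw [h1, h1, mem_gc_edges, mem_gc_edges]
  change _ ↔ fadj _ _ u v
  simp only [Prod.mk.injEq]
  have k1 : ∀ i j : {i // i ∈ Is}, 2 * ca i.1 + 1 = 2 * ca j.1 + 1 → i = j := fun i j h =>
    Subtype.ext (hca (by omega))
  have k2 : ∀ i j : {w // w ∈ Ws}, 2 * cb i.1 + 2 = 2 * cb j.1 + 2 → i = j := fun i j h =>
    Subtype.ext (hcb (by omega))
  rcases u with (_ | i) | w <;> rcases v with (_ | j) | w' <;> simp only [vnum, fadj, iff_false,
    iff_true]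
  · rintro ((⟨w, -, h⟩ | ⟨w, -, i, -, -, h⟩ | ⟨w, -, w', -, -, -, h⟩) |
      (⟨w, -, h⟩ | ⟨w, -, i, -, -, h⟩ | ⟨w, -, w', -, -, -, h⟩)) <;> omega
  · rintro ((⟨w, -, h⟩ | ⟨w, -, i, -, -, h⟩ | ⟨w, -, w', -, -, -, h⟩) |
      (⟨w, -, h⟩ | ⟨w, -, i, -, -, h⟩ | ⟨w, -, w', -, -, -, h⟩)) <;> omega
  · exact Or.inl (Or.inl ⟨w'.1, w'.2, trivial, rfl⟩)
  · rintro ((⟨w, -, h⟩ | ⟨w, -, i, -, -, h⟩ | ⟨w, -, w', -, -, -, h⟩) |
      (⟨w, -, h⟩ | ⟨w, -, i, -, -, h⟩ | ⟨w, -, w', -, -, -, h⟩)) <;> omega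
  · rintro ((⟨w, -, h⟩ | ⟨w, -, i, -, -, h⟩ | ⟨w, -, w', -, -, -, h⟩) |
      (⟨w, -, h⟩ | ⟨w, -, i, -, -, h⟩ | ⟨w, -, w', -, -, -, h⟩)) <;> omega
  · constructor
    · rintro ((⟨w, -, h⟩ | ⟨w, hw, j, hj, hS, h⟩ | ⟨w, -, w', -, -, -, h⟩) |
        (⟨w, -, h⟩ | ⟨w, -, i, -, -, h⟩ | ⟨w, -, w', -, -, -, h⟩))
      · omega
      · obtain rfl := k1 i ⟨j, hj⟩ h.1
        obtain rfl := k2 w' ⟨w, hw⟩ h.2
        exact hS
      all_goals omega
    · intro h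
      exact Or.inl (Or.inr (Or.inl ⟨w'.1, w'.2, i.1, i.2, h, rfl, rfl⟩))
  · exact Or.inr (Or.inl ⟨w.1, w.2, trivial, rfl⟩)
  · constructor
    · rintro ((⟨w, -, h⟩ | ⟨w, -, i, -, -, h⟩ | ⟨w, -, w', -, -, -, h⟩) |
        (⟨w, -, h⟩ | ⟨w1, hw, i, hi, hS, h⟩ | ⟨w, -, w', -, -, -, h⟩))
      · omega
      · omega
      · omega
      · omega
      · obtain rfl := k1 j ⟨i, hi⟩ h.1
        obtain rfl := k2 w ⟨w1, hw⟩ h.2
        exact hS
      · omega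
    · intro h
      exact Or.inr (Or.inr (Or.inl ⟨w.1, w.2, j.1, j.2, h, rfl, rfl⟩))
  · constructor
    · rintro ((⟨w, -, h⟩ | ⟨w, -, i, -, -, h⟩ | ⟨w1, hw1, w2, hw2, hne, hH', h⟩) |
        (⟨w, -, h⟩ | ⟨w, -, i, -, -, h⟩ | ⟨w1, hw1, w2, hw2, hne, hH', h⟩))
      · omega
      · omega
      · obtain rfl := k2 w ⟨w1, hw1⟩ h.1
        obtain rfl := k2 w' ⟨w2, hw2⟩ h.2
        refine ⟨fun h => hne (congrArg Subtype.val h), ?_, ?_⟩
        · rw [hH']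
          simp
        · rw [hH, hH']
          simp
      · omega
      · omega
      · obtain rfl := k2 w' ⟨w1, hw1⟩ h.1
        obtain rfl := k2 w ⟨w2, hw2⟩ h.2
        refine ⟨fun h => hne (congrArg Subtype.val h).symm, ?_, ?_⟩
        · rw [hH, hH']
          simp
        · rw [hH']
          simp
    · rintro ⟨h2, h3, -⟩
      refine Or.inl (Or.inr (Or.inr ⟨w.1, w.2, w'.1, w'.2, fun h => h2 (Subtype.ext h), ?_, rfl,
        rfl⟩))
      simpa using h3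

end Generic

end Pool.Agent.NPC.ER.CdV
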