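import Pool.Agent.CdV.CodeP
import Pool.Agent.H612.CollectPoly
import Pool.Agent.ER.Hard

/-!
# Polynomial time computation of the network of a program
-/

namespace Pool.Agent.NPC.ER.CdV

open Pool.Agent.NPC Pool.Agent.NPC.ER Pool.Agent.NPC.ER.Oslp

section

variable {α : Type} [TEnc α]

theorem poly_rels {p : α → List Ins} (hp : Poly p) : Poly (fun a => rels (p a)) := by
  unfold rels
  refine Poly.flatMap (F := fun _ (e : Ins × ℕ) => match e.1 with
    | none => []
    | some q => [(e.2, q)]) (Poly.zipIdx hp) ?_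
  refine (Poly.optCases (o := fun x : α × (Ins × ℕ) => x.2.1)
    (g := fun _ => ([] : List (ℕ × (ℕ × ℕ × ℕ × ℕ)))) (h := fun x q => [(x.2.2, q)])
    (Poly.fst (Poly.snd Poly.id)) (Poly.const _)
    (Poly.cons (Poly.pair (Poly.snd (Poly.snd (Poly.fst Poly.id))) (Poly.snd Poly.id))
      (Poly.const []))).congr fun x => ?_
  rcases x with ⟨a, _ | q, n⟩ <;> rfl

theorem poly_al {m : α → ℕ} {q : α → ℕ × ℕ × ℕ × ℕ} (hm : Poly m) (hq : Poly q) (t : ℕ) :
    Poly (fun a => al (m a) (q a) t) := by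
  have q0 : Poly (fun a => decide ((q a).1 = 0)) := Poly.decide_eq (Poly.fst hq) (Poly.const 0)
  have q1 : Poly (fun a => (q a).2.1) := Poly.fst (Poly.snd hq)
  have q2 : Poly (fun a => (q a).2.2.1) := Poly.fst (Poly.snd (Poly.snd hq))
  unfold al
  by_cases h0 : t = 0
  · subst h0
    exact (Poly.add hm (Poly.const 2)).congr fun a => by simp
  · by_cases h1 : t = 1
    · subst h1
      exact (Poly.ite q0 q1 q2).congr fun a => by simp
    · exact (Poly.ite q0 q2 (Poly.fst hq)).congr fun a => by simp [h0, h1]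

theorem poly_be {m : α → ℕ} {q : α → ℕ × ℕ × ℕ × ℕ} (hm : Poly m) (hq : Poly q) (t : ℕ) :
    Poly (fun a => be (m a) (q a) t) := by
  have q0 : Poly (fun a => decide ((q a).1 = 0)) := Poly.decide_eq (Poly.fst hq) (Poly.const 0)
  have q1 : Poly (fun a => (q a).2.1) := Poly.fst (Poly.snd hq)
  have q3 : Poly (fun a => (q a).2.2.2) := Poly.snd (Poly.snd (Poly.snd hq))
  unfold be
  by_cases h0 : t = 0
  · subst h0
    exact (Poly.ite q0 q1 q3).congr fun a => by simp
  · by_cases h1 : t = 1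
    · subst h1
      exact (Poly.ite q0 (Poly.add hm (Poly.const 2)) q1).congr fun a => by simp
    · exact (Poly.ite q0 q3 (Poly.fst hq)).congr fun a => by simp [h0, h1]

theorem poly_sr {q : α → ℕ × ℕ × ℕ × ℕ} (hq : Poly q) : Poly (fun a => sr (q a)) :=
  (Poly.ite (Poly.decide_eq (Poly.fst hq) (Poly.const 0)) (Poly.const 1) (Poly.const 2)).congr
    fun a => by simp [sr]

theorem poly_range1 {p : α → List Ins} (hp : Poly p) :
    Poly (fun a => List.range ((p a).length + 1)) :=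
  (Poly.range_length (Poly.cons (Poly.const (none : Ins)) hp)).congr fun a => by simp

theorem poly_nodes {p : α → List Ins} (hp : Poly p) : Poly (fun a => (net (p a)).nodes) :=
  Poly.append (Poly.const _) (Poly.map (F := fun _ (r : ℕ × (ℕ × ℕ × ℕ × ℕ)) => r.1 + 3)
    (poly_rels hp) (Poly.add (Poly.fst (Poly.snd Poly.id)) (Poly.const 3)))

theorem poly_classes {p : α → List Ins} (hp : Poly p) : Poly (fun a => (net (p a)).classes) := by
  have k1 : Poly (fun x : α × ℕ => x.2 + 1) := Poly.succ (Poly.snd Poly.id)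
  have r3 : Poly (fun x : α × (ℕ × (ℕ × ℕ × ℕ × ℕ)) => x.2.1 + 3) :=
    Poly.add (Poly.fst (Poly.snd Poly.id)) (Poly.const 3)
  exact Poly.append (Poly.flatMap (F := fun _ (k : ℕ) => [(0, k + 1), (1, k + 1), (2, k + 1)])
      (poly_range1 hp) (Poly.cons (Poly.pair (Poly.const 0) k1) (Poly.cons
        (Poly.pair (Poly.const 1) k1) (Poly.cons (Poly.pair (Poly.const 2) k1) (Poly.const [])))))
    (Poly.flatMap (F := fun _ (r : ℕ × (ℕ × ℕ × ℕ × ℕ)) => [(r.1 + 3, 0), (r.1 + 3, 1),
      (r.1 + 3, 2)]) (poly_rels hp) (Poly.cons (Poly.pair r3 (Poly.const 0)) (Poly.cons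
        (Poly.pair r3 (Poly.const 1)) (Poly.cons (Poly.pair r3 (Poly.const 2)) (Poly.const [])))))

theorem poly_lines {p : α → List Ins} (hp : Poly p) : Poly (fun a => (net (p a)).lines) := by
  have r3 : Poly (fun x : α × (ℕ × (ℕ × ℕ × ℕ × ℕ)) => x.2.1 + 3) :=
    Poly.add (Poly.fst (Poly.snd Poly.id)) (Poly.const 3)
  exact Poly.append (Poly.const _)
    (Poly.flatMap (F := fun _ (r : ℕ × (ℕ × ℕ × ℕ × ℕ)) => [(0, r.1 + 3), (sr r.2, r.1 + 3)])
      (poly_rels hp) (Poly.cons (Poly.pair (Poly.const 0) r3) (Poly.cons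
        (Poly.pair (poly_sr (Poly.snd (Poly.snd Poly.id))) r3) (Poly.const []))))

theorem poly_points {p : α → List Ins} (hp : Poly p) : Poly (fun a => (net (p a)).points) := by
  have k1 : Poly (fun x : α × ℕ => x.2 + 1) := Poly.succ (Poly.snd Poly.id)
  have r1 : Poly (fun x : α × (ℕ × (ℕ × ℕ × ℕ × ℕ)) => x.2.1) := Poly.fst (Poly.snd Poly.id)
  have r2 : Poly (fun x : α × (ℕ × (ℕ × ℕ × ℕ × ℕ)) => x.2.2) := Poly.snd (Poly.snd Poly.id)
  have r3 : Poly (fun x : α × (ℕ × (ℕ × ℕ × ℕ × ℕ)) => x.2.1 + 3) := Poly.add r1 (Poly.const 3)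
  have hs := poly_sr r2
  have e0 : ∀ t : ℕ, Poly (fun x : α × (ℕ × (ℕ × ℕ × ℕ × ℕ)) =>
      ((0, al x.2.1 x.2.2 t), (x.2.1 + 3, t))) := fun t =>
    Poly.pair (Poly.pair (Poly.const 0) (poly_al r1 r2 t)) (Poly.pair r3 (Poly.const t))
  have e1 : ∀ t : ℕ, Poly (fun x : α × (ℕ × (ℕ × ℕ × ℕ × ℕ)) =>
      ((sr x.2.2, be x.2.1 x.2.2 t), (x.2.1 + 3, t))) := fun t =>
    Poly.pair (Poly.pair hs (poly_be r1 r2 t)) (Poly.pair r3 (Poly.const t))
  exact Poly.append (Poly.flatMap (F := fun _ (k : ℕ) => [((0, k + 1), (1, k + 1)),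
      ((1, k + 1), (2, k + 1))]) (poly_range1 hp) (Poly.cons (Poly.pair (Poly.pair (Poly.const 0) k1)
        (Poly.pair (Poly.const 1) k1)) (Poly.cons (Poly.pair (Poly.pair (Poly.const 1) k1)
        (Poly.pair (Poly.const 2) k1)) (Poly.const []))))
    (Poly.flatMap (F := fun _ (r : ℕ × (ℕ × ℕ × ℕ × ℕ)) => [((0, al r.1 r.2 0), (r.1 + 3, 0)),
      ((0, al r.1 r.2 1), (r.1 + 3, 1)),
      ((0, al r.1 r.2 2), (r.1 + 3, 2)), ((sr r.2, be r.1 r.2 0), (r.1 + 3, 0)),
      ((sr r.2, be r.1 r.2 1), (r.1 + 3, 1)), ((sr r.2, be r.1 r.2 2), (r.1 + 3, 2))])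
      (poly_rels hp) (Poly.cons (e0 0) (Poly.cons (e0 1) (Poly.cons (e0 2) (Poly.cons (e1 0)
        (Poly.cons (e1 1) (Poly.cons (e1 2) (Poly.const []))))))))

theorem poly_orders {p : α → List Ins} (hp : Poly p) : Poly (fun a => (net (p a)).orders) := by
  exact Poly.map (F := fun _ (m : ℕ) => (((0, m + 2), (0, m + 1)) : (ℕ × ℕ) × (ℕ × ℕ)))
    (Poly.range_length hp) (Poly.pair
    (Poly.pair (Poly.const 0) (Poly.add (Poly.snd Poly.id) (Poly.const 2)))
    (Poly.pair (Poly.const 0) (Poly.add (Poly.snd Poly.id) (Poly.const 1))))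

theorem poly_Is {p : α → List Ins} (hp : Poly p) : Poly (fun a => (net (p a)).Is) :=
  Poly.append (Poly.map (F := fun _ n => Co.nd n) (poly_nodes hp) (poly_nd (Poly.snd Poly.id)))
    (Poly.map (F := fun _ c => Co.tg c) (poly_classes hp) (poly_tg (Poly.snd Poly.id)))

theorem poly_Ws {p : α → List Ins} (hp : Poly p) : Poly (fun a => (net (p a)).Ws) := by
  refine Poly.append (Poly.append (Poly.append (Poly.append (Poly.append (Poly.append ?_ ?_) ?_)
    ?_) ?_) ?_) ?_
  · exact Poly.map (F := fun _ c => Vx.V c) (poly_classes hp) (poly_V (Poly.snd Poly.id))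
  · exact Poly.map (F := fun _ c => Vx.W c) (poly_classes hp) (poly_W (Poly.snd Poly.id))
  · exact Poly.map (F := fun _ c => Vx.Y c) (poly_lines hp) (poly_Y (Poly.snd Poly.id))
  · exact Poly.map (F := fun _ (c : (ℕ × ℕ) × (ℕ × ℕ)) => Vx.P c.1 c.2) (poly_points hp)
      (poly_P (Poly.fst (Poly.snd Poly.id)) (Poly.snd (Poly.snd Poly.id)))
  · exact Poly.map (F := fun _ (c : (ℕ × ℕ) × (ℕ × ℕ)) => Vx.R c.1 c.2) (poly_orders hp)
      (poly_R (Poly.fst (Poly.snd Poly.id)) (Poly.snd (Poly.snd Poly.id)))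
  · exact Poly.const _
  · exact Poly.map (F := fun _ i => Vx.S i) (poly_Is hp) (poly_S (Poly.snd Poly.id))

end

/-! ### The reduction -/

/-- The instance of a program. -/
def inst (p : List Ins) : GCode × ℕ := (gcode (net p).Is (net p).Ws, (net p).Ws.dedup.length)

theorem poly_inst {α : Type} [TEnc α] {p : α → List Ins} (hp : Poly p) :
    Poly (fun a => inst (p a)) :=
  Poly.pair (poly_gcode (poly_Is hp) (poly_Ws hp)) (Poly.length (H612.poly_dedup (poly_Ws hp)))

theorem classes_ne (p : List Ins) : (net p).classes ≠ [] := by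
  intro h
  have h1 : ((0, 0 + 1) : ℕ × ℕ) ∈ (net p).classes := by
    refine List.mem_append_left _ (List.mem_flatMap.2 ⟨0, List.mem_range.2 (by omega), ?_⟩)
    simp
  rw [h] at h1
  exact absurd h1 (by simp)

/-- The language: a graph and a natural number at most its Colin de Verdière number. -/
def CdVP (q : GCode × ℕ) : Prop := q.1.WF ∧ q.2 ≤ mu q.1.graph

theorem card_Ws (Ws : List Vx) : Fintype.card {w // w ∈ Ws} = Ws.dedup.length := by
  rw [Fintype.card_of_subtype (p := fun w => w ∈ Ws) Ws.toFinset (fun x => by simp)]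
  exact List.card_toFinset Ws

theorem inst_iff (p : List Ins) (hp : WF 2 p) : OSat p ↔ CdVP (inst p) := by
  have hk : 0 < (net p).Ws.dedup.length := by
    refine List.length_pos_of_mem (a := Vx.Z) (List.mem_dedup.2 ?_)
    unfold Net.Ws
    simp
  have hadj := vequiv_adj (ca := Co.num) (cb := Vx.num) (S := sup) (H := hh) (Is := (net p).Is)
    (Ws := (net p).Ws) Co.num_injective Vx.num_injective hh_comm
  have hcard := Fintype.card_congr (vequiv (ca := Co.num) (cb := Vx.num) (S := sup) (H := hh)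
    (Is := (net p).Is) (Ws := (net p).Ws) Co.num_injective Vx.num_injective)
  constructor
  · intro h
    obtain ⟨M, hM, hr⟩ := mu_of_osat hp h
    refine ⟨gc_wf Vx.num_injective, ?_⟩
    show _ ≤ mu (gcode (net p).Is (net p).Ws).graph
    rw [show (inst p).2 = (net p).Ws.dedup.length from rfl, le_mu_iff _ hk]
    refine exists_inM_iso (vequiv (ca := Co.num) (cb := Vx.num) (S := sup) (H := hh)
      (Is := (net p).Is) (Ws := (net p).Ws) Co.num_injective Vx.num_injective).symm
      (G' := (net p).G) (fun u v => ?_) ⟨M, hM, ?_⟩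
    · have := hadj ((vequiv (ca := Co.num) (cb := Vx.num) (S := sup) (H := hh)
        (Is := (net p).Is) (Ws := (net p).Ws) Co.num_injective Vx.num_injective).symm u)
        ((vequiv (ca := Co.num) (cb := Vx.num) (S := sup) (H := hh)
        (Is := (net p).Is) (Ws := (net p).Ws) Co.num_injective Vx.num_injective).symm v)
      rw [Equiv.apply_symm_apply, Equiv.apply_symm_apply] at this
      exact this.symm
    · rw [← card_Ws]
      exact hr
  · rintro ⟨-, h⟩
    rw [show (inst p).2 = (net p).Ws.dedup.length from rfl, le_mu_iff _ hk, ← card_Ws] at h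
    obtain ⟨a, ha⟩ := Net.sol_of_mu (net_ok hp) (classes_ne p) (exists_inM_iso
      (vequiv (ca := Co.num) (cb := Vx.num) (S := sup) (H := hh)
      (Is := (net p).Is) (Ws := (net p).Ws) Co.num_injective Vx.num_injective) hadj h)
    exact osat_of_sol hp ha

/-- Deciding lower bounds for the Colin de Verdière number is `∃ℝ`-hard. -/
theorem hard : ERHard (lang CdVP) :=
  ERHard.of_sys (f := fun S => inst (prog S)) (poly_inst (poly_prog Poly.id)) fun S => by
    rw [prog_iff, inst_iff _ (wf_prog S)]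

end Pool.Agent.NPC.ER.CdV
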