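import Pool.Agent.CdV.Code

/-!
# Polynomial time computation of the graph of a network
-/

namespace Pool.Agent.NPC.ER.CdV

open Pool.Agent.NPC Pool.Agent.NPC.ER Pool.Agent.NPC.ER.Oslp

/-- The code of a coordinate. -/
def Co.code : Co → ℕ × (ℕ × ℕ)
  | Co.nd n => (0, (n, 0))
  | Co.tg c => (1, c)

theorem Co.code_injective : Function.Injective Co.code := by
  rintro (n | c) (m | d) h <;> simp [Co.code] at h ⊢ <;> exact h

/-- The code of a vector. -/
def Vx.code : Vx → ℕ × ((ℕ × ℕ) × (ℕ × ℕ))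
  | Vx.V c => (0, (c, (0, 0)))
  | Vx.W c => (1, (c, (0, 0)))
  | Vx.Y c => (2, (c, (0, 0)))
  | Vx.P c d => (3, (c, d))
  | Vx.R c d => (4, (c, d))
  | Vx.Z => (5, ((0, 0), (0, 0)))
  | Vx.S i => (6 + i.code.1, (i.code.2, (0, 0)))

theorem Vx.code_injective : Function.Injective Vx.code := by
  rintro (c | c | l | ⟨c, d⟩ | ⟨c, d⟩ | _ | (n | i)) (c' | c' | l' | ⟨c', d'⟩ | ⟨c', d'⟩ | _ | (m | j)) h <;>
    simp [Vx.code, Co.code] at h ⊢ <;> exact h

instance : TEnc Co := ⟨fun t => toT t.code, fun _ _ h => Co.code_injective (TEnc.inj h)⟩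
instance : TEnc Vx := ⟨fun t => toT t.code, fun _ _ h => Vx.code_injective (TEnc.inj h)⟩

section

variable {α : Type} [TEnc α]

theorem Co.poly_code {i : α → Co} (h : Poly i) : Poly (fun a => (i a).code) := h
theorem Co.poly_of_code {i : α → Co} (h : Poly (fun a => (i a).code)) : Poly i := h
theorem Vx.poly_code {i : α → Vx} (h : Poly i) : Poly (fun a => (i a).code) := h
theorem Vx.poly_of_code {i : α → Vx} (h : Poly (fun a => (i a).code)) : Poly i := h

theorem poly_nd {n : α → ℕ} (h : Poly n) : Poly (fun a => Co.nd (n a)) :=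
  Co.poly_of_code (Poly.pair (Poly.const 0) (Poly.pair h (Poly.const 0)))

theorem poly_tg {c : α → ℕ × ℕ} (h : Poly c) : Poly (fun a => Co.tg (c a)) :=
  Co.poly_of_code (Poly.pair (Poly.const 1) h)

theorem poly_V {c : α → ℕ × ℕ} (h : Poly c) : Poly (fun a => Vx.V (c a)) :=
  Vx.poly_of_code (Poly.pair (Poly.const 0) (Poly.pair h (Poly.const (0, 0))))

theorem poly_W {c : α → ℕ × ℕ} (h : Poly c) : Poly (fun a => Vx.W (c a)) :=
  Vx.poly_of_code (Poly.pair (Poly.const 1) (Poly.pair h (Poly.const (0, 0))))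

theorem poly_Y {c : α → ℕ × ℕ} (h : Poly c) : Poly (fun a => Vx.Y (c a)) :=
  Vx.poly_of_code (Poly.pair (Poly.const 2) (Poly.pair h (Poly.const (0, 0))))

theorem poly_P {c d : α → ℕ × ℕ} (h : Poly c) (h' : Poly d) : Poly (fun a => Vx.P (c a) (d a)) :=
  Vx.poly_of_code (Poly.pair (Poly.const 3) (Poly.pair h h'))

theorem poly_R {c d : α → ℕ × ℕ} (h : Poly c) (h' : Poly d) : Poly (fun a => Vx.R (c a) (d a)) :=
  Vx.poly_of_code (Poly.pair (Poly.const 4) (Poly.pair h h'))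

theorem poly_S {i : α → Co} (h : Poly i) : Poly (fun a => Vx.S (i a)) :=
  Vx.poly_of_code (Poly.pair (Poly.add (Poly.const 6) (Poly.fst (Co.poly_code h)))
    (Poly.pair (Poly.snd (Co.poly_code h)) (Poly.const (0, 0))))

/-! ### Supports and orthogonality, from the codes -/

/-- `sup` in terms of codes. -/
def supC (u : ℕ × ((ℕ × ℕ) × (ℕ × ℕ))) (i : ℕ × (ℕ × ℕ)) : Bool :=
  (decide (u.1 = 0) && (decide (i.1 = 1) && decide (u.2.1 = i.2))) ||
  ((decide (u.1 = 1) && ((decide (i.1 = 0) && decide (u.2.1.1 = i.2.1)) ||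
    (decide (i.1 = 1) && decide (u.2.1 = i.2)))) ||
  ((decide (u.1 = 2) && (decide (i.1 = 0) && (decide (u.2.1.1 = i.2.1) || decide (u.2.1.2 = i.2.1))))
  || ((decide (u.1 = 3) && ((decide (i.1 = 0) && (decide (u.2.1.1 = i.2.1) ||
    decide (u.2.2.1 = i.2.1))) ||
    (decide (i.1 = 1) && (decide (u.2.1 = i.2) || decide (u.2.2 = i.2))))) ||
  ((decide (u.1 = 4) && ((decide (i.1 = 0) && decide (u.2.1.1 = i.2.1)) ||
    (decide (i.1 = 1) && (decide (u.2.1 = i.2) || decide (u.2.2 = i.2))))) ||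
  ((decide (u.1 = 6) && (decide (i.1 = 0) && decide (u.2.1 = i.2))) ||
  (decide (u.1 = 7) && (decide (i.1 = 1) && decide (u.2.1 = i.2))))))))

theorem supC_eq (u : Vx) (i : Co) : supC u.code i.code = sup u i := by
  rw [Bool.eq_iff_iff]
  rcases u with c | c | l | ⟨c, d⟩ | ⟨c, d⟩ | _ | (n | c) <;> rcases i with m | e <;>
    simp [supC, sup, Vx.code, Co.code] <;> first
      | exact decide_eq_true_iff
      | exact or_congr decide_eq_true_iff decide_eq_true_iff

/-- `hx` in terms of codes. -/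
def hxC (u v : ℕ × ((ℕ × ℕ) × (ℕ × ℕ))) : Bool :=
  (decide (v.1 = 3) && (((decide (u.1 = 0) || decide (u.1 = 1)) &&
    (decide (u.2.1 = v.2.1) || decide (u.2.1 = v.2.2))) ||
    (decide (u.1 = 2) && decide (u.2.1 = (v.2.1.1, v.2.2.1))))) ||
  (decide (v.1 = 4) && ((decide (u.1 = 0) && (decide (u.2.1 = v.2.1) || decide (u.2.1 = v.2.2))) ||
    (decide (u.1 = 1) && decide (u.2.1 = v.2.1))))

theorem hxC_eq (u v : Vx) : hxC u.code v.code = hx u v := by
  rw [Bool.eq_iff_iff]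
  rcases u with c | c | l | ⟨c, d⟩ | ⟨c, d⟩ | _ | (n | c) <;>
    rcases v with c' | c' | l' | ⟨c', d'⟩ | ⟨c', d'⟩ | _ | (m | j) <;>
    simp [hxC, hx, Vx.code, Co.code] <;> first
      | exact decide_eq_true_iff
      | exact or_congr decide_eq_true_iff decide_eq_true_iff

theorem poly_supC {u : α → ℕ × ((ℕ × ℕ) × (ℕ × ℕ))} {i : α → ℕ × (ℕ × ℕ)} (hu : Poly u)
    (hi : Poly i) : Poly (fun a => supC (u a) (i a)) := by
  have k : ∀ n : ℕ, Poly (fun a => decide ((u a).1 = n)) := fun n =>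
    Poly.decide_eq (Poly.fst hu) (Poly.const n)
  have i0 : ∀ n : ℕ, Poly (fun a => decide ((i a).1 = n)) := fun n =>
    Poly.decide_eq (Poly.fst hi) (Poly.const n)
  have e1 : Poly (fun a => decide ((u a).2.1 = (i a).2)) :=
    Poly.decide_eq (Poly.fst (Poly.snd hu)) (Poly.snd hi)
  have e2 : Poly (fun a => decide ((u a).2.2 = (i a).2)) :=
    Poly.decide_eq (Poly.snd (Poly.snd hu)) (Poly.snd hi)
  have e3 : Poly (fun a => decide ((u a).2.1.1 = (i a).2.1)) :=
    Poly.decide_eq (Poly.fst (Poly.fst (Poly.snd hu))) (Poly.fst (Poly.snd hi))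
  have e4 : Poly (fun a => decide ((u a).2.1.2 = (i a).2.1)) :=
    Poly.decide_eq (Poly.snd (Poly.fst (Poly.snd hu))) (Poly.fst (Poly.snd hi))
  have e5 : Poly (fun a => decide ((u a).2.2.1 = (i a).2.1)) :=
    Poly.decide_eq (Poly.fst (Poly.snd (Poly.snd hu))) (Poly.fst (Poly.snd hi))
  exact Poly.or (Poly.and (k 0) (Poly.and (i0 1) e1))
    (Poly.or (Poly.and (k 1) (Poly.or (Poly.and (i0 0) e3) (Poly.and (i0 1) e1)))
    (Poly.or (Poly.and (k 2) (Poly.and (i0 0) (Poly.or e3 e4)))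
    (Poly.or (Poly.and (k 3) (Poly.or (Poly.and (i0 0) (Poly.or e3 e5))
      (Poly.and (i0 1) (Poly.or e1 e2))))
    (Poly.or (Poly.and (k 4) (Poly.or (Poly.and (i0 0) e3) (Poly.and (i0 1) (Poly.or e1 e2))))
    (Poly.or (Poly.and (k 6) (Poly.and (i0 0) e1)) (Poly.and (k 7) (Poly.and (i0 1) e1)))))))

theorem poly_sup {u : α → Vx} {i : α → Co} (hu : Poly u) (hi : Poly i) :
    Poly (fun a => sup (u a) (i a)) :=
  (poly_supC (Vx.poly_code hu) (Co.poly_code hi)).congr fun a => supC_eq _ _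

theorem poly_hxC {u v : α → ℕ × ((ℕ × ℕ) × (ℕ × ℕ))} (hu : Poly u) (hv : Poly v) :
    Poly (fun a => hxC (u a) (v a)) := by
  have k : ∀ n : ℕ, Poly (fun a => decide ((u a).1 = n)) := fun n =>
    Poly.decide_eq (Poly.fst hu) (Poly.const n)
  have k' : ∀ n : ℕ, Poly (fun a => decide ((v a).1 = n)) := fun n =>
    Poly.decide_eq (Poly.fst hv) (Poly.const n)
  have e1 : Poly (fun a => decide ((u a).2.1 = (v a).2.1)) :=
    Poly.decide_eq (Poly.fst (Poly.snd hu)) (Poly.fst (Poly.snd hv))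
  have e2 : Poly (fun a => decide ((u a).2.1 = (v a).2.2)) :=
    Poly.decide_eq (Poly.fst (Poly.snd hu)) (Poly.snd (Poly.snd hv))
  have e3 : Poly (fun a => decide ((u a).2.1 = ((v a).2.1.1, (v a).2.2.1))) :=
    Poly.decide_eq (Poly.fst (Poly.snd hu)) (Poly.pair (Poly.fst (Poly.fst (Poly.snd hv)))
      (Poly.fst (Poly.snd (Poly.snd hv))))
  exact Poly.or (Poly.and (k' 3) (Poly.or (Poly.and (Poly.or (k 0) (k 1)) (Poly.or e1 e2))
    (Poly.and (k 2) e3))) (Poly.and (k' 4) (Poly.or (Poly.and (k 0) (Poly.or e1 e2))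
    (Poly.and (k 1) e1)))

theorem poly_hh {u v : α → Vx} (hu : Poly u) (hv : Poly v) : Poly (fun a => hh (u a) (v a)) :=
  Poly.or ((poly_hxC (Vx.poly_code hu) (Vx.poly_code hv)).congr fun a => hxC_eq _ _)
    ((poly_hxC (Vx.poly_code hv) (Vx.poly_code hu)).congr fun a => hxC_eq _ _)

/-! ### Numerical codes -/

/-- The number of a coordinate. -/
def Co.num (i : Co) : ℕ := Nat.pair i.code.1 (Nat.pair i.code.2.1 i.code.2.2)

/-- The number of a vector. -/
def Vx.num (u : Vx) : ℕ := Nat.pair u.code.1 (Nat.pair (Nat.pair u.code.2.1.1 u.code.2.1.2)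
  (Nat.pair u.code.2.2.1 u.code.2.2.2))

theorem Co.num_injective : Function.Injective Co.num := by
  intro i j h
  refine Co.code_injective ?_
  simp only [Co.num, Nat.pair_eq_pair] at h
  obtain ⟨h1, h2, h3⟩ := h
  exact Prod.ext h1 (Prod.ext h2 h3)

theorem Vx.num_injective : Function.Injective Vx.num := by
  intro i j h
  refine Vx.code_injective ?_
  simp only [Vx.num, Nat.pair_eq_pair] at h
  obtain ⟨h1, ⟨h2, h3⟩, h4, h5⟩ := h
  exact Prod.ext h1 (Prod.ext (Prod.ext h2 h3) (Prod.ext h4 h5))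

theorem Co.poly_num {i : α → Co} (h : Poly i) : Poly (fun a => (i a).num) :=
  poly_pair (Poly.fst (Co.poly_code h)) (poly_pair (Poly.fst (Poly.snd (Co.poly_code h)))
    (Poly.snd (Poly.snd (Co.poly_code h))))

theorem Vx.poly_num {i : α → Vx} (h : Poly i) : Poly (fun a => (i a).num) :=
  poly_pair (Poly.fst (Vx.poly_code h)) (poly_pair
    (poly_pair (Poly.fst (Poly.fst (Poly.snd (Vx.poly_code h))))
      (Poly.snd (Poly.fst (Poly.snd (Vx.poly_code h)))))
    (poly_pair (Poly.fst (Poly.snd (Poly.snd (Vx.poly_code h))))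
      (Poly.snd (Poly.snd (Poly.snd (Vx.poly_code h))))))

/-- The code of the graph of given lists. -/
def gcode (Is : List Co) (Ws : List Vx) : GCode := gc Co.num Vx.num sup hh Is Ws

theorem poly_gcode {Is : α → List Co} {Ws : α → List Vx} (hI : Poly Is) (hW : Poly Ws) :
    Poly (fun a => gcode (Is a) (Ws a)) := by
  have i1 : Poly (fun p : α × Co => 2 * p.2.num + 1) :=
    Poly.succ (Poly.mul (Poly.const 2) (Co.poly_num (Poly.snd Poly.id)))
  have w1 : Poly (fun p : α × Vx => 2 * p.2.num + 2) :=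
    Poly.add (Poly.mul (Poly.const 2) (Vx.poly_num (Poly.snd Poly.id))) (Poly.const 2)
  have hI' : Poly (fun p : α × Vx => Is p.1) := hI.comp (Poly.fst Poly.id)
  have hW' : Poly (fun p : α × Vx => Ws p.1) := hW.comp (Poly.fst Poly.id)
  refine Poly.pair (Poly.cons (Poly.const 0) (Poly.append
    (Poly.map (F := fun _ i => 2 * Co.num i + 1) hI i1)
    (Poly.map (F := fun _ w => 2 * Vx.num w + 2) hW w1))) ?_
  refine Poly.append (Poly.map (F := fun _ w => (0, 2 * Vx.num w + 2)) hW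
    (Poly.pair (Poly.const 0) w1)) (Poly.append ?_ ?_)
  · refine Poly.flatMap (F := fun a w => ((Is a).filter (fun i => sup w i)).map fun i =>
      (2 * Co.num i + 1, 2 * Vx.num w + 2)) hW ?_
    have h1 : Poly (fun p : α × Vx => (Is p.1).filter (fun i => sup p.2 i)) :=
      Poly.filter (p := fun (p : α × Vx) i => sup p.2 i) hI'
        (poly_sup (Poly.snd (Poly.fst Poly.id)) (Poly.snd Poly.id))
    exact Poly.map (F := fun (p : α × Vx) i => (2 * Co.num i + 1, 2 * Vx.num p.2 + 2)) h1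
      (Poly.pair (Poly.succ (Poly.mul (Poly.const 2) (Co.poly_num (Poly.snd Poly.id))))
        (w1.comp (Poly.fst Poly.id)))
  · refine Poly.flatMap (F := fun a w => ((Ws a).filter (fun w' => !decide (w = w') &&
      !hh w w')).map fun w' => (2 * Vx.num w + 2, 2 * Vx.num w' + 2)) hW ?_
    have h1 : Poly (fun p : α × Vx => (Ws p.1).filter (fun w' => !decide (p.2 = w') &&
        !hh p.2 w')) :=
      Poly.filter (p := fun (p : α × Vx) w' => !decide (p.2 = w') && !hh p.2 w') hW'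
        (Poly.and (Poly.not (Poly.decide_eq (Poly.snd (Poly.fst Poly.id)) (Poly.snd Poly.id)))
          (Poly.not (poly_hh (Poly.snd (Poly.fst Poly.id)) (Poly.snd Poly.id))))
    exact Poly.map (F := fun (p : α × Vx) w' => (2 * Vx.num p.2 + 2, 2 * Vx.num w' + 2)) h1
      (Poly.pair (w1.comp (Poly.fst Poly.id)) (Poly.add (Poly.mul (Poly.const 2)
        (Vx.poly_num (Poly.snd Poly.id))) (Poly.const 2)))

end

end Pool.Agent.NPC.ER.CdV
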