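import Pool.Agent.CdV.Spec

/-!
# The Colin de Verdière invariant
-/

namespace Pool.Agent.NPC.ER.CdV

open Matrix Finset

variable {V V' : Type} [Fintype V] [DecidableEq V] [Fintype V'] [DecidableEq V']

/-- The set `𝓜(G)`: real symmetric matrices `M` with `M i j < 0` for adjacent `i, j` and
`M i j = 0` for distinct nonadjacent `i, j`, with exactly one negative eigenvalue (counted with
multiplicity), which have the strong Arnold property: the only real symmetric matrix `X` with zero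
diagonal, with `X i j = 0` for adjacent `i, j` and with `M X = 0` is `X = 0`. -/
def InM (G : SimpleGraph V) (M : Matrix V V ℝ) : Prop :=
  Mᵀ = M ∧
  (∀ i j, i ≠ j → (G.Adj i j → M i j < 0) ∧ (¬ G.Adj i j → M i j = 0)) ∧
  (∃ hM : M.IsHermitian, (univ.filter fun i => hM.eigenvalues i < 0).card = 1) ∧
  ∀ X : Matrix V V ℝ, Xᵀ = X → (∀ i, X i i = 0) → (∀ i j, G.Adj i j → X i j = 0) →
    M * X = 0 → X = 0

/-- The Colin de Verdière invariant: the largest corank of the matrices of `𝓜(G)`. -/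
noncomputable def mu (G : SimpleGraph V) : ℕ :=
  sSup {k | ∃ M : Matrix V V ℝ, InM G M ∧ k = Fintype.card V - M.rank}

theorem le_mu_iff (G : SimpleGraph V) {k : ℕ} (hk : 0 < k) :
    k ≤ mu G ↔ ∃ M : Matrix V V ℝ, InM G M ∧ k + M.rank ≤ Fintype.card V := by
  have hb : BddAbove {k | ∃ M : Matrix V V ℝ, InM G M ∧ k = Fintype.card V - M.rank} :=
    ⟨Fintype.card V, by rintro k ⟨M, -, rfl⟩; omega⟩
  constructor
  · intro h
    have hne : {k | ∃ M : Matrix V V ℝ, InM G M ∧ k = Fintype.card V - M.rank}.Nonempty := by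
      by_contra hcon
      rw [Set.not_nonempty_iff_eq_empty] at hcon
      unfold mu at h
      rw [hcon, csSup_empty] at h
      exact absurd h (by simpa using hk.ne')
    obtain ⟨M, hM, he⟩ := Nat.sSup_mem hne hb
    refine ⟨M, hM, ?_⟩
    have : mu G = Fintype.card V - M.rank := he
    omega
  · rintro ⟨M, hM, he⟩
    exact (show k ≤ Fintype.card V - M.rank by omega).trans (le_csSup hb ⟨M, hM, rfl⟩)

theorem zero_le_mu (G : SimpleGraph V) : 0 ≤ mu G := Nat.zero_le _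

/-- Elementary form of the definition. -/
theorem inM_iff (G : SimpleGraph V) (M : Matrix V V ℝ) : InM G M ↔
    Mᵀ = M ∧
    (∀ i j, i ≠ j → (G.Adj i j → M i j < 0) ∧ (¬ G.Adj i j → M i j = 0)) ∧
    ((∃ l : V → ℝ, ∀ y, l ⬝ᵥ y = 0 → 0 ≤ y ⬝ᵥ M *ᵥ y) ∧ ∃ y, y ⬝ᵥ M *ᵥ y < 0) ∧
    ∀ X : Matrix V V ℝ, Xᵀ = X → (∀ i, X i i = 0) → (∀ i j, G.Adj i j → X i j = 0) →
      M * X = 0 → X = 0 := by
  unfold InM
  refine and_congr_right fun h1 => and_congr_right fun _ => and_congr_left fun _ => ?_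
  have hM : M.IsHermitian := by
    rw [IsHermitian, conjTranspose_eq_transpose_of_trivial]
    exact h1
  rw [← neg_iff hM]
  exact ⟨fun ⟨_, h⟩ => h, fun h => ⟨hM, h⟩⟩

theorem InM.submatrix {G : SimpleGraph V} {G' : SimpleGraph V'} (e : V ≃ V')
    (he : ∀ u v, G'.Adj (e u) (e v) ↔ G.Adj u v) {M : Matrix V' V' ℝ} (h : InM G' M) :
    InM G (M.submatrix e e) := by
  rw [inM_iff] at h ⊢
  obtain ⟨h1, h2, ⟨⟨l, hl⟩, y, hy⟩, h4⟩ := h
  have hmv : ∀ y : V' → ℝ, (M.submatrix e e) *ᵥ (y ∘ e) = (M *ᵥ y) ∘ e := by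
    intro y
    funext i
    simp only [mulVec, dotProduct, Function.comp_apply, submatrix_apply]
    exact Equiv.sum_comp e fun j => M (e i) j * y j
  have hq : ∀ y : V' → ℝ, (y ∘ e) ⬝ᵥ (M.submatrix e e) *ᵥ (y ∘ e) = y ⬝ᵥ M *ᵥ y := by
    intro y
    rw [hmv]
    exact Equiv.sum_comp e fun j => y j * (M *ᵥ y) j
  have hcomp : ∀ y : V → ℝ, (y ∘ e.symm) ∘ e = y := by
    intro y
    funext i
    simp
  refine ⟨?_, ?_, ⟨⟨l ∘ e, ?_⟩, y ∘ e, ?_⟩, ?_⟩
  · rw [transpose_submatrix, h1]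
  · intro i j hij
    have := h2 (e i) (e j) (fun h => hij (e.injective h))
    rwa [he] at this
  · intro y hy
    rw [← hcomp y] at hy ⊢
    rw [hq]
    refine hl _ ?_
    rw [← hy]
    exact (Equiv.sum_comp e fun j => l j * (y ∘ e.symm) j).symm
  · rw [hq]
    exact hy
  · intro X hX1 hX2 hX3 hX4
    have h5 := h4 (X.submatrix e.symm e.symm) (by rw [transpose_submatrix, hX1])
      (fun i => hX2 _) (fun i j hij => hX3 _ _ (by rw [← he]; simpa using hij)) (by
        ext i j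
        have h6 := congrFun (congrFun hX4 (e.symm i)) (e.symm j)
        rw [mul_apply] at h6 ⊢
        rw [Matrix.zero_apply] at h6 ⊢
        rw [← h6, ← Equiv.sum_comp e]
        simp)
    ext i j
    have h6 := congrFun (congrFun h5 (e i)) (e j)
    simpa using h6

theorem exists_inM_iso {G : SimpleGraph V} {G' : SimpleGraph V'} (e : V ≃ V')
    (he : ∀ u v, G'.Adj (e u) (e v) ↔ G.Adj u v) {k : ℕ}
    (h : ∃ M : Matrix V' V' ℝ, InM G' M ∧ k + M.rank ≤ Fintype.card V') :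
    ∃ M : Matrix V V ℝ, InM G M ∧ k + M.rank ≤ Fintype.card V := by
  obtain ⟨M, h1, h2⟩ := h
  refine ⟨_, h1.submatrix e he, ?_⟩
  rw [rank_submatrix, Fintype.card_congr e]
  exact h2

end Pool.Agent.NPC.ER.CdV
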