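import Pool.Agent.CdV.Defs

/-!
# Graphs with a frame

`FG S H` is a graph on `Option I ⊕ W`: the vertices of `Option I` (the frame) are pairwise
nonadjacent; the vertex `none` is adjacent to all of `W`, the vertex `some i` is adjacent to the
`w` with `S w i`; two elements of `W` are adjacent unless `H w w'`.
-/

namespace Pool.Agent.NPC.ER.CdV

open Matrix Finset

variable {I W : Type} [Fintype I] [DecidableEq I] [Fintype W] [DecidableEq W]

/-- The adjacency relation of `FG S H`. -/
def fadj (S : W → I → Prop) (H : W → W → Prop) : Option I ⊕ W → Option I ⊕ W → Prop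
  | Sum.inl none, Sum.inr _ => True
  | Sum.inr _, Sum.inl none => True
  | Sum.inl (some i), Sum.inr w => S w i
  | Sum.inr w, Sum.inl (some i) => S w i
  | Sum.inr w, Sum.inr w' => w ≠ w' ∧ ¬ H w w' ∧ ¬ H w' w
  | Sum.inl _, Sum.inl _ => False

/-- The graph with a frame. -/
def FG (S : W → I → Prop) (H : W → W → Prop) : SimpleGraph (Option I ⊕ W) where
  Adj := fadj S H
  symm := ⟨by
    rintro ((_ | i) | w) ((_ | j) | w') h
    all_goals first
      | exact h
      | exact ⟨h.1.symm, h.2.2, h.2.1⟩⟩
  loopless := ⟨by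
    rintro ((_ | i) | w) h
    all_goals first
      | exact h
      | exact h.1 rfl⟩

variable {S : W → I → Prop} {H : W → W → Prop}

omit [Fintype I] [DecidableEq I] [Fintype W] [DecidableEq W] in
theorem alg_aux (a b : ℝ) {A B r t : ℝ} (hA : A ≠ 0) (hB : B ≠ 0) (hr : r ≠ 0) (ht : t ≠ 0) :
    A * B / r ^ 2 * (a / t / (A / r) * (b / t / (B / r))) = a * b / t ^ 2 := by
  field_simp

theorem sound (hH : ∀ w w', H w w' → H w' w) (z : W) (hz : ∀ i, ¬ S z i) (hz' : ∀ w, ¬ H z w)
    (hz2 : ∃ w, w ≠ z)
    (s : I → W) (hs : ∀ i j, S (s i) j ↔ j = i)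
    (h : ∃ M : Matrix (Option I ⊕ W) (Option I ⊕ W) ℝ, InM (FG S H) M ∧
      Fintype.card W + M.rank ≤ Fintype.card (Option I ⊕ W)) :
    ∃ x : W → I → ℝ, (∀ w i, S w i → 0 < x w i) ∧ (∀ w i, ¬ S w i → x w i = 0) ∧
      ∀ w w', w ≠ w' → (H w w' → ∑ i, x w i * x w' i = 1) ∧
        (¬ H w w' → ∑ i, x w i * x w' i < 1) := by
  obtain ⟨M, hM, hr⟩ := h
  rw [inM_iff] at hM
  obtain ⟨h1, h2, ⟨⟨l, hl⟩, -⟩, -⟩ := hM
  have hsymm : ∀ u v, M u v = M v u := fun u v => congrFun (congrFun h1 v) u
  rw [Fintype.card_sum, add_comm, Nat.add_le_add_iff_right] at hr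
  -- entries
  have m0 : ∀ w : W, M (Sum.inl none) (Sum.inr w) < 0 := fun w =>
    (h2 _ _ (by simp)).1 trivial
  have mS : ∀ (i : I) (w : W), S w i → M (Sum.inl (some i)) (Sum.inr w) < 0 := fun i w hw =>
    (h2 _ _ (by simp)).1 hw
  have mS' : ∀ (i : I) (w : W), ¬ S w i → M (Sum.inl (some i)) (Sum.inr w) = 0 := fun i w hw =>
    (h2 _ _ (by simp)).2 hw
  have mI : ∀ i j : Option I, i ≠ j → M (Sum.inl i) (Sum.inl j) = 0 := fun i j hij =>
    (h2 _ _ (by simpa using hij)).2 (by rcases i with _ | i <;> rcases j with _ | j <;> exact id)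
  have mH : ∀ w w', w ≠ w' → H w w' → M (Sum.inr w) (Sum.inr w') = 0 := fun w w' hw hh =>
    (h2 _ _ (by simpa using hw)).2 fun h3 => h3.2.1 hh
  have mH' : ∀ w w', w ≠ w' → ¬ H w w' → M (Sum.inr w) (Sum.inr w') < 0 := fun w w' hw hh =>
    (h2 _ _ (by simpa using hw)).1 ⟨hw, hh, fun h3 => hh (hH _ _ h3)⟩
  -- the rows of the frame are linearly independent
  have hli : LinearIndependent ℝ (fun i : Option I => M (Sum.inl i)) := by
    rw [Fintype.linearIndependent_iff]
    intro g hg
    have hg' : ∀ v, ∑ i, g i * M (Sum.inl i) v = 0 := fun v => by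
      have := congrFun hg v
      simpa using this
    have h0 : g none = 0 := by
      have := hg' (Sum.inr z)
      rw [Fintype.sum_option, sum_eq_zero (fun i _ => by rw [mS' i z (hz i), mul_zero]), add_zero]
        at this
      rcases mul_eq_zero.1 this with h | h
      · exact h
      · exact absurd h (m0 z).ne
    rintro (_ | i)
    · exact h0
    · have := hg' (Sum.inr (s i))
      rw [Fintype.sum_option, h0, zero_mul, zero_add, Finset.sum_eq_single i] at this
      · rcases mul_eq_zero.1 this with h | h
        · exact h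
        · exact absurd h (mS i _ ((hs i i).2 rfl)).ne
      · intro j _ hj
        rw [mS' j _ (fun h => hj ((hs i j).1 h)), mul_zero]
      · simp
  have hspan : Submodule.span ℝ (Set.range fun i : Option I => M (Sum.inl i)) =
      Submodule.span ℝ (Set.range M) := by
    refine Submodule.eq_of_le_of_finrank_le (Submodule.span_mono ?_) ?_
    · rintro _ ⟨i, rfl⟩
      exact ⟨_, rfl⟩
    · rw [finrank_span_eq_card hli]
      have := Matrix.rank_eq_finrank_span_row M
      change M.rank = Module.finrank ℝ (Submodule.span ℝ (Set.range M)) at this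
      rw [← this]
      exact hr
  have hex : ∀ u, ∃ c : Option I → ℝ, (∀ v, M u v = ∑ i, c i * M (Sum.inl i) v) ∧
      ∀ j : Option I, M u (Sum.inl j) = c j * M (Sum.inl j) (Sum.inl j) := by
    intro u
    have h3 : M u ∈ Submodule.span ℝ (Set.range fun i : Option I => M (Sum.inl i)) := by
      rw [hspan]
      exact Submodule.subset_span ⟨u, rfl⟩
    rw [Submodule.mem_span_range_iff_exists_fun] at h3
    obtain ⟨c, hc⟩ := h3
    have hc' : ∀ v, M u v = ∑ i, c i * M (Sum.inl i) v := fun v => by
      have := congrFun hc v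
      simpa using this.symm
    refine ⟨c, hc', fun j => ?_⟩
    rw [hc', Finset.sum_eq_single j]
    · intro i _ hij
      rw [mI i j hij, mul_zero]
    · simp
  have hd : ∀ j : Option I, M (Sum.inl j) (Sum.inl j) ≠ 0 := by
    intro j hj
    have key : ∀ u, M u (Sum.inl j) = 0 := fun u => by
      obtain ⟨c, -, hc⟩ := hex u
      rw [hc j, hj, mul_zero]
    rcases j with _ | i
    · have := key (Sum.inr z)
      rw [hsymm] at this
      exact (m0 z).ne this
    · have := key (Sum.inr (s i))
      rw [hsymm] at this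
      exact (mS i (s i) ((hs i i).2 rfl)).ne this
  have hform : ∀ w w' : W, M (Sum.inr w) (Sum.inr w') =
      M (Sum.inl none) (Sum.inr w) * M (Sum.inl none) (Sum.inr w') / M (Sum.inl none) (Sum.inl none)
      + ∑ i : I, M (Sum.inl (some i)) (Sum.inr w) * M (Sum.inl (some i)) (Sum.inr w') /
        M (Sum.inl (some i)) (Sum.inl (some i)) := by
    intro w w'
    obtain ⟨c, h3, h4⟩ := hex (Sum.inr w)
    have h5 : ∀ j, c j = M (Sum.inl j) (Sum.inr w) / M (Sum.inl j) (Sum.inl j) := fun j => by
      rw [hsymm, h4 j, mul_div_assoc, div_self (hd j), mul_one]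
    rw [h3, Fintype.sum_option, h5]
    congr 1
    · ring
    · refine sum_congr rfl fun i _ => ?_
      rw [h5]
      ring
  have hneg : M (Sum.inl none) (Sum.inl none) < 0 := by
    obtain ⟨w, hw⟩ := hz2
    have h3 := mH' z w (Ne.symm hw) (hz' w)
    rw [hform, sum_eq_zero (fun i _ => by rw [mS' i z (hz i), zero_mul, zero_div]), add_zero,
      div_neg_iff] at h3
    have h4 := mul_pos_of_neg_of_neg (m0 z) (m0 w)
    rcases h3 with h3 | h3
    · exact h3.2
    · linarith [h3.1]
  have hpos : ∀ i : I, 0 < M (Sum.inl (some i)) (Sum.inl (some i)) := by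
    intro i
    by_contra hcon
    have hi : M (Sum.inl (some i)) (Sum.inl (some i)) < 0 :=
      lt_of_le_of_ne (not_lt.1 hcon) (hd _)
    have key : ∀ a b : ℝ, a * l (Sum.inl none) + b * l (Sum.inl (some i)) = 0 →
        0 ≤ a ^ 2 * M (Sum.inl none) (Sum.inl none) +
          b ^ 2 * M (Sum.inl (some i)) (Sum.inl (some i)) := by
      intro a b hab
      have h3 := hl (Pi.single (Sum.inl none) a + Pi.single (Sum.inl (some i)) b) (by
        rw [dotProduct_add, dotProduct_single, dotProduct_single]
        linarith)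
      rw [mulVec_add, mulVec_single, mulVec_single, add_dotProduct, single_dotProduct,
        single_dotProduct] at h3
      simp only [Pi.add_apply, Pi.smul_apply, MulOpposite.smul_eq_mul_unop, MulOpposite.unop_op,
        Matrix.col_apply, mI none (some i) (by simp), mI (some i) none (by simp), zero_mul,
        add_zero, zero_add] at h3
      nlinarith
    by_cases h0 : l (Sum.inl (some i)) = 0
    · have := key 0 1 (by rw [h0]; ring)
      linarith
    · have := key (l (Sum.inl (some i))) (-l (Sum.inl none)) (by ring)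
      have h5 : 0 < l (Sum.inl (some i)) ^ 2 := by positivity
      nlinarith [mul_neg_of_pos_of_neg h5 hneg,
        mul_nonneg (sq_nonneg (l (Sum.inl none))) (neg_nonneg.2 hi.le)]
  -- the coordinates
  set d0 := M (Sum.inl none) (Sum.inl none) with hd0
  refine ⟨fun w i => (M (Sum.inl (some i)) (Sum.inr w) / √(M (Sum.inl (some i)) (Sum.inl (some i))))
    / (M (Sum.inl none) (Sum.inr w) / √(-d0)), ?_, ?_, ?_⟩
  · intro w i hw
    have h3 := mS i w hw
    have h4 := m0 w
    have h5 := Real.sqrt_pos.2 (hpos i)
    have h6 : 0 < √(-d0) := Real.sqrt_pos.2 (by linarith)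
    exact div_pos_of_neg_of_neg (div_neg_of_neg_of_pos h3 h5) (div_neg_of_neg_of_pos h4 h6)
  · intro w i hw
    simp only [mS' i w hw, zero_div]
  · intro w w' hww
    have h6 : 0 < √(-d0) := Real.sqrt_pos.2 (by linarith)
    have hQ : 0 < M (Sum.inl none) (Sum.inr w) * M (Sum.inl none) (Sum.inr w') / (-d0) :=
      div_pos (mul_pos_of_neg_of_neg (m0 w) (m0 w')) (by linarith)
    have hsum : M (Sum.inl none) (Sum.inr w) * M (Sum.inl none) (Sum.inr w') / (-d0) *
        (∑ i, M (Sum.inl (some i)) (Sum.inr w) / √(M (Sum.inl (some i)) (Sum.inl (some i))) /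
          (M (Sum.inl none) (Sum.inr w) / √(-d0)) *
          (M (Sum.inl (some i)) (Sum.inr w') / √(M (Sum.inl (some i)) (Sum.inl (some i))) /
          (M (Sum.inl none) (Sum.inr w') / √(-d0)))) =
        ∑ i : I, M (Sum.inl (some i)) (Sum.inr w) * M (Sum.inl (some i)) (Sum.inr w') /
        M (Sum.inl (some i)) (Sum.inl (some i)) := by
      rw [mul_sum]
      refine sum_congr rfl fun i _ => ?_
      have h5 := Real.sqrt_pos.2 (hpos i)
      have h7 : √(M (Sum.inl (some i)) (Sum.inl (some i))) ^ 2 =
        M (Sum.inl (some i)) (Sum.inl (some i)) := Real.sq_sqrt (hpos i).le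
      have h8 : √(-d0) ^ 2 = -d0 := Real.sq_sqrt (by linarith)
      have := alg_aux (M (Sum.inl (some i)) (Sum.inr w)) (M (Sum.inl (some i)) (Sum.inr w'))
        (m0 w).ne (m0 w').ne h6.ne' h5.ne'
      rwa [h7, h8] at this
    have h9 : M (Sum.inr w) (Sum.inr w') =
        M (Sum.inl none) (Sum.inr w) * M (Sum.inl none) (Sum.inr w') / (-d0) *
        ((∑ i, M (Sum.inl (some i)) (Sum.inr w) / √(M (Sum.inl (some i)) (Sum.inl (some i))) /
          (M (Sum.inl none) (Sum.inr w) / √(-d0)) *
          (M (Sum.inl (some i)) (Sum.inr w') / √(M (Sum.inl (some i)) (Sum.inl (some i))) /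
          (M (Sum.inl none) (Sum.inr w') / √(-d0)))) - 1) := by
      rw [mul_sub, hsum, hform]
      rw [div_neg]
      ring
    constructor
    · intro hh
      rw [mH w w' hww hh] at h9
      rcases mul_eq_zero.1 h9.symm with h10 | h10
      · exact absurd h10 hQ.ne'
      · linarith
    · intro hh
      have h10 := mH' w w' hww hh
      rw [h9] at h10
      by_contra hcon
      linarith [mul_nonneg hQ.le (sub_nonneg.2 (not_lt.1 hcon))]

/-- The matrix of coordinates: the columns are the vectors of the representation. -/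
def bmat (x : W → I → ℝ) : Matrix (Option I) (Option I ⊕ W) ℝ
  | none, Sum.inl none => 1
  | none, Sum.inl (some _) => 0
  | none, Sum.inr _ => 1
  | some _, Sum.inl none => 0
  | some i, Sum.inl (some j) => if i = j then 1 else 0
  | some i, Sum.inr w => -x w i

/-- The signature of the Lorentz form. -/
def sgn : Option I → ℝ
  | none => -1
  | some _ => 1

theorem complete (hH : ∀ w w', H w w' → H w' w) {x : W → I → ℝ}
    (hx1 : ∀ w i, S w i → 0 < x w i) (hx2 : ∀ w i, ¬ S w i → x w i = 0)
    (hx3 : ∀ w w', H w w' → ∑ i, x w i * x w' i = 1)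
    (hx4 : ∀ w w', w ≠ w' → ¬ H w w' → ∑ i, x w i * x w' i < 1)
    (hind : ∀ o : W → W → ℝ, (∀ w w', o w w' = o w' w) → (∀ w w', ¬ H w w' → o w w' = 0) →
      (∀ w, ∑ w', o w w' = 0) → (∀ w i, S w i → ∑ w', o w w' * x w' i = 0) →
      ∀ w w', o w w' = 0) :
    ∃ M : Matrix (Option I ⊕ W) (Option I ⊕ W) ℝ, InM (FG S H) M ∧
      Fintype.card W + M.rank ≤ Fintype.card (Option I ⊕ W) := by
  set B := bmat x with hB
  set M : Matrix (Option I ⊕ W) (Option I ⊕ W) ℝ :=
    Bᵀ * (diagonal sgn : Matrix (Option I) (Option I) ℝ) * B with hM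
  have hMe : ∀ u v, M u v = -(B none u * B none v) + ∑ i : I, B (some i) u * B (some i) v := by
    intro u v
    rw [hM, mul_apply, Fintype.sum_option]
    simp only [mul_diagonal, transpose_apply, sgn]
    congr 1
    · ring
    · exact sum_congr rfl fun i _ => by ring
  have hdot : ∀ w w' : W, M (Sum.inr w) (Sum.inr w') = ∑ i, x w i * x w' i - 1 := by
    intro w w'
    rw [hMe]
    simp only [hB, bmat]
    rw [mul_one, sum_congr rfl fun i _ => neg_mul_neg (x w i) (x w' i)]
    ring
  have m0 : ∀ u, M (Sum.inl none) u = -B none u := by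
    intro u
    rw [hMe, sum_eq_zero (fun i _ => by simp only [hB, bmat, zero_mul])]
    simp only [hB, bmat]
    ring
  have mI : ∀ i u, M (Sum.inl (some i)) u = B (some i) u := by
    intro i u
    rw [hMe, Finset.sum_eq_single i]
    · simp only [hB, bmat, if_true]
      ring
    · intro j _ hj
      simp only [hB, bmat, if_neg hj, zero_mul]
    · simp
  have hsymm : Mᵀ = M := by
    rw [hM, transpose_mul, transpose_mul, transpose_transpose, diagonal_transpose, Matrix.mul_assoc]
  have hs' : ∀ u v, M u v = M v u := fun u v => congrFun (congrFun hsymm v) u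
  have hq : ∀ y, y ⬝ᵥ M *ᵥ y = -(B *ᵥ y) none ^ 2 + ∑ i : I, (B *ᵥ y) (some i) ^ 2 := by
    intro y
    have := quad_diag Bᵀ sgn y
    rw [transpose_transpose] at this
    rw [hM, this, Fintype.sum_option]
    simp only [sgn]
    congr 1
    · ring
    · exact sum_congr rfl fun i _ => by ring
  refine ⟨M, ?_, ?_⟩
  · rw [inM_iff]
    refine ⟨hsymm, ?_, ⟨⟨fun v => B none v, fun y hy => ?_⟩, Pi.single (Sum.inl none) 1, ?_⟩, ?_⟩
    · have key0 : ∀ w : W, M (Sum.inl none) (Sum.inr w) < 0 := fun w => by
        rw [m0]
        simp [hB, bmat]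
      have key1 : ∀ (i : I) (w : W), (S w i → M (Sum.inl (some i)) (Sum.inr w) < 0) ∧
          (¬ S w i → M (Sum.inl (some i)) (Sum.inr w) = 0) := fun i w => by
        rw [mI]
        simp only [hB, bmat]
        refine ⟨fun h => ?_, fun h => ?_⟩
        · linarith [hx1 w i h]
        · rw [hx2 w i h, neg_zero]
      rintro ((_ | i) | w) ((_ | j) | w') huv
      · exact absurd rfl huv
      · refine ⟨fun h => h.elim, fun _ => ?_⟩
        rw [m0]
        simp [hB, bmat]
      · exact ⟨fun _ => key0 w', fun h => absurd trivial h⟩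
      · refine ⟨fun h => h.elim, fun _ => ?_⟩
        rw [mI]
        simp [hB, bmat]
      · refine ⟨fun h => h.elim, fun _ => ?_⟩
        rw [mI]
        have : i ≠ j := fun h => huv (by rw [h])
        simp [hB, bmat, this]
      · exact key1 i w'
      · rw [hs']
        exact ⟨fun _ => key0 w, fun h => absurd trivial h⟩
      · rw [hs']
        exact key1 j w
      · have hww : w ≠ w' := fun h => huv (by rw [h])
        rw [hdot]
        refine ⟨fun h => ?_, fun h => ?_⟩
        · linarith [hx4 w w' hww h.2.1]
        · have : H w w' := by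
            by_contra hc
            exact h ⟨hww, hc, fun h' => hc (hH _ _ h')⟩
          rw [hx3 w w' this, sub_self]
    · rw [hq]
      have : (B *ᵥ y) none = 0 := hy
      rw [this]
      have := sum_nonneg fun (i : I) (_ : i ∈ univ) => sq_nonneg ((B *ᵥ y) (some i))
      linarith
    · have h1 : ∀ o, (B *ᵥ Pi.single (Sum.inl none) 1) o = B o (Sum.inl none) := fun o => by
        rw [mulVec_single_one]
        rfl
      have h2 : B none (Sum.inl none) = 1 := rfl
      have h3 : ∀ i, B (some i) (Sum.inl none) = 0 := fun _ => rfl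
      rw [hq, h1, h2, sum_eq_zero (fun i _ => by rw [h1, h3]; norm_num)]
      norm_num
    · intro X hX1 hX2 hX3 hX4
      have hXs : ∀ u v, X u v = X v u := fun u v => congrFun (congrFun hX1 v) u
      have hBX : ∀ o v, ∑ u, B o u * X u v = 0 := by
        intro o v
        rcases o with _ | i
        · have := congrFun (congrFun hX4 (Sum.inl none)) v
          rw [mul_apply, Matrix.zero_apply, sum_congr rfl fun u _ => by rw [m0, neg_mul],
            sum_neg_distrib] at this
          linarith
        · have := congrFun (congrFun hX4 (Sum.inl (some i))) v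
          rw [mul_apply, Matrix.zero_apply, sum_congr rfl fun u _ => by rw [mI]] at this
          exact this
      have hB0 : ∀ v, X (Sum.inl none) v + ∑ w, X (Sum.inr w) v = 0 := by
        intro v
        have := hBX none v
        rw [Fintype.sum_sum_type, Fintype.sum_option] at this
        simpa [hB, bmat] using this
      have hBi : ∀ i v, X (Sum.inl (some i)) v = ∑ w, x w i * X (Sum.inr w) v := by
        intro i v
        have := hBX (some i) v
        rw [Fintype.sum_sum_type, Fintype.sum_option, Finset.sum_eq_single i] at this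
        · simp only [hB, bmat, if_true, zero_mul, zero_add, one_mul, neg_mul,
            sum_neg_distrib] at this
          linarith
        · intro j _ hj
          simp [hB, bmat, hj.symm]
        · simp
      have hX0 : ∀ w, X (Sum.inl none) (Sum.inr w) = 0 := fun w => hX3 _ _ trivial
      have ho := hind (fun w w' => X (Sum.inr w) (Sum.inr w')) (fun w w' => hXs _ _)
        (fun w w' h => by
          by_cases hww : w = w'
          · rw [hww]
            exact hX2 _
          · exact hX3 _ _ ⟨hww, h, fun h' => h (hH _ _ h')⟩)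
        (fun w => by
          have := hB0 (Sum.inr w)
          rw [hX0, zero_add] at this
          rw [← this]
          exact sum_congr rfl fun w' _ => hXs _ _)
        (fun w i h => by
          have h1 : X (Sum.inl (some i)) (Sum.inr w) = 0 := hX3 _ _ h
          have := hBi i (Sum.inr w)
          rw [h1] at this
          rw [this]
          refine sum_congr rfl fun w' _ => ?_
          rw [mul_comm, hXs])
      have hiw : ∀ (i : I) (w : W), X (Sum.inl (some i)) (Sum.inr w) = 0 := by
        intro i w
        rw [hBi]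
        exact sum_eq_zero fun w' _ => by rw [ho, mul_zero]
      have hij : ∀ (i : I) (j : Option I), X (Sum.inl (some i)) (Sum.inl j) = 0 := by
        intro i j
        rw [hBi]
        refine sum_eq_zero fun w' _ => ?_
        rw [hXs]
        rcases j with _ | j
        · rw [hX0, mul_zero]
        · rw [hiw, mul_zero]
      ext u v
      rw [Matrix.zero_apply]
      rcases u with (_ | i) | w <;> rcases v with (_ | j) | w'
      · exact hX2 _
      · rw [hXs]
        exact hij _ _
      · exact hX0 _
      · exact hij _ _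
      · exact hij _ _
      · exact hiw _ _
      · rw [hXs]
        exact hX0 _
      · rw [hXs]
        exact hiw _ _
      · exact ho _ _
  · rw [Fintype.card_sum, add_comm, Nat.add_le_add_iff_right]
    exact (rank_mul_le_right _ _).trans (rank_le_card_height _)

end Pool.Agent.NPC.ER.CdV
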