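import Pool.Agent.CdV.Gen

/-!
# Graphs with a frame: version with lists
-/

namespace Pool.Agent.NPC.ER.CdV

open Matrix Finset

variable {α β : Type} [DecidableEq α] [DecidableEq β]

theorem sum_sub (l : List α) (f : α → ℝ) : ∑ i : {i // i ∈ l}, f i.1 = ∑ i ∈ l.toFinset, f i :=
  (Finset.sum_subtype l.toFinset (fun x => by simp) f).symm

/-- The graph with a frame given by lists. -/
def LG (Is : List α) (Ws : List β) (S : β → α → Bool) (H : β → β → Bool) :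
    SimpleGraph (Option {i // i ∈ Is} ⊕ {w // w ∈ Ws}) :=
  FG (fun w i => S w.1 i.1 = true) (fun w w' => H w.1 w'.1 = true)

variable {Is : List α} {Ws : List β} {S : β → α → Bool} {H : β → β → Bool}

theorem sound_list (hH : ∀ w w', H w w' = H w' w) {z : β} (hz0 : z ∈ Ws)
    (hz : ∀ i, S z i = false) (hz' : ∀ w, H z w = false)
    (hz2 : ∃ w ∈ Ws, w ≠ z)
    {s : α → β} (hs0 : ∀ i ∈ Is, s i ∈ Ws) (hs : ∀ i j, S (s i) j = true ↔ j = i)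
    (h : ∃ M : Matrix (Option {i // i ∈ Is} ⊕ {w // w ∈ Ws}) (Option {i // i ∈ Is} ⊕ {w // w ∈ Ws}) ℝ,
      InM (LG Is Ws S H) M ∧ Fintype.card {w // w ∈ Ws} + M.rank ≤
        Fintype.card (Option {i // i ∈ Is} ⊕ {w // w ∈ Ws})) :
    ∃ x : β → α → ℝ, (∀ w ∈ Ws, ∀ i ∈ Is, S w i = true → 0 < x w i) ∧
      (∀ w ∈ Ws, ∀ i ∈ Is, S w i = false → x w i = 0) ∧
      ∀ w ∈ Ws, ∀ w' ∈ Ws, w ≠ w' → (H w w' = true → ∑ i ∈ Is.toFinset, x w i * x w' i = 1) ∧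
        (H w w' = false → ∑ i ∈ Is.toFinset, x w i * x w' i < 1) := by
  obtain ⟨w0, hw0, hw1⟩ := hz2
  obtain ⟨x, h1, h2, h3⟩ := sound (S := fun (w : {w // w ∈ Ws}) (i : {i // i ∈ Is}) =>
    S w.1 i.1 = true) (H := fun w w' => H w.1 w'.1 = true) (fun w w' h => by rw [hH]; exact h)
    ⟨z, hz0⟩ (fun i => by rw [hz]; simp) (fun w => by rw [hz']; simp)
    ⟨⟨w0, hw0⟩, fun h => hw1 (congrArg Subtype.val h)⟩
    (fun i => ⟨s i.1, hs0 i.1 i.2⟩) (fun i j => by rw [hs, Subtype.ext_iff]) h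
  let x' : β → α → ℝ := fun w i => if h : w ∈ Ws ∧ i ∈ Is then x ⟨w, h.1⟩ ⟨i, h.2⟩ else 0
  have hx' : ∀ (w : {w // w ∈ Ws}) (i : {i // i ∈ Is}), x' w.1 i.1 = x w i := fun w i =>
    dif_pos ⟨w.2, i.2⟩
  have hsum : ∀ (w w' : {w // w ∈ Ws}), ∑ i ∈ Is.toFinset, x' w.1 i * x' w'.1 i =
      ∑ i, x w i * x w' i := fun w w' => by
    rw [← sum_sub Is fun i => x' w.1 i * x' w'.1 i]
    exact sum_congr rfl fun i _ => by rw [hx', hx']
  refine ⟨x', fun w hw i hi hS => ?_, fun w hw i hi hS => ?_, fun w hw w' hw' hne => ⟨fun hh => ?_,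
    fun hh => ?_⟩⟩
  · rw [hx' ⟨w, hw⟩ ⟨i, hi⟩]
    exact h1 _ _ hS
  · rw [hx' ⟨w, hw⟩ ⟨i, hi⟩]
    exact h2 _ _ (by rw [hS]; simp)
  · rw [hsum ⟨w, hw⟩ ⟨w', hw'⟩]
    exact (h3 _ _ (fun h => hne (congrArg Subtype.val h))).1 hh
  · rw [hsum ⟨w, hw⟩ ⟨w', hw'⟩]
    exact (h3 _ _ (fun h => hne (congrArg Subtype.val h))).2 (by rw [hh]; simp)

theorem complete_list (hH : ∀ w w', H w w' = H w' w) {x : β → α → ℝ}
    (hx1 : ∀ w ∈ Ws, ∀ i ∈ Is, S w i = true → 0 < x w i)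
    (hx2 : ∀ w ∈ Ws, ∀ i ∈ Is, S w i = false → x w i = 0)
    (hx3 : ∀ w ∈ Ws, ∀ w' ∈ Ws, H w w' = true → ∑ i ∈ Is.toFinset, x w i * x w' i = 1)
    (hx4 : ∀ w ∈ Ws, ∀ w' ∈ Ws, w ≠ w' → H w w' = false →
      ∑ i ∈ Is.toFinset, x w i * x w' i < 1)
    (hind : ∀ o : β → β → ℝ, (∀ w w', o w w' = o w' w) →
      (∀ w w', H w w' = false → o w w' = 0) →
      (∀ w ∈ Ws, ∑ w' ∈ Ws.toFinset, o w w' = 0) →
      (∀ w ∈ Ws, ∀ i ∈ Is, S w i = true → ∑ w' ∈ Ws.toFinset, o w w' * x w' i = 0) →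
      ∀ w ∈ Ws, ∀ w' ∈ Ws, o w w' = 0) :
    ∃ M : Matrix (Option {i // i ∈ Is} ⊕ {w // w ∈ Ws}) (Option {i // i ∈ Is} ⊕ {w // w ∈ Ws}) ℝ,
      InM (LG Is Ws S H) M ∧ Fintype.card {w // w ∈ Ws} + M.rank ≤
        Fintype.card (Option {i // i ∈ Is} ⊕ {w // w ∈ Ws}) := by
  refine complete (S := fun (w : {w // w ∈ Ws}) (i : {i // i ∈ Is}) => S w.1 i.1 = true)
    (H := fun w w' => H w.1 w'.1 = true) (fun w w' h => by rw [hH]; exact h)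
    (x := fun w i => x w.1 i.1) (fun w i h => hx1 _ w.2 _ i.2 h)
    (fun w i h => hx2 _ w.2 _ i.2 (by simpa using h)) (fun w w' h => ?_) (fun w w' hne h => ?_)
    (fun o ho1 ho2 ho3 ho4 => ?_)
  · rw [← hx3 _ w.2 _ w'.2 h]
    exact sum_sub Is fun i => x w.1 i * x w'.1 i
  · have := hx4 _ w.2 _ w'.2 (fun h => hne (Subtype.ext h)) (by simpa using h)
    rwa [← sum_sub Is fun i => x w.1 i * x w'.1 i] at this
  · let o' : β → β → ℝ := fun w w' => if h : w ∈ Ws ∧ w' ∈ Ws then o ⟨w, h.1⟩ ⟨w', h.2⟩ else 0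
    have ho' : ∀ (w w' : {w // w ∈ Ws}), o' w.1 w'.1 = o w w' := fun w w' => dif_pos ⟨w.2, w'.2⟩
    have key := hind o' (fun w w' => by
        simp only [o']
        by_cases h : w ∈ Ws ∧ w' ∈ Ws
        · rw [dif_pos h, dif_pos h.symm, ho1]
        · rw [dif_neg h, dif_neg fun h' => h h'.symm])
      (fun w w' h => by
        simp only [o']
        split_ifs with h'
        · exact ho2 _ _ (by simpa using h)
        · rfl)
      (fun w hw => by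
        rw [← sum_sub Ws fun w' => o' w w', ← ho3 ⟨w, hw⟩]
        exact sum_congr rfl fun w' _ => ho' ⟨w, hw⟩ w')
      (fun w hw i hi hS => by
        rw [← sum_sub Ws fun w' => o' w w' * x w' i, ← ho4 ⟨w, hw⟩ ⟨i, hi⟩ hS]
        exact sum_congr rfl fun w' _ => by rw [ho' ⟨w, hw⟩ w'])
    intro w w'
    rw [← ho']
    exact key _ w.2 _ w'.2

end Pool.Agent.NPC.ER.CdV
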