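import Pool.Agent.CdV.Cert
import Pool.Agent.CdV.CodeN

/-!
# Lower bounds on the Colin de Verdière number: membership in the class `∃ℝ`
-/

namespace Pool.Agent.NPC.ER.CdV

open Pool.Agent.NPC Pool.Agent.NPC.ER Pool.Agent.NPC.H670R2

/-! ### Sums of lists of terms -/

/-- The sum of a list of terms. -/
def sumT (l : List Tm) : Tm := l.foldr Tm.add Tm.zero

theorem eval_sumT (x : ℕ → ℝ) (l : List Tm) : (sumT l).eval x = (l.map (Tm.eval x)).sum := by
  induction l with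
  | nil => rfl
  | cons a l ih =>
    rw [List.map_cons, List.sum_cons, ← ih]
    rfl

theorem toks_sumT (l : List Tm) : (sumT l).toks =
    l.flatMap Tm.toks ++ Tm.zero.toks ++ List.replicate l.length Tok.add := by
  induction l with
  | nil => simp [sumT]
  | cons a l ih =>
      change a.toks ++ (sumT l).toks ++ [Tok.add] = _
      rw [ih]
      simp [List.replicate_succ']

theorem poly_sumT {α : Type} [TEnc α] {l : α → List Tm} (hl : Poly l) :
    Poly (fun a => sumT (l a)) := by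
  refine tm_of_toks (Poly.congr (f := fun a => (l a).flatMap Tm.toks ++ Tm.zero.toks ++
    List.replicate (l a).length Tok.add) ?_ fun a => (toks_sumT _).symm)
  refine Poly.append (Poly.append (Poly.flatMap (F := fun _ φ => Tm.toks φ) hl
    (tm_toks (Poly.snd Poly.id))) (Poly.const _)) (poly_replicate hl _)

/-! ### Variables -/

/-- Variables with a tag and four indices. -/
def vr (t a b c d : ℕ) : Tm := Tm.var (Nat.pair t (Nat.pair (Nat.pair a b) (Nat.pair c d)))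

/-- The valuation given by functions. -/
def vl (X : ℕ → ℕ → ℕ → ℕ → ℕ → ℝ) (n : ℕ) : ℝ :=
  X n.unpair.1 n.unpair.2.unpair.1.unpair.1 n.unpair.2.unpair.1.unpair.2
    n.unpair.2.unpair.2.unpair.1 n.unpair.2.unpair.2.unpair.2

@[simp] theorem eval_vr (X : ℕ → ℕ → ℕ → ℕ → ℕ → ℝ) (t a b c d : ℕ) :
    (vr t a b c d).eval (vl X) = X t a b c d := by
  simp [vr, vl, Tm.eval]

theorem exists_vl (x : ℕ → ℝ) : ∃ X, x = vl X := by
  refine ⟨fun t a b c d => x (Nat.pair t (Nat.pair (Nat.pair a b) (Nat.pair c d))), ?_⟩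
  funext n
  simp [vl]

theorem poly_vr {α : Type} [TEnc α] {t a b c d : α → ℕ} (ht : Poly t) (ha : Poly a) (hb : Poly b)
    (hc : Poly c) (hd : Poly d) : Poly (fun x => vr (t x) (a x) (b x) (c x) (d x)) :=
  poly_tvar (poly_pair ht (poly_pair (poly_pair ha hb) (poly_pair hc hd)))

/-! ### The formula -/

/-- Adjacency. -/
def adjB (g : GCode) (u v : ℕ) : Bool := decide ((u, v) ∈ g.2) || decide ((v, u) ∈ g.2)

/-- The vertices. -/
def vs (g : GCode) : List ℕ := g.1.dedup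

/-- The indices of the vectors of the kernel. -/
def js (q : GCode × ℕ) : List ℕ := (List.range (q.1.1.length + 1)).filter fun j => decide (j < q.2)

/-- The nonadjacent pairs. -/
def ps (g : GCode) : List (ℕ × ℕ) := (vs g).flatMap fun u =>
  ((vs g).filter fun v => !decide (u = v) && !adjB g u v).map fun v => (u, v)

/-- Symmetry. -/
def F1 (g : GCode) : List Fm := (vs g).flatMap fun u => (vs g).map fun v =>
  Fm.eq (vr 0 u v 0 0) (vr 0 v u 0 0)

/-- Signs. -/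
def F2 (g : GCode) : List Fm := (vs g).flatMap fun u => (vs g).map fun v =>
  if u = v then tt else if adjB g u v = true then Fm.lt (vr 0 u v 0 0) Tm.zero
    else Fm.eq (vr 0 u v 0 0) Tm.zero

/-- At most one negative eigenvalue. -/
def F3 (g : GCode) : List Fm := (vs g).flatMap fun u => (vs g).map fun v =>
  Fm.eq (Tm.add (vr 0 u v 0 0) (Tm.mul (vr 1 u 0 0 0) (vr 1 v 0 0 0)))
    (sumT ((vs g).map fun w => Tm.mul (vr 2 w u 0 0) (vr 2 w v 0 0)))

/-- At least one negative eigenvalue. -/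
def F4 (g : GCode) : Fm := Fm.lt (sumT ((vs g).map fun u => Tm.mul (vr 3 u 0 0 0)
  (sumT ((vs g).map fun v => Tm.mul (vr 0 u v 0 0) (vr 3 v 0 0 0))))) Tm.zero

/-- Vectors of the kernel. -/
def F5 (q : GCode × ℕ) : List Fm := (vs q.1).flatMap fun u => (js q).map fun j =>
  Fm.eq (sumT ((vs q.1).map fun v => Tm.mul (vr 0 u v 0 0) (vr 4 v j 0 0))) Tm.zero

/-- Linear independence. -/
def F6 (q : GCode × ℕ) : List Fm := (js q).flatMap fun i => (js q).map fun j =>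
  Fm.eq (sumT ((vs q.1).map fun u => Tm.mul (vr 5 i u 0 0) (vr 4 u j 0 0)))
    (if i = j then Tm.one else Tm.zero)

/-- Equality of unordered pairs. -/
def eqB (p r : ℕ × ℕ) : Bool :=
  (decide (r.1 = p.1) && decide (r.2 = p.2)) || (decide (r.1 = p.2) && decide (r.2 = p.1))

/-- One equation of the strong Arnold property. -/
def E7 (g : GCode) (p r : ℕ × ℕ) : Fm :=
  Fm.eq (sumT ((vs g).map fun a => Tm.add (Tm.mul (vr 6 p.1 p.2 a r.2) (vr 0 a r.1 0 0))
    (Tm.mul (vr 6 p.1 p.2 a r.1) (vr 0 a r.2 0 0))))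
    (if eqB p r = true then Tm.one else Tm.zero)

/-- The strong Arnold property. -/
def F7 (g : GCode) : List Fm := (ps g).flatMap fun p => (ps g).map fun r => E7 g p r

/-- The conjunction. -/
def FF (q : GCode × ℕ) : Fm :=
  conj (F1 q.1 ++ (F2 q.1 ++ (F3 q.1 ++ (F4 q.1 :: (F5 q ++ (F6 q ++ F7 q.1))))))

/-- The formula of an instance. -/
def Fx (q : GCode × ℕ) : Fm :=
  if q.1.WF then (if q.2 = 0 then tt else
    if q.1.1.length < q.2 then ff else FF q) else ff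

/-! ### Polynomial time -/

section

variable {α : Type} [TEnc α]

theorem poly_adjB {g : α → GCode} {u v : α → ℕ} (hg : Poly g) (hu : Poly u) (hv : Poly v) :
    Poly (fun a => adjB (g a) (u a) (v a)) :=
  (Poly.or (Poly.decide_mem (Poly.pair hu hv) (Poly.snd hg))
    (Poly.decide_mem (Poly.pair hv hu) (Poly.snd hg))).congr fun a => by
    unfold adjB
    congr

theorem poly_vs {g : α → GCode} (hg : Poly g) : Poly (fun a => vs (g a)) :=
  H612.poly_dedup (Poly.fst hg)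

theorem poly_js {q : α → GCode × ℕ} (hq : Poly q) : Poly (fun a => js (q a)) := by
  have h1 : Poly (fun a => List.range ((q a).1.1.length + 1)) :=
    (Poly.range_length (Poly.cons (Poly.const (0 : ℕ)) (Poly.fst (Poly.fst hq)))).congr
      fun a => by simp
  exact Poly.filter (p := fun a (j : ℕ) => decide (j < (q a).2)) h1
    (Poly.decide_lt (Poly.snd Poly.id) (Poly.snd (hq.comp (Poly.fst Poly.id))))

theorem poly_ps {g : α → GCode} (hg : Poly g) : Poly (fun a => ps (g a)) := by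
  have g1 : Poly (fun x : α × ℕ => g x.1) := hg.comp (Poly.fst Poly.id)
  have g2 : Poly (fun x : (α × ℕ) × ℕ => g x.1.1) := g1.comp (Poly.fst Poly.id)
  refine Poly.flatMap (F := fun a u => ((vs (g a)).filter fun v => !decide (u = v) &&
    !adjB (g a) u v).map fun v => (u, v)) (poly_vs hg) ?_
  refine Poly.map (F := fun (x : α × ℕ) v => (x.2, v)) ?_ (Poly.pair (Poly.snd (Poly.fst Poly.id))
    (Poly.snd Poly.id))
  exact Poly.filter (p := fun (x : α × ℕ) v => !decide (x.2 = v) && !adjB (g x.1) x.2 v)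
    (poly_vs g1) (Poly.and (Poly.not (Poly.decide_eq (Poly.snd (Poly.fst Poly.id))
      (Poly.snd Poly.id))) (Poly.not (poly_adjB g2 (Poly.snd (Poly.fst Poly.id))
      (Poly.snd Poly.id))))

theorem poly_eqB {p r : α → ℕ × ℕ} (hp : Poly p) (hr : Poly r) :
    Poly (fun a => eqB (p a) (r a)) :=
  Poly.or (Poly.and (Poly.decide_eq (Poly.fst hr) (Poly.fst hp))
    (Poly.decide_eq (Poly.snd hr) (Poly.snd hp))) (Poly.and (Poly.decide_eq (Poly.fst hr)
    (Poly.snd hp)) (Poly.decide_eq (Poly.snd hr) (Poly.fst hp)))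

theorem poly_F1 {g : α → GCode} (hg : Poly g) : Poly (fun a => F1 (g a)) := by
  have g1 : Poly (fun x : α × ℕ => g x.1) := hg.comp (Poly.fst Poly.id)
  have u2 : Poly (fun x : (α × ℕ) × ℕ => x.1.2) := Poly.snd (Poly.fst Poly.id)
  have v2 : Poly (fun x : (α × ℕ) × ℕ => x.2) := Poly.snd Poly.id
  have z : Poly (fun _ : (α × ℕ) × ℕ => 0) := Poly.const 0
  exact Poly.flatMap (F := fun a u => (vs (g a)).map fun v =>
    Fm.eq (vr 0 u v 0 0) (vr 0 v u 0 0)) (poly_vs hg)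
    (Poly.map (F := fun (x : α × ℕ) v => Fm.eq (vr 0 x.2 v 0 0) (vr 0 v x.2 0 0)) (poly_vs g1)
    (poly_eq (poly_vr z u2 v2 z z) (poly_vr z v2 u2 z z)))

theorem poly_F2 {g : α → GCode} (hg : Poly g) : Poly (fun a => F2 (g a)) := by
  have g1 : Poly (fun x : α × ℕ => g x.1) := hg.comp (Poly.fst Poly.id)
  have g2 : Poly (fun x : (α × ℕ) × ℕ => g x.1.1) := g1.comp (Poly.fst Poly.id)
  have u2 : Poly (fun x : (α × ℕ) × ℕ => x.1.2) := Poly.snd (Poly.fst Poly.id)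
  have v2 : Poly (fun x : (α × ℕ) × ℕ => x.2) := Poly.snd Poly.id
  have z : Poly (fun _ : (α × ℕ) × ℕ => 0) := Poly.const 0
  have tz : Poly (fun _ : (α × ℕ) × ℕ => Tm.zero) := Poly.const _
  exact Poly.flatMap (F := fun a u => (vs (g a)).map fun v =>
    if u = v then tt else if adjB (g a) u v = true then Fm.lt (vr 0 u v 0 0) Tm.zero
    else Fm.eq (vr 0 u v 0 0) Tm.zero) (poly_vs hg)
    (Poly.map (F := fun (x : α × ℕ) v => if x.2 = v then tt else
      if adjB (g x.1) x.2 v = true then Fm.lt (vr 0 x.2 v 0 0) Tm.zero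
      else Fm.eq (vr 0 x.2 v 0 0) Tm.zero) (poly_vs g1)
    (Poly.ite (Poly.decide_eq u2 v2) (Poly.const _) (Poly.ite (Poly.decide_bool (poly_adjB g2 u2 v2))
      (poly_lt (poly_vr z u2 v2 z z) tz) (poly_eq (poly_vr z u2 v2 z z) tz))))

theorem poly_F3 {g : α → GCode} (hg : Poly g) : Poly (fun a => F3 (g a)) := by
  have g1 : Poly (fun x : α × ℕ => g x.1) := hg.comp (Poly.fst Poly.id)
  have g2 : Poly (fun x : (α × ℕ) × ℕ => g x.1.1) := g1.comp (Poly.fst Poly.id)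
  have u2 : Poly (fun x : (α × ℕ) × ℕ => x.1.2) := Poly.snd (Poly.fst Poly.id)
  have v2 : Poly (fun x : (α × ℕ) × ℕ => x.2) := Poly.snd Poly.id
  have c2 : ∀ n : ℕ, Poly (fun _ : (α × ℕ) × ℕ => n) := fun n => Poly.const n
  have u3 : Poly (fun x : ((α × ℕ) × ℕ) × ℕ => x.1.1.2) := u2.comp (Poly.fst Poly.id)
  have v3 : Poly (fun x : ((α × ℕ) × ℕ) × ℕ => x.1.2) := v2.comp (Poly.fst Poly.id)
  have w3 : Poly (fun x : ((α × ℕ) × ℕ) × ℕ => x.2) := Poly.snd Poly.id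
  have c3 : ∀ n : ℕ, Poly (fun _ : ((α × ℕ) × ℕ) × ℕ => n) := fun n => Poly.const n
  exact Poly.flatMap (F := fun a u => (vs (g a)).map fun v =>
    Fm.eq (Tm.add (vr 0 u v 0 0) (Tm.mul (vr 1 u 0 0 0) (vr 1 v 0 0 0)))
    (sumT ((vs (g a)).map fun w => Tm.mul (vr 2 w u 0 0) (vr 2 w v 0 0)))) (poly_vs hg)
    (Poly.map (F := fun (x : α × ℕ) v => Fm.eq (Tm.add (vr 0 x.2 v 0 0)
      (Tm.mul (vr 1 x.2 0 0 0) (vr 1 v 0 0 0)))
      (sumT ((vs (g x.1)).map fun w => Tm.mul (vr 2 w x.2 0 0) (vr 2 w v 0 0)))) (poly_vs g1)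
    (poly_eq (poly_tadd (poly_vr (c2 0) u2 v2 (c2 0) (c2 0))
      (poly_tmul (poly_vr (c2 1) u2 (c2 0) (c2 0) (c2 0)) (poly_vr (c2 1) v2 (c2 0) (c2 0) (c2 0))))
      (poly_sumT (Poly.map (F := fun (x : (α × ℕ) × ℕ) w => Tm.mul (vr 2 w x.1.2 0 0)
        (vr 2 w x.2 0 0)) (poly_vs g2) (poly_tmul (poly_vr (c3 2) w3 u3 (c3 0) (c3 0))
        (poly_vr (c3 2) w3 v3 (c3 0) (c3 0)))))))

theorem poly_F4 {g : α → GCode} (hg : Poly g) : Poly (fun a => F4 (g a)) := by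
  have g1 : Poly (fun x : α × ℕ => g x.1) := hg.comp (Poly.fst Poly.id)
  have u1 : Poly (fun x : α × ℕ => x.2) := Poly.snd Poly.id
  have c1 : ∀ n : ℕ, Poly (fun _ : α × ℕ => n) := fun n => Poly.const n
  have u2 : Poly (fun x : (α × ℕ) × ℕ => x.1.2) := Poly.snd (Poly.fst Poly.id)
  have v2 : Poly (fun x : (α × ℕ) × ℕ => x.2) := Poly.snd Poly.id
  have c2 : ∀ n : ℕ, Poly (fun _ : (α × ℕ) × ℕ => n) := fun n => Poly.const n
  exact poly_lt (poly_sumT (Poly.map (F := fun a u => Tm.mul (vr 3 u 0 0 0)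
    (sumT ((vs (g a)).map fun v => Tm.mul (vr 0 u v 0 0) (vr 3 v 0 0 0)))) (poly_vs hg)
    (poly_tmul (poly_vr (c1 3) u1 (c1 0) (c1 0) (c1 0)) (poly_sumT
      (Poly.map (F := fun (x : α × ℕ) v => Tm.mul (vr 0 x.2 v 0 0) (vr 3 v 0 0 0)) (poly_vs g1)
      (poly_tmul (poly_vr (c2 0) u2 v2 (c2 0) (c2 0)) (poly_vr (c2 3) v2 (c2 0) (c2 0) (c2 0))))))))
    (Poly.const _)

theorem poly_F5 {q : α → GCode × ℕ} (hq : Poly q) : Poly (fun a => F5 (q a)) := by
  have q1 : Poly (fun x : α × ℕ => q x.1) := hq.comp (Poly.fst Poly.id)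
  have q2 : Poly (fun x : (α × ℕ) × ℕ => q x.1.1) := q1.comp (Poly.fst Poly.id)
  have u3 : Poly (fun x : ((α × ℕ) × ℕ) × ℕ => x.1.1.2) :=
    Poly.snd (Poly.fst (Poly.fst Poly.id))
  have v3 : Poly (fun x : ((α × ℕ) × ℕ) × ℕ => x.1.2) := Poly.snd (Poly.fst Poly.id)
  have w3 : Poly (fun x : ((α × ℕ) × ℕ) × ℕ => x.2) := Poly.snd Poly.id
  have c3 : ∀ n : ℕ, Poly (fun _ : ((α × ℕ) × ℕ) × ℕ => n) := fun n => Poly.const n
  exact Poly.flatMap (F := fun a u => (js (q a)).map fun j =>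
    Fm.eq (sumT ((vs (q a).1).map fun v => Tm.mul (vr 0 u v 0 0) (vr 4 v j 0 0))) Tm.zero)
    (poly_vs (Poly.fst hq))
    (Poly.map (F := fun (x : α × ℕ) j => Fm.eq (sumT ((vs (q x.1).1).map fun v =>
      Tm.mul (vr 0 x.2 v 0 0) (vr 4 v j 0 0))) Tm.zero) (poly_js q1)
    (poly_eq (poly_sumT (Poly.map (F := fun (x : (α × ℕ) × ℕ) v => Tm.mul (vr 0 x.1.2 v 0 0)
      (vr 4 v x.2 0 0)) (poly_vs (Poly.fst q2)) (poly_tmul (poly_vr (c3 0) u3 w3 (c3 0) (c3 0))
        (poly_vr (c3 4) w3 v3 (c3 0) (c3 0))))) (Poly.const _)))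

theorem poly_F6 {q : α → GCode × ℕ} (hq : Poly q) : Poly (fun a => F6 (q a)) := by
  have q1 : Poly (fun x : α × ℕ => q x.1) := hq.comp (Poly.fst Poly.id)
  have q2 : Poly (fun x : (α × ℕ) × ℕ => q x.1.1) := q1.comp (Poly.fst Poly.id)
  have u2 : Poly (fun x : (α × ℕ) × ℕ => x.1.2) := Poly.snd (Poly.fst Poly.id)
  have v2 : Poly (fun x : (α × ℕ) × ℕ => x.2) := Poly.snd Poly.id
  have u3 : Poly (fun x : ((α × ℕ) × ℕ) × ℕ => x.1.1.2) :=
    Poly.snd (Poly.fst (Poly.fst Poly.id))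
  have v3 : Poly (fun x : ((α × ℕ) × ℕ) × ℕ => x.1.2) := Poly.snd (Poly.fst Poly.id)
  have w3 : Poly (fun x : ((α × ℕ) × ℕ) × ℕ => x.2) := Poly.snd Poly.id
  have c3 : ∀ n : ℕ, Poly (fun _ : ((α × ℕ) × ℕ) × ℕ => n) := fun n => Poly.const n
  exact Poly.flatMap (F := fun a i => (js (q a)).map fun j =>
    Fm.eq (sumT ((vs (q a).1).map fun u => Tm.mul (vr 5 i u 0 0) (vr 4 u j 0 0)))
    (if i = j then Tm.one else Tm.zero)) (poly_js hq)
    (Poly.map (F := fun (x : α × ℕ) j => Fm.eq (sumT ((vs (q x.1).1).map fun u =>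
      Tm.mul (vr 5 x.2 u 0 0) (vr 4 u j 0 0))) (if x.2 = j then Tm.one else Tm.zero))
      (poly_js q1)
    (poly_eq (poly_sumT (Poly.map (F := fun (x : (α × ℕ) × ℕ) u => Tm.mul (vr 5 x.1.2 u 0 0)
      (vr 4 u x.2 0 0)) (poly_vs (Poly.fst q2)) (poly_tmul (poly_vr (c3 5) u3 w3 (c3 0) (c3 0))
        (poly_vr (c3 4) w3 v3 (c3 0) (c3 0))))) (Poly.ite (Poly.decide_eq u2 v2) (Poly.const _)
        (Poly.const _))))

theorem poly_E7 {g : α → GCode} {p r : α → ℕ × ℕ} (hg : Poly g) (hp : Poly p) (hr : Poly r) :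
    Poly (fun a => E7 (g a) (p a) (r a)) := by
  have p1 : Poly (fun x : α × ℕ => p x.1) := hp.comp (Poly.fst Poly.id)
  have r1 : Poly (fun x : α × ℕ => r x.1) := hr.comp (Poly.fst Poly.id)
  have a1 : Poly (fun x : α × ℕ => x.2) := Poly.snd Poly.id
  have c1 : ∀ n : ℕ, Poly (fun _ : α × ℕ => n) := fun n => Poly.const n
  have h1 : Poly (fun x : α × ℕ => Tm.add (Tm.mul (vr 6 (p x.1).1 (p x.1).2 x.2 (r x.1).2)
      (vr 0 x.2 (r x.1).1 0 0)) (Tm.mul (vr 6 (p x.1).1 (p x.1).2 x.2 (r x.1).1)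
      (vr 0 x.2 (r x.1).2 0 0))) :=
    poly_tadd (poly_tmul (poly_vr (c1 6) (Poly.fst p1) (Poly.snd p1) a1 (Poly.snd r1))
        (poly_vr (c1 0) a1 (Poly.fst r1) (c1 0) (c1 0)))
        (poly_tmul (poly_vr (c1 6) (Poly.fst p1) (Poly.snd p1) a1 (Poly.fst r1))
        (poly_vr (c1 0) a1 (Poly.snd r1) (c1 0) (c1 0)))
  have h2 : Poly (fun a => (vs (g a)).map fun x =>
      Tm.add (Tm.mul (vr 6 (p a).1 (p a).2 x (r a).2)
      (vr 0 x (r a).1 0 0)) (Tm.mul (vr 6 (p a).1 (p a).2 x (r a).1)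
      (vr 0 x (r a).2 0 0))) :=
    Poly.map (F := fun a x => Tm.add (Tm.mul (vr 6 (p a).1 (p a).2 x (r a).2)
      (vr 0 x (r a).1 0 0)) (Tm.mul (vr 6 (p a).1 (p a).2 x (r a).1)
      (vr 0 x (r a).2 0 0))) (poly_vs hg) h1
  exact poly_eq (poly_sumT h2) (Poly.ite (Poly.decide_bool (poly_eqB hp hr)) (Poly.const _)
    (Poly.const _))

theorem poly_F7 {g : α → GCode} (hg : Poly g) : Poly (fun a => F7 (g a)) := by
  have g1 : Poly (fun x : α × (ℕ × ℕ) => g x.1) := hg.comp (Poly.fst Poly.id)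
  have g2 : Poly (fun x : (α × (ℕ × ℕ)) × (ℕ × ℕ) => g x.1.1) := g1.comp (Poly.fst Poly.id)
  have p2 : Poly (fun x : (α × (ℕ × ℕ)) × (ℕ × ℕ) => x.1.2) := Poly.snd (Poly.fst Poly.id)
  have r2 : Poly (fun x : (α × (ℕ × ℕ)) × (ℕ × ℕ) => x.2) := Poly.snd Poly.id
  have h1 : Poly (fun x : α × (ℕ × ℕ) => (ps (g x.1)).map fun r => E7 (g x.1) x.2 r) :=
    Poly.map (F := fun (x : α × (ℕ × ℕ)) r => E7 (g x.1) x.2 r) (poly_ps g1) (poly_E7 g2 p2 r2)
  exact Poly.flatMap (F := fun a p => (ps (g a)).map fun r => E7 (g a) p r) (poly_ps hg) h1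

theorem poly_Fx : Poly Fx := by
  have hg : Poly (fun q : GCode × ℕ => q.1) := Poly.fst Poly.id
  exact Poly.ite (poly_wf hg) (Poly.ite (Poly.decide_eq (Poly.snd Poly.id) (Poly.const 0))
    (Poly.const _) (Poly.ite (Poly.decide_lt (Poly.length (Poly.fst hg)) (Poly.snd Poly.id))
      (Poly.const _) (poly_conj (Poly.append (poly_F1 hg) (Poly.append (poly_F2 hg)
        (Poly.append (poly_F3 hg) (Poly.cons (poly_F4 hg) (Poly.append (poly_F5 Poly.id)
        (Poly.append (poly_F6 Poly.id) (poly_F7 hg))))))))))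
    (Poly.const _)

end

/-! ### Correctness -/

theorem all_fm2 {α β : Type} {A : List α} {B : List β} {f : α → β → Fm} {x : ℕ → ℝ} :
    (∀ φ ∈ A.flatMap (fun u => B.map (f u)), φ.Holds x) ↔
      ∀ u ∈ A, ∀ v ∈ B, (f u v).Holds x := by
  constructor
  · intro h u hu v hv
    exact h _ (List.mem_flatMap.2 ⟨u, hu, List.mem_map.2 ⟨v, hv, rfl⟩⟩)
  · intro h φ hφ
    obtain ⟨u, hu, hφ⟩ := List.mem_flatMap.1 hφ
    obtain ⟨v, hv, rfl⟩ := List.mem_map.1 hφ
    exact h u hu v hv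

theorem mem_vs {g : GCode} {u : ℕ} : u ∈ vs g ↔ u ∈ g.1 := List.mem_dedup

theorem sum_vs (g : GCode) (f : ℕ → ℝ) : ((vs g).map f).sum = ∑ v : g.V, f v.1 := by
  unfold vs
  rw [← List.sum_toFinset f (List.nodup_dedup g.1)]
  exact Finset.sum_subtype _ (fun x => by simp) f

theorem forall_vs {g : GCode} {P : ℕ → Prop} : (∀ u ∈ vs g, P u) ↔ ∀ u : g.V, P u.1 :=
  ⟨fun h u => h u.1 (mem_vs.2 u.2), fun h u hu => h ⟨u, mem_vs.1 hu⟩⟩

theorem adjB_iff {g : GCode} (hg : g.WF) (u v : g.V) : adjB g u.1 v.1 = true ↔ g.graph.Adj u v := by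
  rw [graph_adj hg]
  simp [adjB]

theorem forall_ps {g : GCode} (hg : g.WF) {P : ℕ → ℕ → Prop} : (∀ p ∈ ps g, P p.1 p.2) ↔
    ∀ u v : g.V, u ≠ v → ¬ g.graph.Adj u v → P u.1 v.1 := by
  unfold ps
  simp only [List.mem_flatMap, List.mem_map, List.mem_filter, Bool.and_eq_true, Bool.not_eq_true',
    decide_eq_false_iff_not]
  constructor
  · intro h u v huv hadj
    refine h (u.1, v.1) ⟨u.1, mem_vs.2 u.2, v.1, ⟨mem_vs.2 v.2, fun he => huv (Subtype.ext he), ?_⟩,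
      rfl⟩
    rw [← Bool.not_eq_true, adjB_iff hg]
    exact hadj
  · rintro h p ⟨u, hu, v, ⟨hv, h1, h2⟩, rfl⟩
    rw [mem_vs] at hu hv
    refine h ⟨u, hu⟩ ⟨v, hv⟩ (fun he => h1 (congrArg Subtype.val he)) ?_
    rw [← adjB_iff hg]
    simpa using h2

theorem mem_js {q : GCode × ℕ} (hq : ¬ q.1.1.length < q.2) {j : ℕ} : j ∈ js q ↔ j < q.2 := by
  unfold js
  rw [List.mem_filter, List.mem_range, decide_eq_true_iff]
  omega

theorem forall_js {q : GCode × ℕ} (hq : ¬ q.1.1.length < q.2) {P : ℕ → Prop} :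
    (∀ j ∈ js q, P j) ↔ ∀ j : Fin q.2, P j.1 :=
  ⟨fun h j => h j.1 ((mem_js hq).2 j.2), fun h j hj => h ⟨j, (mem_js hq).1 hj⟩⟩

theorem eval_if (x : ℕ → ℝ) (P : Prop) [Decidable P] :
    (if P then Tm.one else Tm.zero).eval x = if P then 1 else 0 := by
  by_cases h : P <;> simp [h, Tm.eval]

theorem eqB_iff {p r : ℕ × ℕ} :
    eqB p r = true ↔ (r.1 = p.1 ∧ r.2 = p.2) ∨ (r.1 = p.2 ∧ r.2 = p.1) := by
  simp [eqB]

theorem holds_FF {q : GCode × ℕ} (hg : q.1.WF) (hq : ¬ q.1.1.length < q.2)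
    (X : ℕ → ℕ → ℕ → ℕ → ℕ → ℝ) : (FF q).Holds (vl X) ↔
      (∀ u v : q.1.V, X 0 u v 0 0 = X 0 v u 0 0) ∧
      (∀ u v : q.1.V, u ≠ v → (q.1.graph.Adj u v → X 0 u v 0 0 < 0) ∧
        (¬ q.1.graph.Adj u v → X 0 u v 0 0 = 0)) ∧
      (∀ u v : q.1.V, X 0 u v 0 0 + X 1 u 0 0 0 * X 1 v 0 0 0 =
        ∑ w : q.1.V, X 2 w u 0 0 * X 2 w v 0 0) ∧
      (∑ u : q.1.V, X 3 u 0 0 0 * ∑ v : q.1.V, X 0 u v 0 0 * X 3 v 0 0 0 < 0) ∧
      (∀ (u : q.1.V) (j : Fin q.2), ∑ v : q.1.V, X 0 u v 0 0 * X 4 v j 0 0 = 0) ∧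
      (∀ i j : Fin q.2, ∑ u : q.1.V, X 5 i u 0 0 * X 4 u j 0 0 = if i = j then 1 else 0) ∧
      (∀ p r u v : q.1.V, p ≠ r → ¬ q.1.graph.Adj p r → u ≠ v → ¬ q.1.graph.Adj u v →
        ∑ a : q.1.V, (X 6 p r a v * X 0 a u 0 0 + X 6 p r a u * X 0 a v 0 0) =
          if (u = p ∧ v = r) ∨ (u = r ∧ v = p) then 1 else 0) := by
  unfold FF
  rw [holds_conj]
  simp only [List.forall_mem_append, List.forall_mem_cons]
  refine and_congr ?_ (and_congr ?_ (and_congr ?_ (and_congr ?_ (and_congr ?_ (and_congr ?_ ?_)))))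
  · unfold F1
    rw [all_fm2, forall_vs]
    refine forall_congr' fun u => ?_
    rw [forall_vs]
    refine forall_congr' fun v => ?_
    simp [Fm.Holds]
  · unfold F2
    rw [all_fm2, forall_vs]
    refine forall_congr' fun u => ?_
    rw [forall_vs]
    refine forall_congr' fun v => ?_
    by_cases huv : u = v
    · subst huv
      simp [holds_tt]
    · rw [if_neg (fun h => huv (Subtype.ext h))]
      by_cases hadj : q.1.graph.Adj u v
      · rw [if_pos ((adjB_iff hg u v).2 hadj)]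
        simp [Fm.Holds, huv, hadj, Tm.eval]
      · rw [if_neg (fun h => hadj ((adjB_iff hg u v).1 h))]
        simp [Fm.Holds, huv, hadj, Tm.eval]
  · unfold F3
    rw [all_fm2, forall_vs]
    refine forall_congr' fun u => ?_
    rw [forall_vs]
    refine forall_congr' fun v => ?_
    simp only [Fm.Holds, Tm.eval, eval_sumT, List.map_map, eval_vr]
    rw [← sum_vs q.1 (fun w => X 2 w u 0 0 * X 2 w v 0 0)]
    congr! 3
    ext w
    simp [Tm.eval]
  · unfold F4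
    simp only [Fm.Holds, Tm.eval, eval_sumT, List.map_map]
    rw [← sum_vs q.1 (fun u => X 3 u 0 0 0 * ∑ v : q.1.V, X 0 u v 0 0 * X 3 v 0 0 0)]
    congr! 3
    ext u
    simp only [Function.comp_apply, Tm.eval, eval_sumT, List.map_map, eval_vr]
    rw [← sum_vs q.1 (fun v => X 0 u v 0 0 * X 3 v 0 0 0)]
    congr! 2
    ext v
    simp [Tm.eval]
  · unfold F5
    rw [all_fm2, forall_vs]
    refine forall_congr' fun u => ?_
    rw [forall_js hq]
    refine forall_congr' fun j => ?_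
    simp only [Fm.Holds, Tm.eval, eval_sumT, List.map_map]
    rw [← sum_vs q.1 (fun v => X 0 u v 0 0 * X 4 v j 0 0)]
    congr! 3
    ext v
    simp [Tm.eval]
  · unfold F6
    rw [all_fm2, forall_js hq]
    refine forall_congr' fun i => ?_
    rw [forall_js hq]
    refine forall_congr' fun j => ?_
    simp only [Fm.Holds, eval_sumT, List.map_map, eval_if, Fin.val_inj]
    rw [← sum_vs q.1 (fun u => X 5 i u 0 0 * X 4 u j 0 0)]
    congr! 3
    ext v
    simp [Tm.eval]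
  · unfold F7
    rw [all_fm2]
    have h1 := forall_ps hg (P := fun p r => ∀ x ∈ ps q.1, (E7 q.1 (p, r) x).Holds (vl X))
    refine h1.trans ?_
    constructor
    · intro h p r u v h2 h3 h4 h5
      have h6 := (forall_ps hg (P := fun u v => (E7 q.1 (p.1, r.1) (u, v)).Holds (vl X))).1
        (h p r h2 h3) u v h4 h5
      unfold E7 at h6
      simp only [Fm.Holds, eval_sumT, List.map_map, eval_if, eqB_iff] at h6
      rw [← sum_vs q.1 (fun a => X 6 p r a v * X 0 a u 0 0 + X 6 p r a u * X 0 a v 0 0)]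
      simp only [Subtype.ext_iff]
      rw [← h6]
      congr! 2
      ext a
      simp [Tm.eval]
    · intro h p r h2 h3
      refine (forall_ps hg (P := fun u v => (E7 q.1 (p.1, r.1) (u, v)).Holds (vl X))).2
        fun u v h4 h5 => ?_
      have h6 := h p r u v h2 h3 h4 h5
      rw [← sum_vs q.1 (fun a => X 6 p r a v * X 0 a u 0 0 + X 6 p r a u * X 0 a v 0 0)] at h6
      unfold E7
      simp only [Fm.Holds, eval_sumT, List.map_map, eval_if, eqB_iff]
      simp only [Subtype.ext_iff] at h6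
      rw [← h6]
      congr! 2
      ext a
      simp [Tm.eval]

theorem Fx_iff (q : GCode × ℕ) : CdVP q ↔ ETR (Fx q) := by
  unfold CdVP Fx
  by_cases hg : q.1.WF
  swap
  · rw [if_neg hg]
    exact ⟨fun h => absurd h.1 hg, fun h => absurd h not_etr_ff⟩
  rw [if_pos hg]
  by_cases hk : q.2 = 0
  · rw [if_pos hk]
    exact ⟨fun _ => ⟨fun _ => 0, holds_tt _⟩, fun _ => ⟨hg, by rw [hk]; exact Nat.zero_le _⟩⟩
  rw [if_neg hk]
  have hk' : 0 < q.2 := Nat.pos_of_ne_zero hk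
  by_cases hl : q.1.1.length < q.2
  · rw [if_pos hl]
    refine ⟨fun h => ?_, fun h => absurd h not_etr_ff⟩
    obtain ⟨M, -, h2⟩ := (le_mu_iff _ hk').1 h.2
    have h3 : Fintype.card q.1.V ≤ q.1.1.length := by
      rw [Fintype.card_of_subtype (p := fun w => w ∈ q.1.1) q.1.1.toFinset (fun x => by simp)]
      exact List.toFinset_card_le _
    omega
  rw [if_neg hl, and_iff_right hg, cert_iff _ hk']
  constructor
  · rintro ⟨M, b, C, y, N, L, s, h⟩
    obtain ⟨v0, hv0⟩ : ∃ v, v ∈ q.1.1 := List.exists_mem_of_length_pos (by omega)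
    set r : ℕ → q.1.V := fun n => if hn : n ∈ q.1.1 then ⟨n, hn⟩ else ⟨v0, hv0⟩ with hr
    have hr' : ∀ v : q.1.V, r v.1 = v := fun v => by rw [hr]; exact dif_pos v.2
    set f : ℕ → Fin q.2 := fun n => if hn : n < q.2 then ⟨n, hn⟩ else ⟨0, hk'⟩ with hf
    have hf' : ∀ j : Fin q.2, f j.1 = j := fun j => by rw [hf]; exact dif_pos j.2
    refine ⟨vl fun t a b' c d => match t with
      | 0 => M (r a) (r b')
      | 1 => b (r a)
      | 2 => C (r a) (r b')
      | 3 => y (r a)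
      | 4 => N (r a) (f b')
      | 5 => L (f a) (r b')
      | _ => s (r a) (r b') (r c) (r d), (holds_FF hg hl _).2 ?_⟩
    simp only [hr', hf']
    exact h
  · rintro ⟨x, hx⟩
    obtain ⟨X, rfl⟩ := exists_vl x
    have h := (holds_FF hg hl X).1 hx
    exact ⟨fun u v => X 0 u v 0 0, fun u => X 1 u 0 0 0, fun w u => X 2 w u 0 0,
      fun u => X 3 u 0 0 0, fun v j => X 4 v j 0 0, fun i u => X 5 i u 0 0,
      fun p r a v => X 6 p r a v, h⟩

/-- Deciding lower bounds for the Colin de Verdière number is in the class `∃ℝ`. -/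
theorem mem : InER (lang CdVP) := InER.of_poly poly_Fx Fx_iff

end Pool.Agent.NPC.ER.CdV
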