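import Pool.Agent.CdV.Lst

/-!
# Affine networks
-/

namespace Pool.Agent.NPC.ER.CdV

open Matrix Finset

/-- Coordinates: nodes and tags of classes. -/
inductive Co : Type
  | nd (n : ℕ) : Co
  | tg (c : ℕ × ℕ) : Co
  deriving DecidableEq

/-- Vectors. -/
inductive Vx : Type
  | V (c : ℕ × ℕ) : Vx
  | W (c : ℕ × ℕ) : Vx
  | Y (l : ℕ × ℕ) : Vx
  | P (c d : ℕ × ℕ) : Vx
  | R (c d : ℕ × ℕ) : Vx
  | Z : Vx
  | S (i : Co) : Vx
  deriving DecidableEq

/-- A network: nodes, classes (a class is a pair whose first entry is its node), lines (pairs of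
nodes), points (pairs of classes) and orders (pairs of classes). -/
structure Net where
  nodes : List ℕ
  classes : List (ℕ × ℕ)
  lines : List (ℕ × ℕ)
  points : List ((ℕ × ℕ) × (ℕ × ℕ))
  orders : List ((ℕ × ℕ) × (ℕ × ℕ))

/-- The coordinates of a network. -/
def Net.Is (N : Net) : List Co := N.nodes.map Co.nd ++ N.classes.map Co.tg

/-- The vectors of a network. -/
def Net.Ws (N : Net) : List Vx :=
  N.classes.map Vx.V ++ N.classes.map Vx.W ++ N.lines.map Vx.Y ++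
    N.points.map (fun π => Vx.P π.1 π.2) ++ N.orders.map (fun π => Vx.R π.1 π.2) ++ [Vx.Z] ++
    N.Is.map Vx.S

/-- Supports. -/
def sup : Vx → Co → Bool
  | Vx.V _, Co.nd _ => false
  | Vx.V c, Co.tg d => decide (c = d)
  | Vx.W c, Co.nd n => decide (c.1 = n)
  | Vx.W c, Co.tg d => decide (c = d)
  | Vx.Y l, Co.nd n => decide (l.1 = n) || decide (l.2 = n)
  | Vx.Y _, Co.tg _ => false
  | Vx.P c d, Co.nd n => decide (c.1 = n) || decide (d.1 = n)
  | Vx.P c d, Co.tg e => decide (c = e) || decide (d = e)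
  | Vx.R c _, Co.nd n => decide (c.1 = n)
  | Vx.R c d, Co.tg e => decide (c = e) || decide (d = e)
  | Vx.Z, _ => false
  | Vx.S i, j => decide (i = j)

/-- Orthogonality relation, with the dual vector first. -/
def hx : Vx → Vx → Bool
  | Vx.V c, Vx.P d e => decide (c = d) || decide (c = e)
  | Vx.V c, Vx.R d e => decide (c = d) || decide (c = e)
  | Vx.W c, Vx.P d e => decide (c = d) || decide (c = e)
  | Vx.W c, Vx.R d _ => decide (c = d)
  | Vx.Y l, Vx.P d e => decide (l = (d.1, e.1))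
  | _, _ => false

/-- Orthogonality relation. -/
def hh (u v : Vx) : Bool := hx u v || hx v u

theorem hh_comm (u v : Vx) : hh u v = hh v u := Bool.or_comm _ _

namespace Net

variable {N : Net}

@[simp] theorem mem_Is_nd {n : ℕ} : Co.nd n ∈ N.Is ↔ n ∈ N.nodes := by simp [Is]
@[simp] theorem mem_Is_tg {c : ℕ × ℕ} : Co.tg c ∈ N.Is ↔ c ∈ N.classes := by simp [Is]
@[simp] theorem mem_Ws_V {c : ℕ × ℕ} : Vx.V c ∈ N.Ws ↔ c ∈ N.classes := by simp [Ws]
@[simp] theorem mem_Ws_W {c : ℕ × ℕ} : Vx.W c ∈ N.Ws ↔ c ∈ N.classes := by simp [Ws]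
@[simp] theorem mem_Ws_Y {c : ℕ × ℕ} : Vx.Y c ∈ N.Ws ↔ c ∈ N.lines := by simp [Ws]
@[simp] theorem mem_Ws_P {c d : ℕ × ℕ} : Vx.P c d ∈ N.Ws ↔ (c, d) ∈ N.points := by simp [Ws]
@[simp] theorem mem_Ws_R {c d : ℕ × ℕ} : Vx.R c d ∈ N.Ws ↔ (c, d) ∈ N.orders := by simp [Ws]
@[simp] theorem mem_Ws_Z : Vx.Z ∈ N.Ws := by simp [Ws]
@[simp] theorem mem_Ws_S {i : Co} : Vx.S i ∈ N.Ws ↔ i ∈ N.Is := by simp [Ws]

/-- Well-formed networks. -/
structure Ok (N : Net) : Prop where
  cls : ∀ c ∈ N.classes, c.1 ∈ N.nodes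
  lin : ∀ l ∈ N.lines, l.1 < l.2 ∧ l.1 ∈ N.nodes ∧ l.2 ∈ N.nodes
  pts : ∀ c d, (c, d) ∈ N.points → c ∈ N.classes ∧ d ∈ N.classes ∧ (c.1, d.1) ∈ N.lines
  ptl : ∀ c d d', (c, d) ∈ N.points → (c, d') ∈ N.points → d.1 = d'.1 → d = d'
  ptr : ∀ c c' d, (c, d) ∈ N.points → (c', d) ∈ N.points → c.1 = c'.1 → c = c'
  ord : ∀ c d, (c, d) ∈ N.orders → c ∈ N.classes ∧ d ∈ N.classes ∧ c.1 = d.1 ∧ c ≠ d
  orr : ∀ c d, (c, d) ∈ N.orders → (d, c) ∉ N.orders

/-- The values of the classes described by a network. -/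
def Sol (N : Net) (a : ℕ × ℕ → ℝ) : Prop :=
  (∀ l ∈ N.lines, ∃ y z : ℝ, 0 < y ∧ 0 < z ∧ ∀ c d, (c, d) ∈ N.points → (c.1, d.1) = l →
    y * a c + z * a d = 1) ∧
  ∀ c d, (c, d) ∈ N.orders → a c < a d

/-- The graph of a network. -/
abbrev G (N : Net) : SimpleGraph (Option {i // i ∈ N.Is} ⊕ {w // w ∈ N.Ws}) := LG N.Is N.Ws sup hh

theorem sol_of_mu (hN : N.Ok) (hne : N.classes ≠ [])
    (h : ∃ M : Matrix (Option {i // i ∈ N.Is} ⊕ {w // w ∈ N.Ws})
        (Option {i // i ∈ N.Is} ⊕ {w // w ∈ N.Ws}) ℝ,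
      InM N.G M ∧ Fintype.card {w // w ∈ N.Ws} + M.rank ≤
        Fintype.card (Option {i // i ∈ N.Is} ⊕ {w // w ∈ N.Ws})) : ∃ a, N.Sol a := by
  obtain ⟨x, h1, h2, h3⟩ := sound_list (z := Vx.Z) (s := Vx.S) hh_comm mem_Ws_Z
    (fun i => by cases i <;> rfl) (fun w => by cases w <;> rfl)
    (by
      obtain ⟨c, hc⟩ := List.exists_mem_of_ne_nil _ hne
      exact ⟨Vx.V c, by simpa using hc, by simp⟩)
    (fun i hi => by simpa using hi) (fun i j => by simp [sup, eq_comm]) h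
  -- one or two common coordinates
  have one : ∀ u ∈ N.Ws, ∀ v ∈ N.Ws, ∀ i ∈ N.Is, (∀ j ∈ N.Is, j ≠ i → sup u j = false) →
      ∑ j ∈ N.Is.toFinset, x u j * x v j = x u i * x v i := by
    intro u hu v hv i hi hj
    refine Finset.sum_eq_single i (fun j hj' hne => ?_) (fun h => absurd (List.mem_toFinset.2 hi) h)
    rw [h2 u hu j (List.mem_toFinset.1 hj') (hj j (List.mem_toFinset.1 hj') hne), zero_mul]
  have two : ∀ u ∈ N.Ws, ∀ v ∈ N.Ws, ∀ i ∈ N.Is, ∀ i' ∈ N.Is, i ≠ i' →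
      (∀ j ∈ N.Is, j ≠ i → j ≠ i' → sup u j = false) →
      ∑ j ∈ N.Is.toFinset, x u j * x v j = x u i * x v i + x u i' * x v i' := by
    intro u hu v hv i hi i' hi' hne hj
    refine Finset.sum_eq_add i i' hne (fun j hj' hne => ?_)
      (fun h => absurd (List.mem_toFinset.2 hi) h) (fun h => absurd (List.mem_toFinset.2 hi') h)
    rw [h2 u hu j (List.mem_toFinset.1 hj') (hj j (List.mem_toFinset.1 hj') hne.1 hne.2), zero_mul]
  let a : ℕ × ℕ → ℝ := fun c => (1 - x (Vx.W c) (Co.tg c) / x (Vx.V c) (Co.tg c)) /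
    x (Vx.W c) (Co.nd c.1)
  have pV : ∀ c ∈ N.classes, 0 < x (Vx.V c) (Co.tg c) := fun c hc =>
    h1 _ (by simpa using hc) _ (by simpa using hc) (by simp [sup])
  have pW : ∀ c ∈ N.classes, 0 < x (Vx.W c) (Co.nd c.1) := fun c hc =>
    h1 _ (by simpa using hc) _ (by simpa using hN.cls c hc) (by simp [sup])
  -- tags
  have tag : ∀ c ∈ N.classes, ∀ v ∈ N.Ws, hh (Vx.V c) v = true →
      x v (Co.tg c) = 1 / x (Vx.V c) (Co.tg c) := by
    intro c hc v hv hcv
    have hne : Vx.V c ≠ v := by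
      rintro rfl
      simp [hh, hx] at hcv
    have h4 := (h3 (Vx.V c) (by simpa using hc) v hv hne).1 hcv
    rw [one (Vx.V c) (by simpa using hc) v hv (Co.tg c) (by simpa using hc)] at h4
    · rw [eq_div_iff (pV c hc).ne', mul_comm]
      exact h4
    · rintro (n | d) - hd
      · rfl
      · simp only [sup, decide_eq_false_iff_not]
        rintro rfl
        exact hd rfl
  have twoW : ∀ c ∈ N.classes, ∀ v ∈ N.Ws, ∑ j ∈ N.Is.toFinset, x (Vx.W c) j * x v j =
      x (Vx.W c) (Co.nd c.1) * x v (Co.nd c.1) + x (Vx.W c) (Co.tg c) * x v (Co.tg c) := by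
    intro c hc v hv
    refine two (Vx.W c) (by simpa using hc) v hv (Co.nd c.1) (by simpa using hN.cls c hc)
      (Co.tg c) (by simpa using hc) (by simp) ?_
    rintro (n | d) - h5 h6
    · simp only [sup, decide_eq_false_iff_not]
      rintro rfl
      exact h5 rfl
    · simp only [sup, decide_eq_false_iff_not]
      rintro rfl
      exact h6 rfl
  have val : ∀ c ∈ N.classes, ∀ v ∈ N.Ws, hh (Vx.V c) v = true → hh (Vx.W c) v = true →
      x v (Co.nd c.1) = a c := by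
    intro c hc v hv hcv hcw
    have hne : Vx.W c ≠ v := by
      rintro rfl
      simp [hh, hx] at hcw
    have h4 := (h3 (Vx.W c) (by simpa using hc) v hv hne).1 hcw
    rw [twoW c hc v hv, tag c hc v hv hcv] at h4
    simp only [a]
    rw [eq_div_iff (pW c hc).ne']
    linear_combination h4
  refine ⟨a, fun l hl => ?_, fun c d hcd => ?_⟩
  · obtain ⟨hl1, hl2, hl3⟩ := hN.lin l hl
    refine ⟨x (Vx.Y l) (Co.nd l.1), x (Vx.Y l) (Co.nd l.2),
      h1 _ (by simpa using hl) _ (by simpa using hl2) (by simp [sup]),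
      h1 _ (by simpa using hl) _ (by simpa using hl3) (by simp [sup]), fun c d hcd hcl => ?_⟩
    obtain ⟨hc, hd, -⟩ := hN.pts c d hcd
    subst hcl
    have h4 := (h3 (Vx.Y (c.1, d.1)) (by simpa using hl) (Vx.P c d) (by simpa using hcd)
      (by simp)).1 (by simp [hh, hx])
    rw [two (Vx.Y (c.1, d.1)) (by simpa using hl) (Vx.P c d) (by simpa using hcd)
      (Co.nd c.1) (by simpa using hl2) (Co.nd d.1) (by simpa using hl3)
      (by simpa using hl1.ne) ?_] at h4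
    · rw [← val c hc (Vx.P c d) (by simpa using hcd) (by simp [hh, hx]) (by simp [hh, hx]),
        ← val d hd (Vx.P c d) (by simpa using hcd) (by simp [hh, hx]) (by simp [hh, hx])]
      exact h4
    · rintro (n | d) - h5 h6
      · simp only [sup, Bool.or_eq_false_iff, decide_eq_false_iff_not]
        refine ⟨?_, ?_⟩
        · rintro rfl
          exact h5 rfl
        · rintro rfl
          exact h6 rfl
      · rfl
  · obtain ⟨hc, hd, hcd1, hcd2⟩ := hN.ord c d hcd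
    have hR : Vx.R c d ∈ N.Ws := by simpa using hcd
    have h4 := val c hc _ hR (by simp [hh, hx]) (by simp [hh, hx])
    have h5 := (h3 (Vx.W d) (by simpa using hd) (Vx.R c d) hR (by simp)).2
      (by simp [hh, hx, hcd2.symm])
    rw [twoW d hd _ hR, tag d hd _ hR (by simp [hh, hx]), ← hcd1, h4] at h5
    have h6 := pW d hd
    rw [← hcd1] at h6
    have h7 : a d = (1 - x (Vx.W d) (Co.tg d) / x (Vx.V d) (Co.tg d)) /
      x (Vx.W d) (Co.nd c.1) := by rw [hcd1]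
    rw [h7, lt_div_iff₀ h6]
    have h8 : x (Vx.W d) (Co.tg d) * (1 / x (Vx.V d) (Co.tg d)) =
      x (Vx.W d) (Co.tg d) / x (Vx.V d) (Co.tg d) := by ring
    rw [h8] at h5
    linarith

end Net

end Pool.Agent.NPC.ER.CdV
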