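import Pool.Agent.CdV.Net

/-!
# Affine networks: construction of a matrix
-/

namespace Pool.Agent.NPC.ER.CdV

open Matrix Finset

/-- A function supported on one coordinate. -/
def sg (i : Co) (A : ℝ) (j : Co) : ℝ := if i = j then A else 0

theorem sum_sg {F : Finset Co} {i : Co} (hi : i ∈ F) (A : ℝ) (f : Co → ℝ) :
    ∑ j ∈ F, sg i A j * f j = A * f i := by
  rw [Finset.sum_eq_single i]
  · simp [sg]
  · intro j _ hj
    simp [sg, hj.symm]
  · exact fun h => absurd hi h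

@[simp] theorem sg_nd_nd (n m : ℕ) (A : ℝ) : sg (Co.nd n) A (Co.nd m) = if n = m then A else 0 := by
  simp [sg]
@[simp] theorem sg_nd_tg (n : ℕ) (c : ℕ × ℕ) (A : ℝ) : sg (Co.nd n) A (Co.tg c) = 0 := by
  simp [sg]
@[simp] theorem sg_tg_nd (n : ℕ) (c : ℕ × ℕ) (A : ℝ) : sg (Co.tg c) A (Co.nd n) = 0 := by
  simp [sg]
@[simp] theorem sg_tg_tg (c d : ℕ × ℕ) (A : ℝ) :
    sg (Co.tg c) A (Co.tg d) = if c = d then A else 0 := by
  simp [sg]

/-- The vectors, for given numerical data. -/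
noncomputable def val (a : ℕ × ℕ → ℝ) (g w : ℕ → ℝ) (y z : ℕ × ℕ → ℝ) (δ : ℝ) : Vx → Co → ℝ
  | Vx.V c, i => sg (Co.tg c) (1 / g c.1) i
  | Vx.W c, i => sg (Co.nd c.1) (w c.1) i + sg (Co.tg c) ((1 - w c.1 * a c) / g c.1) i
  | Vx.Y l, i => sg (Co.nd l.1) (y l) i + sg (Co.nd l.2) (z l) i
  | Vx.P c d, i => sg (Co.nd c.1) (a c) i + sg (Co.nd d.1) (a d) i + sg (Co.tg c) (g c.1) i +
      sg (Co.tg d) (g d.1) i
  | Vx.R c d, i => sg (Co.nd c.1) (a c) i + sg (Co.tg c) (g c.1) i + sg (Co.tg d) (g d.1) i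
  | Vx.Z, _ => 0
  | Vx.S j, i => sg j δ i

namespace Net

/-- The numerical conditions. -/
structure Good (N : Net) (a : ℕ × ℕ → ℝ) (g w : ℕ → ℝ) (y z : ℕ × ℕ → ℝ) : Prop where
  gpos : ∀ n ∈ N.nodes, 0 < g n
  wpos : ∀ n ∈ N.nodes, 0 < w n ∧ w n < 1
  apos : ∀ c ∈ N.classes, 0 < a c ∧ w c.1 * a c < 1
  a1 : ∀ c ∈ N.classes, 1 - w c.1 * a c < g c.1 ^ 2
  a2 : ∀ c ∈ N.classes, ∀ d ∈ N.classes, c.1 = d.1 → a c * a d + g c.1 ^ 2 < 1
  a4 : ∀ l ∈ N.lines, 0 < y l ∧ 0 < z l ∧ w l.1 * y l < 1 ∧ w l.2 * z l < 1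
  a5 : ∀ l ∈ N.lines, ∀ c ∈ N.classes, (c.1 = l.1 → y l * a c < 1) ∧ (c.1 = l.2 → z l * a c < 1)
  a6 : ∀ l ∈ N.lines, ∀ l' ∈ N.lines, l ≠ l' → (l.1 = l'.1 → y l * y l' < 1) ∧
    (l.1 = l'.2 → y l * z l' < 1) ∧ (l.2 = l'.2 → z l * z l' < 1)
  a7 : ∀ c ∈ N.classes, ∀ d ∈ N.classes, ∀ c' ∈ N.classes, ∀ d' ∈ N.classes,
    (c.1, d.1) ∈ N.lines → c.1 = c'.1 → d.1 = d'.1 → a c * a c' + a d * a d' < 1
  a8 : ∀ c d, (c, d) ∈ N.points → y (c.1, d.1) * a c + z (c.1, d.1) * a d = 1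
  a9 : ∀ c d, (c, d) ∈ N.orders → a c < a d

variable {N : Net} {a : ℕ × ℕ → ℝ} {g w : ℕ → ℝ} {y z : ℕ × ℕ → ℝ} {δ : ℝ}

section Dot

variable (f : Co → ℝ)

theorem dotV {c : ℕ × ℕ} (hc : c ∈ N.classes) :
    ∑ j ∈ N.Is.toFinset, val a g w y z δ (Vx.V c) j * f j = 1 / g c.1 * f (Co.tg c) :=
  sum_sg (by simpa using hc) _ _

theorem dotW {c : ℕ × ℕ} (hN : N.Ok) (hc : c ∈ N.classes) :
    ∑ j ∈ N.Is.toFinset, val a g w y z δ (Vx.W c) j * f j =
      w c.1 * f (Co.nd c.1) + (1 - w c.1 * a c) / g c.1 * f (Co.tg c) := by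
  simp only [val, add_mul, sum_add_distrib]
  rw [sum_sg (by simpa using hN.cls c hc), sum_sg (by simpa using hc)]

theorem dotY {l : ℕ × ℕ} (hN : N.Ok) (hl : l ∈ N.lines) :
    ∑ j ∈ N.Is.toFinset, val a g w y z δ (Vx.Y l) j * f j =
      y l * f (Co.nd l.1) + z l * f (Co.nd l.2) := by
  obtain ⟨h1, h2, h3⟩ := hN.lin l hl
  simp only [val, add_mul, sum_add_distrib]
  rw [sum_sg (by simpa using h2), sum_sg (by simpa using h3)]

theorem dotP {c d : ℕ × ℕ} (hN : N.Ok) (h : (c, d) ∈ N.points) :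
    ∑ j ∈ N.Is.toFinset, val a g w y z δ (Vx.P c d) j * f j =
      a c * f (Co.nd c.1) + a d * f (Co.nd d.1) + g c.1 * f (Co.tg c) + g d.1 * f (Co.tg d) := by
  obtain ⟨h1, h2, h3⟩ := hN.pts c d h
  simp only [val, add_mul, sum_add_distrib]
  rw [sum_sg (by simpa using hN.cls c h1), sum_sg (by simpa using hN.cls d h2),
    sum_sg (by simpa using h1), sum_sg (by simpa using h2)]

theorem dotR {c d : ℕ × ℕ} (hN : N.Ok) (h : (c, d) ∈ N.orders) :
    ∑ j ∈ N.Is.toFinset, val a g w y z δ (Vx.R c d) j * f j =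
      a c * f (Co.nd c.1) + g c.1 * f (Co.tg c) + g d.1 * f (Co.tg d) := by
  obtain ⟨h1, h2, h3⟩ := hN.ord c d h
  simp only [val, add_mul, sum_add_distrib]
  rw [sum_sg (by simpa using hN.cls c h1), sum_sg (by simpa using h1), sum_sg (by simpa using h2)]

theorem dotZ : ∑ j ∈ N.Is.toFinset, val a g w y z δ Vx.Z j * f j = 0 := by simp [val]

theorem dotS {i : Co} (hi : i ∈ N.Is) :
    ∑ j ∈ N.Is.toFinset, val a g w y z δ (Vx.S i) j * f j = δ * f i :=
  sum_sg (by simpa using hi) _ _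

end Dot

/-- Contribution of a pair of classes. -/
noncomputable def ee (a : ℕ × ℕ → ℝ) (g : ℕ → ℝ) (c c' : ℕ × ℕ) : ℝ :=
  a c * (if c'.1 = c.1 then a c' else 0) + g c.1 * (if c' = c then g c'.1 else 0)

theorem ee_ne {c c' : ℕ × ℕ} (h : c'.1 ≠ c.1) : ee a g c c' = 0 := by
  unfold ee
  rw [if_neg h, if_neg (fun h' => h (by rw [h']))]
  ring

theorem ee_lt (hG : N.Good a g w y z) {c c' : ℕ × ℕ} (hc : c ∈ N.classes) (hc' : c' ∈ N.classes) :
    ee a g c c' < 1 := by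
  by_cases h : c'.1 = c.1
  · have h2 := hG.a2 c hc c' hc' h.symm
    unfold ee
    rw [if_pos h]
    split_ifs with h'
    · subst h'
      nlinarith
    · nlinarith [sq_nonneg (g c.1)]
  · rw [ee_ne h]
    norm_num

section Pairs

variable (hN : N.Ok) (hG : N.Good a g w y z)

include hN hG

theorem lt_VV {c d : ℕ × ℕ} (hc : c ∈ N.classes) (hcd : c ≠ d) :
    ∑ j ∈ N.Is.toFinset, val a g w y z δ (Vx.V c) j * val a g w y z δ (Vx.V d) j < 1 := by
  rw [dotV _ hc]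
  simp [val, hcd.symm]

theorem lt_VW {c d : ℕ × ℕ} (hc : c ∈ N.classes) :
    ∑ j ∈ N.Is.toFinset, val a g w y z δ (Vx.V c) j * val a g w y z δ (Vx.W d) j < 1 := by
  rw [dotV _ hc]
  simp only [val, sg_nd_tg, sg_tg_tg, zero_add]
  split_ifs with h
  · subst h
    have h1 := hG.gpos _ (hN.cls _ hc)
    have h2 := hG.a1 _ hc
    rw [div_mul_div_comm, one_mul, div_lt_one (by positivity)]
    nlinarith
  · simp

theorem lt_VY {c l : ℕ × ℕ} (hc : c ∈ N.classes) :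
    ∑ j ∈ N.Is.toFinset, val a g w y z δ (Vx.V c) j * val a g w y z δ (Vx.Y l) j < 1 := by
  rw [dotV _ hc]
  simp [val]

theorem lt_VP {c d e : ℕ × ℕ} (hc : c ∈ N.classes) (h1 : c ≠ d) (h2 : c ≠ e) :
    ∑ j ∈ N.Is.toFinset, val a g w y z δ (Vx.V c) j * val a g w y z δ (Vx.P d e) j < 1 := by
  rw [dotV _ hc]
  simp [val, h1.symm, h2.symm]

theorem lt_VR {c d e : ℕ × ℕ} (hc : c ∈ N.classes) (h1 : c ≠ d) (h2 : c ≠ e) :
    ∑ j ∈ N.Is.toFinset, val a g w y z δ (Vx.V c) j * val a g w y z δ (Vx.R d e) j < 1 := by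
  rw [dotV _ hc]
  simp [val, h1.symm, h2.symm]

theorem lt_WW {c d : ℕ × ℕ} (hc : c ∈ N.classes) (hcd : c ≠ d) :
    ∑ j ∈ N.Is.toFinset, val a g w y z δ (Vx.W c) j * val a g w y z δ (Vx.W d) j < 1 := by
  rw [dotW _ hN hc]
  simp only [val, sg_nd_tg, sg_tg_tg, zero_add, sg_nd_nd, sg_tg_nd, add_zero, if_neg hcd.symm,
    mul_zero]
  split_ifs with h
  · have h1 := hG.wpos _ (hN.cls _ hc)
    rw [h]
    nlinarith [h1.1, h1.2]
  · simp

theorem lt_WY {c l : ℕ × ℕ} (hc : c ∈ N.classes) (hl : l ∈ N.lines) :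
    ∑ j ∈ N.Is.toFinset, val a g w y z δ (Vx.W c) j * val a g w y z δ (Vx.Y l) j < 1 := by
  rw [dotW _ hN hc]
  simp only [val, sg_nd_tg, add_zero, sg_nd_nd, mul_zero]
  have h1 := (hN.lin l hl).1
  obtain ⟨-, -, h2, h3⟩ := hG.a4 l hl
  split_ifs with h h' h'
  · omega
  · rw [add_zero, ← h]
    exact h2
  · rw [zero_add, ← h']
    exact h3
  · simp

theorem lt_WP {c d e : ℕ × ℕ} (hc : c ∈ N.classes) (hde : (d, e) ∈ N.points) (h1 : c ≠ d)
    (h2 : c ≠ e) :
    ∑ j ∈ N.Is.toFinset, val a g w y z δ (Vx.W c) j * val a g w y z δ (Vx.P d e) j < 1 := by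
  rw [dotW _ hN hc]
  obtain ⟨hd, he, hl⟩ := hN.pts d e hde
  have hlt := (hN.lin _ hl).1
  simp only [val, sg_nd_tg, sg_tg_tg, zero_add, sg_nd_nd, sg_tg_nd, add_zero, if_neg h1.symm,
    if_neg h2.symm, mul_zero]
  split_ifs with h h' h'
  · simp only at hlt
    omega
  · rw [add_zero, ← h]
    exact (hG.apos d hd).2
  · rw [zero_add, ← h']
    exact (hG.apos e he).2
  · simp

theorem lt_WR {c d e : ℕ × ℕ} (hc : c ∈ N.classes) (hde : (d, e) ∈ N.orders) (h1 : c ≠ d) :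
    ∑ j ∈ N.Is.toFinset, val a g w y z δ (Vx.W c) j * val a g w y z δ (Vx.R d e) j < 1 := by
  rw [dotW _ hN hc]
  obtain ⟨hd, he, hl, hne⟩ := hN.ord d e hde
  simp only [val, sg_nd_tg, sg_tg_tg, zero_add, sg_nd_nd, sg_tg_nd, add_zero, if_neg h1.symm]
  have h3 := hG.wpos _ (hN.cls _ hc)
  have h4 := hG.gpos _ (hN.cls _ hc)
  have h5 := (hG.apos d hd).2
  have h6 := hG.a9 d e hde
  split_ifs with h h' h'
  · subst h'
    rw [div_mul_cancel₀ _ h4.ne']
    nlinarith [h3.1]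
  · rw [mul_zero, add_zero, ← h]
    exact h5
  · subst h'
    exact absurd hl h
  · simp

theorem lt_YY {l l' : ℕ × ℕ} (hl : l ∈ N.lines) (hl' : l' ∈ N.lines) (hne : l ≠ l') :
    ∑ j ∈ N.Is.toFinset, val a g w y z δ (Vx.Y l) j * val a g w y z δ (Vx.Y l') j < 1 := by
  rw [dotY _ hN hl]
  simp only [val, sg_nd_nd]
  have h1 := (hN.lin l hl).1
  have h2 := (hN.lin l' hl').1
  obtain ⟨h3, h4, h5⟩ := hG.a6 l hl l' hl' hne
  obtain ⟨-, h6, -⟩ := hG.a6 l' hl' l hl hne.symm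
  by_cases e1 : l'.1 = l.1
  · have e2 : l'.2 ≠ l.1 := by omega
    have e3 : l'.1 ≠ l.2 := by omega
    have e4 : l'.2 ≠ l.2 := fun h => hne (Prod.ext e1.symm h.symm)
    rw [if_pos e1, if_neg e2, if_neg e3, if_neg e4]
    have := h3 e1.symm
    linarith
  · by_cases e2 : l'.2 = l.1
    · have e3 : l'.1 ≠ l.2 := by omega
      have e4 : l'.2 ≠ l.2 := by omega
      rw [if_neg e1, if_pos e2, if_neg e3, if_neg e4]
      have := h4 e2.symm
      linarith
    · by_cases e3 : l'.1 = l.2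
      · have e4 : l'.2 ≠ l.2 := by omega
        rw [if_neg e1, if_neg e2, if_pos e3, if_neg e4]
        have := h6 e3
        linarith
      · rw [if_neg e1, if_neg e2, if_neg e3]
        split_ifs with e4
        · have := h5 e4.symm
          linarith
        · norm_num

theorem lt_YP {l c d : ℕ × ℕ} (hl : l ∈ N.lines) (hcd : (c, d) ∈ N.points) (hne : l ≠ (c.1, d.1)) :
    ∑ j ∈ N.Is.toFinset, val a g w y z δ (Vx.Y l) j * val a g w y z δ (Vx.P c d) j < 1 := by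
  rw [dotY _ hN hl]
  obtain ⟨hc, hd, hl'⟩ := hN.pts c d hcd
  have h1 := (hN.lin l hl).1
  have h2 := (hN.lin _ hl').1
  simp only at h2
  simp only [val, sg_nd_nd, sg_tg_nd, add_zero]
  obtain ⟨h3, h4⟩ := hG.a5 l hl c hc
  obtain ⟨h5, h6⟩ := hG.a5 l hl d hd
  by_cases e1 : c.1 = l.1
  · have e2 : d.1 ≠ l.1 := by omega
    have e3 : c.1 ≠ l.2 := by omega
    have e4 : d.1 ≠ l.2 := fun h => hne (Prod.ext e1.symm h.symm)
    rw [if_pos e1, if_neg e2, if_neg e3, if_neg e4]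
    have := h3 e1
    linarith
  · by_cases e2 : d.1 = l.1
    · have e3 : c.1 ≠ l.2 := by omega
      have e4 : d.1 ≠ l.2 := by omega
      rw [if_neg e1, if_pos e2, if_neg e3, if_neg e4]
      have := h5 e2
      linarith
    · by_cases e3 : c.1 = l.2
      · have e4 : d.1 ≠ l.2 := by omega
        rw [if_neg e1, if_neg e2, if_pos e3, if_neg e4]
        have := h4 e3
        linarith
      · rw [if_neg e1, if_neg e2, if_neg e3]
        split_ifs with e4
        · have := h6 e4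
          linarith
        · norm_num

theorem lt_YR {l c d : ℕ × ℕ} (hl : l ∈ N.lines) (hcd : (c, d) ∈ N.orders) :
    ∑ j ∈ N.Is.toFinset, val a g w y z δ (Vx.Y l) j * val a g w y z δ (Vx.R c d) j < 1 := by
  rw [dotY _ hN hl]
  obtain ⟨hc, hd, -⟩ := hN.ord c d hcd
  have h1 := (hN.lin l hl).1
  simp only [val, sg_nd_nd, sg_tg_nd, add_zero]
  obtain ⟨h3, h4⟩ := hG.a5 l hl c hc
  split_ifs with e1 e2 e2
  · omega
  · have := h3 e1
    linarith
  · have := h4 e2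
    linarith
  · norm_num

theorem lt_PP {c d c' d' : ℕ × ℕ} (h : (c, d) ∈ N.points) (h' : (c', d') ∈ N.points)
    (hne : (c, d) ≠ (c', d')) :
    ∑ j ∈ N.Is.toFinset, val a g w y z δ (Vx.P c d) j * val a g w y z δ (Vx.P c' d') j < 1 := by
  rw [dotP _ hN h]
  obtain ⟨hc, hd, hl⟩ := hN.pts c d h
  obtain ⟨hc', hd', hl'⟩ := hN.pts c' d' h'
  have h1 := (hN.lin _ hl).1
  have h2 := (hN.lin _ hl').1
  simp only at h1 h2
  have key : a c * val a g w y z δ (Vx.P c' d') (Co.nd c.1) +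
      a d * val a g w y z δ (Vx.P c' d') (Co.nd d.1) + g c.1 * val a g w y z δ (Vx.P c' d') (Co.tg c)
      + g d.1 * val a g w y z δ (Vx.P c' d') (Co.tg d) =
      ee a g c c' + ee a g c d' + ee a g d c' + ee a g d d' := by
    simp only [val, ee, sg_nd_nd, sg_nd_tg, sg_tg_nd, sg_tg_tg]
    ring
  rw [key]
  by_cases e1 : c'.1 = c.1
  · rw [ee_ne (c := c) (c' := d') (by omega), ee_ne (c := d) (c' := c') (by omega)]
    by_cases e2 : d'.1 = d.1
    · have e3 : c' ≠ c := by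
        rintro rfl
        exact hne (by rw [hN.ptl _ _ _ h h' e2.symm])
      have e4 : d' ≠ d := by
        rintro rfl
        exact hne (by rw [hN.ptr _ _ _ h h' e1.symm])
      unfold ee
      rw [if_pos e1, if_neg e3, if_pos e2, if_neg e4]
      have := hG.a7 c hc d hd c' hc' d' hd' hl e1.symm e2.symm
      linarith
    · rw [ee_ne (c := d) (c' := d') e2]
      have := ee_lt hG hc hc'
      linarith
  · rw [ee_ne (c := c) (c' := c') e1]
    by_cases e2 : d'.1 = c.1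
    · rw [ee_ne (c := d) (c' := c') (by omega), ee_ne (c := d) (c' := d') (by omega)]
      have := ee_lt hG hc hd'
      linarith
    · rw [ee_ne (c := c) (c' := d') e2]
      by_cases e3 : c'.1 = d.1
      · rw [ee_ne (c := d) (c' := d') (by omega)]
        have := ee_lt hG hd hc'
        linarith
      · rw [ee_ne (c := d) (c' := c') e3]
        have := ee_lt hG hd hd'
        linarith

theorem lt_PR {c d e f : ℕ × ℕ} (h : (c, d) ∈ N.points) (h' : (e, f) ∈ N.orders) :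
    ∑ j ∈ N.Is.toFinset, val a g w y z δ (Vx.P c d) j * val a g w y z δ (Vx.R e f) j < 1 := by
  rw [dotP _ hN h]
  obtain ⟨hc, hd, hl⟩ := hN.pts c d h
  obtain ⟨he, hf, hef, hef'⟩ := hN.ord e f h'
  have h1 := (hN.lin _ hl).1
  simp only at h1
  simp only [val, sg_nd_nd, sg_nd_tg, sg_tg_nd, sg_tg_tg, add_zero, zero_add]
  have q1 := hG.a2 c hc e he
  have q2 := hG.a2 d hd e he
  have p1 := sq_nonneg (g c.1)
  have p2 := sq_nonneg (g d.1)
  by_cases e1 : e.1 = c.1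
  · have e2 : e.1 ≠ d.1 := by omega
    have e3 : e ≠ d := fun h => e2 (by rw [h])
    have e4 : f ≠ d := fun h => e2 (by rw [hef, h])
    rw [if_pos e1, if_neg e2, if_neg e3, if_neg e4]
    have := q1 e1.symm
    split_ifs with e5 e6 e6
    · exact absurd (e5.trans e6.symm) hef'
    · rw [e1]
      nlinarith
    · rw [← hef, e1]
      nlinarith
    · nlinarith
  · have e3 : e ≠ c := fun h => e1 (by rw [h])
    have e4 : f ≠ c := fun h => e1 (by rw [hef, h])
    rw [if_neg e1, if_neg e3, if_neg e4]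
    by_cases e2 : e.1 = d.1
    · rw [if_pos e2]
      have := q2 e2.symm
      split_ifs with e5 e6 e6
      · exact absurd (e5.trans e6.symm) hef'
      · rw [e2]
        nlinarith
      · rw [← hef, e2]
        nlinarith
      · nlinarith
    · have e5 : e ≠ d := fun h => e2 (by rw [h])
      have e6 : f ≠ d := fun h => e2 (by rw [hef, h])
      rw [if_neg e2, if_neg e5, if_neg e6]
      norm_num

theorem lt_RR {c d e f : ℕ × ℕ} (h : (c, d) ∈ N.orders) (h' : (e, f) ∈ N.orders)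
    (hne : (c, d) ≠ (e, f)) :
    ∑ j ∈ N.Is.toFinset, val a g w y z δ (Vx.R c d) j * val a g w y z δ (Vx.R e f) j < 1 := by
  rw [dotR _ hN h]
  obtain ⟨hc, hd, hcd, hcd'⟩ := hN.ord c d h
  obtain ⟨he, hf, hef, hef'⟩ := hN.ord e f h'
  simp only [val, sg_nd_nd, sg_nd_tg, sg_tg_nd, sg_tg_tg, add_zero, zero_add]
  have q1 := hG.a2 c hc e he
  have p1 := sq_nonneg (g c.1)
  by_cases e1 : e.1 = c.1
  · have q2 := q1 e1.symm
    have r1 : f.1 = c.1 := by rw [← hef, e1]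
    rw [if_pos e1]
    by_cases e2 : e = c
    · have e3 : f ≠ c := fun h => hef' (e2.trans h.symm)
      have e4 : e ≠ d := fun h => hcd' (e2.symm.trans h)
      have e5 : f ≠ d := fun h => hne (by rw [e2, h])
      rw [if_pos e2, if_neg e3, if_neg e4, if_neg e5, e1]
      nlinarith
    · rw [if_neg e2]
      by_cases e3 : f = c
      · have e4 : e ≠ d := by
          rintro rfl
          rw [e3] at h'
          exact hN.orr _ _ h h'
        have e5 : f ≠ d := fun h => hcd' (e3.symm.trans h)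
        rw [if_pos e3, if_neg e4, if_neg e5, r1]
        nlinarith
      · rw [if_neg e3]
        by_cases e4 : e = d
        · have e5 : f ≠ d := fun h => hef' (e4.trans h.symm)
          rw [if_pos e4, if_neg e5, e1, ← hcd]
          nlinarith
        · rw [if_neg e4]
          split_ifs with e5
          · rw [r1, ← hcd]
            nlinarith
          · nlinarith
  · have e2 : e ≠ c := fun h => e1 (by rw [h])
    have e3 : f ≠ c := fun h => e1 (by rw [hef, h])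
    have e4 : e ≠ d := fun h => e1 (by rw [h, hcd])
    have e5 : f ≠ d := fun h => e1 (by rw [hef, h, hcd])
    rw [if_neg e1, if_neg e2, if_neg e3, if_neg e4, if_neg e5]
    norm_num

end Pairs

end Net

end Pool.Agent.NPC.ER.CdV
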