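import Pool.Agent.CdV.Net2

/-!
# Affine networks: construction of a matrix (end)
-/

namespace Pool.Agent.NPC.ER.CdV

open Matrix Finset

namespace Net

variable {N : Net} {a : ℕ × ℕ → ℝ} {g w : ℕ → ℝ} {y z : ℕ × ℕ → ℝ} {δ : ℝ}

/-- The value of the vector does not depend on `δ` unless it is one of the small vectors. -/
theorem val_indep {u : Vx} (hu : ∀ i, u ≠ Vx.S i) (δ δ' : ℝ) (j : Co) :
    val a g w y z δ u j = val a g w y z δ' u j := by
  cases u with
  | S i => exact absurd rfl (hu i)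
  | _ => rfl

section Main

variable (hN : N.Ok) (hG : N.Good a g w y z)

include hN hG

theorem val_pos (hδ : 0 < δ) {u : Vx} (hu : u ∈ N.Ws) {i : Co} (h : sup u i = true) :
    0 < val a g w y z δ u i := by
  rcases u with c | c | l | ⟨c, d⟩ | ⟨c, d⟩ | _ | j
  · rw [mem_Ws_V] at hu
    have := hG.gpos _ (hN.cls _ hu)
    rcases i with n | e
    · simp [sup] at h
    · simp only [sup, decide_eq_true_eq] at h
      simp only [val, sg_tg_tg, if_pos h]
      positivity
  · rw [mem_Ws_W] at hu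
    have h1 := hG.gpos _ (hN.cls _ hu)
    have h2 := hG.wpos _ (hN.cls _ hu)
    have h3 := hG.apos _ hu
    rcases i with n | e
    · simp only [sup, decide_eq_true_eq] at h
      simp only [val, sg_nd_nd, sg_tg_nd, if_pos h, add_zero]
      exact h2.1
    · simp only [sup, decide_eq_true_eq] at h
      simp only [val, sg_nd_tg, sg_tg_tg, if_pos h, zero_add]
      exact div_pos (by linarith) h1
  · rw [mem_Ws_Y] at hu
    obtain ⟨h1, h2, -⟩ := hG.a4 _ hu
    rcases i with n | e
    · simp only [sup, Bool.or_eq_true, decide_eq_true_eq] at h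
      simp only [val, sg_nd_nd]
      split_ifs with h3 h4 h4
      · linarith
      · linarith
      · linarith
      · tauto
    · simp [sup] at h
  · rw [mem_Ws_P] at hu
    obtain ⟨hc, hd, -⟩ := hN.pts c d hu
    have h1 := hG.gpos _ (hN.cls _ hc)
    have h2 := hG.gpos _ (hN.cls _ hd)
    have h3 := (hG.apos _ hc).1
    have h4 := (hG.apos _ hd).1
    rcases i with n | e
    · simp only [sup, Bool.or_eq_true, decide_eq_true_eq] at h
      simp only [val, sg_nd_nd, sg_tg_nd, add_zero]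
      split_ifs with h5 h6 h6
      · linarith
      · linarith
      · linarith
      · tauto
    · simp only [sup, Bool.or_eq_true, decide_eq_true_eq] at h
      simp only [val, sg_nd_tg, sg_tg_tg, zero_add]
      split_ifs with h5 h6 h6
      · linarith
      · linarith
      · linarith
      · tauto
  · rw [mem_Ws_R] at hu
    obtain ⟨hc, hd, -⟩ := hN.ord c d hu
    have h1 := hG.gpos _ (hN.cls _ hc)
    have h2 := hG.gpos _ (hN.cls _ hd)
    have h3 := (hG.apos _ hc).1
    rcases i with n | e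
    · simp only [sup, decide_eq_true_eq] at h
      simp only [val, sg_nd_nd, sg_tg_nd, add_zero, if_pos h]
      exact h3
    · simp only [sup, Bool.or_eq_true, decide_eq_true_eq] at h
      simp only [val, sg_nd_tg, sg_tg_tg, zero_add]
      split_ifs with h5 h6 h6
      · linarith
      · linarith
      · linarith
      · tauto
  · simp [sup] at h
  · simp only [sup, decide_eq_true_eq] at h
    simp only [val, sg, if_pos h]
    exact hδ

omit hN hG in
theorem val_zero {u : Vx} {i : Co} (h : sup u i = false) : val a g w y z δ u i = 0 := by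
  rcases u with c | c | l | ⟨c, d⟩ | ⟨c, d⟩ | _ | j <;> rcases i with n | e <;>
    simp only [sup, decide_eq_false_iff_not, Bool.or_eq_false_iff] at h <;>
    simp [val, sg, h]

theorem val_nonneg {u : Vx} (hu : u ∈ N.Ws) (hu' : ∀ i, u ≠ Vx.S i) (i : Co) :
    0 ≤ val a g w y z δ u i := by
  rw [val_indep hu' δ 1]
  cases h : sup u i with
  | false => rw [val_zero h]
  | true => exact (val_pos hN hG one_pos hu h).le

/-- The relation for orthogonal vectors. -/
theorem dot_eq {u v : Vx} (hu : u ∈ N.Ws) (hv : v ∈ N.Ws) (h : hx u v = true) :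
    ∑ j ∈ N.Is.toFinset, val a g w y z δ u j * val a g w y z δ v j = 1 := by
  rcases u with c | c | l | ⟨c, d⟩ | ⟨c, d⟩ | _ | j <;>
    rcases v with c' | c' | l' | ⟨d', e'⟩ | ⟨d', e'⟩ | _ | j' <;>
    simp only [hx, Bool.false_eq_true, Bool.or_eq_true, decide_eq_true_eq] at h
  · rw [mem_Ws_V] at hu
    rw [mem_Ws_P] at hv
    obtain ⟨-, -, hl⟩ := hN.pts _ _ hv
    have h1 := (hN.lin _ hl).1
    have hne : d' ≠ e' := by
      rintro rfl
      simp at h1
    have h2 := (hG.gpos _ (hN.cls _ hu)).ne'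
    rw [dotV _ hu]
    simp only [val, sg_nd_tg, sg_tg_tg, zero_add]
    rcases h with h | h
    · subst h
      rw [if_pos rfl, if_neg hne.symm, add_zero, one_div, inv_mul_cancel₀ h2]
    · subst h
      rw [if_pos rfl, if_neg hne, zero_add, one_div, inv_mul_cancel₀ h2]
  · rw [mem_Ws_V] at hu
    rw [mem_Ws_R] at hv
    obtain ⟨-, -, -, hne⟩ := hN.ord _ _ hv
    have h2 := (hG.gpos _ (hN.cls _ hu)).ne'
    rw [dotV _ hu]
    simp only [val, sg_nd_tg, sg_tg_tg, zero_add]
    rcases h with h | h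
    · subst h
      rw [if_pos rfl, if_neg hne.symm, add_zero, one_div, inv_mul_cancel₀ h2]
    · subst h
      rw [if_pos rfl, if_neg hne, zero_add, one_div, inv_mul_cancel₀ h2]
  · rw [mem_Ws_W] at hu
    rw [mem_Ws_P] at hv
    obtain ⟨-, -, hl⟩ := hN.pts _ _ hv
    have h1 := (hN.lin _ hl).1
    simp only at h1
    have hne : d' ≠ e' := by
      rintro rfl
      simp at h1
    have h2 := (hG.gpos _ (hN.cls _ hu)).ne'
    rw [dotW _ hN hu]
    simp only [val, sg_nd_tg, sg_tg_tg, zero_add, sg_nd_nd, sg_tg_nd, add_zero]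
    rcases h with h | h
    · subst h
      rw [if_pos rfl, if_neg h1.ne', if_pos rfl, if_neg hne.symm, add_zero, add_zero,
        div_mul_cancel₀ _ h2]
      ring
    · subst h
      rw [if_neg h1.ne, if_pos rfl, if_neg hne, if_pos rfl, zero_add, zero_add,
        div_mul_cancel₀ _ h2]
      ring
  · rw [mem_Ws_W] at hu
    rw [mem_Ws_R] at hv
    obtain ⟨-, -, -, hne⟩ := hN.ord _ _ hv
    have h2 := (hG.gpos _ (hN.cls _ hu)).ne'
    rw [dotW _ hN hu]
    simp only [val, sg_nd_tg, sg_tg_tg, zero_add, sg_nd_nd, sg_tg_nd, add_zero]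
    subst h
    rw [if_pos rfl, if_pos rfl, if_neg hne.symm, add_zero, div_mul_cancel₀ _ h2]
    ring
  · rw [mem_Ws_Y] at hu
    rw [mem_Ws_P] at hv
    obtain ⟨-, -, hl⟩ := hN.pts _ _ hv
    have h1 := (hN.lin _ hl).1
    simp only at h1
    subst h
    rw [dotY _ hN hu]
    simp only [val, sg_nd_nd, sg_tg_nd, add_zero]
    rw [if_pos trivial, if_neg h1.ne', if_neg h1.ne, if_pos trivial, add_zero, zero_add]
    exact hG.a8 _ _ hv

/-- The inequality for nonorthogonal vectors, in one order. -/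
theorem dot_lt {u v : Vx} (hu : u ∈ N.Ws) (hv : v ∈ N.Ws) (hne : u ≠ v) (h : hh u v = false)
    (hδ : ∀ u ∈ N.Ws, (∀ i, u ≠ Vx.S i) → ∀ i ∈ N.Is, δ * val a g w y z δ u i < 1) :
    ∑ j ∈ N.Is.toFinset, val a g w y z δ u j * val a g w y z δ v j < 1 := by
  have hcomm : ∀ u v, ∑ j ∈ N.Is.toFinset, val a g w y z δ u j * val a g w y z δ v j =
      ∑ j ∈ N.Is.toFinset, val a g w y z δ v j * val a g w y z δ u j := fun u v =>
    sum_congr rfl fun _ _ => mul_comm _ _
  -- the small vectors
  have hS : ∀ i, Vx.S i ∈ N.Ws → ∀ v ∈ N.Ws, Vx.S i ≠ v →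
      ∑ j ∈ N.Is.toFinset, val a g w y z δ (Vx.S i) j * val a g w y z δ v j < 1 := by
    intro i hi v hv hne
    rw [mem_Ws_S] at hi
    rw [dotS _ hi]
    by_cases hvS : ∀ i, v ≠ Vx.S i
    · exact hδ v hv hvS i hi
    · push Not at hvS
      obtain ⟨j, rfl⟩ := hvS
      have : j ≠ i := fun h => hne (by rw [h])
      simp [val, sg, this]
  have hZ : ∀ v, ∑ j ∈ N.Is.toFinset, val a g w y z δ Vx.Z j * val a g w y z δ v j < 1 := by
    intro v
    rw [dotZ]
    norm_num
  unfold hh at h
  rw [Bool.or_eq_false_iff] at h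
  obtain ⟨h1, h2⟩ := h
  rcases u with c | c | l | ⟨c, d⟩ | ⟨c, d⟩ | _ | j <;>
    rcases v with c' | c' | l' | ⟨d', e'⟩ | ⟨d', e'⟩ | _ | j'
  all_goals first
    | exact hS _ hu _ hv hne
    | (rw [hcomm]; exact hS _ hv _ hu hne.symm)
    | exact hZ _
    | (rw [hcomm]; exact hZ _)
    | skip
  all_goals simp only [mem_Ws_V, mem_Ws_W, mem_Ws_Y, mem_Ws_P, mem_Ws_R] at hu hv
  all_goals simp only [hx, Bool.or_eq_false_iff, decide_eq_false_iff_not] at h1 h2
  · exact lt_VV hN hG hu (fun h => hne (by rw [h]))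
  · exact lt_VW hN hG hu
  · exact lt_VY hN hG hu
  · exact lt_VP hN hG hu h1.1 h1.2
  · exact lt_VR hN hG hu h1.1 h1.2
  · rw [hcomm]
    exact lt_VW hN hG hv
  · exact lt_WW hN hG hu (fun h => hne (by rw [h]))
  · exact lt_WY hN hG hu hv
  · exact lt_WP hN hG hu hv h1.1 h1.2
  · exact lt_WR hN hG hu hv h1
  · rw [hcomm]
    exact lt_VY hN hG hv
  · rw [hcomm]
    exact lt_WY hN hG hv hu
  · exact lt_YY hN hG hu hv (fun h => hne (by rw [h]))
  · exact lt_YP hN hG hu hv h1
  · exact lt_YR hN hG hu hv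
  · rw [hcomm]
    exact lt_VP hN hG hv h2.1 h2.2
  · rw [hcomm]
    exact lt_WP hN hG hv hu h2.1 h2.2
  · rw [hcomm]
    exact lt_YP hN hG hv hu h2
  · exact lt_PP hN hG hu hv (fun h => hne (by
      rw [Prod.mk.injEq] at h
      rw [h.1, h.2]))
  · exact lt_PR hN hG hu hv
  · rw [hcomm]
    exact lt_VR hN hG hv h2.1 h2.2
  · rw [hcomm]
    exact lt_WR hN hG hv hu h2
  · rw [hcomm]
    exact lt_YR hN hG hv hu
  · rw [hcomm]
    exact lt_PR hN hG hv hu
  · exact lt_RR hN hG hu hv (fun h => hne (by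
      rw [Prod.mk.injEq] at h
      rw [h.1, h.2]))

/-- The stress conditions on the points. -/
def Stress (N : Net) (a : ℕ × ℕ → ℝ) (y z : ℕ × ℕ → ℝ) (s : (ℕ × ℕ) × (ℕ × ℕ) → ℝ) : Prop :=
  (∀ c ∈ N.classes, ∑ π ∈ N.points.toFinset, ((if π.1 = c then s π * y (π.1.1, π.2.1) else 0) +
    (if π.2 = c then s π * z (π.1.1, π.2.1) else 0)) = 0) ∧
  (∀ l ∈ N.lines, ∑ π ∈ N.points.toFinset, (if (π.1.1, π.2.1) = l then s π else 0) = 0) ∧
  (∀ l ∈ N.lines, ∑ π ∈ N.points.toFinset,
    (if (π.1.1, π.2.1) = l then s π * a π.1 else 0) = 0)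

theorem indep (hred : ∀ s, Stress N a y z s → ∀ π ∈ N.points, s π = 0)
    (o : Vx → Vx → ℝ) (h1 : ∀ u v, o u v = o v u) (h2 : ∀ u v, hh u v = false → o u v = 0)
    (h3 : ∀ u ∈ N.Ws, ∑ v ∈ N.Ws.toFinset, o u v = 0)
    (h4 : ∀ u ∈ N.Ws, ∀ i ∈ N.Is, sup u i = true →
      ∑ v ∈ N.Ws.toFinset, o u v * val a g w y z δ v i = 0) :
    ∀ u ∈ N.Ws, ∀ v ∈ N.Ws, o u v = 0 := by
  -- sums over the points
  have hsumP : ∀ f : Vx → ℝ, (∀ v ∈ N.Ws, (∀ c d, v ≠ Vx.P c d) → f v = 0) →
      ∑ v ∈ N.Ws.toFinset, f v = ∑ π ∈ N.points.toFinset, f (Vx.P π.1 π.2) := by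
    intro f hf
    have hinj : Set.InjOn (fun π : (ℕ × ℕ) × (ℕ × ℕ) => Vx.P π.1 π.2) N.points.toFinset := by
      rintro ⟨c, d⟩ - ⟨c', d'⟩ - h
      simpa using h
    rw [← Finset.sum_image (f := f) hinj]
    symm
    refine Finset.sum_subset ?_ ?_
    · intro v hv
      simp only [Finset.mem_image, List.mem_toFinset] at hv ⊢
      obtain ⟨π, hπ, rfl⟩ := hv
      simpa using hπ
    · intro v hv hv'
      refine hf v (List.mem_toFinset.1 hv) ?_
      rintro c d rfl
      refine hv' ?_
      simp only [Finset.mem_image, List.mem_toFinset]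
      exact ⟨(c, d), by simpa using List.mem_toFinset.1 hv, rfl⟩
  have hone : ∀ (f : Vx → ℝ) (u : Vx), u ∈ N.Ws → (∀ v ∈ N.Ws, v ≠ u → f v = 0) →
      ∑ v ∈ N.Ws.toFinset, f v = f u := by
    intro f u hu hf
    exact Finset.sum_eq_single u (fun v hv hne => hf v (List.mem_toFinset.1 hv) hne)
      (fun h => absurd (List.mem_toFinset.2 hu) h)
  have htwo : ∀ (f : Vx → ℝ) (u u' : Vx), u ∈ N.Ws → u' ∈ N.Ws → u ≠ u' →
      (∀ v ∈ N.Ws, v ≠ u → v ≠ u' → f v = 0) →
      ∑ v ∈ N.Ws.toFinset, f v = f u + f u' := by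
    intro f u u' hu hu' hne hf
    exact Finset.sum_eq_add u u' hne (fun v hv hne => hf v (List.mem_toFinset.1 hv) hne.1 hne.2)
      (fun h => absurd (List.mem_toFinset.2 hu) h) (fun h => absurd (List.mem_toFinset.2 hu') h)
  -- order vectors
  have hRW : ∀ c d, (c, d) ∈ N.orders → o (Vx.R c d) (Vx.W c) = 0 := by
    intro c d hcd
    obtain ⟨hc, hd, he, hne⟩ := hN.ord c d hcd
    have h5 := h4 (Vx.R c d) (by simpa using hcd) (Co.nd c.1) (by simpa using hN.cls c hc)
      (by simp [sup])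
    rw [hone _ (Vx.W c) (by simpa using hc)] at h5
    · have h6 := (hG.wpos _ (hN.cls _ hc)).1.ne'
      simpa [val, h6] using h5
    · intro v hv hne'
      rcases v with e | e | l | ⟨e, f⟩ | ⟨e, f⟩ | _ | j
      · simp [val]
      · rw [h2 _ _ (by
          simp only [hh, hx, Bool.or_eq_false_iff, decide_eq_false_iff_not]
          exact ⟨trivial, fun h => hne' (by rw [h])⟩), zero_mul]
      all_goals rw [h2 _ _ (by simp [hh, hx]), zero_mul]
  have hRV : ∀ c d, (c, d) ∈ N.orders → o (Vx.R c d) (Vx.V c) = 0 := by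
    intro c d hcd
    obtain ⟨hc, hd, he, hne⟩ := hN.ord c d hcd
    have h5 := h4 (Vx.R c d) (by simpa using hcd) (Co.tg c) (by simpa using hc) (by simp [sup])
    rw [hone _ (Vx.V c) (by simpa using hc)] at h5
    · have h6 := (hG.gpos _ (hN.cls _ hc)).ne'
      simpa [val, h6] using h5
    · intro v hv hne'
      rcases v with e | e | l | ⟨e, f⟩ | ⟨e, f⟩ | _ | j
      · have : e ≠ c := fun h => hne' (by rw [h])
        simp [val, this]
      · by_cases hec : e = c
        · rw [hec, hRW c d hcd, zero_mul]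
        · simp [val, hec]
      all_goals rw [h2 _ _ (by simp [hh, hx]), zero_mul]
  have hRV' : ∀ c d, (c, d) ∈ N.orders → o (Vx.R c d) (Vx.V d) = 0 := by
    intro c d hcd
    obtain ⟨hc, hd, he, hne⟩ := hN.ord c d hcd
    have h5 := h4 (Vx.R c d) (by simpa using hcd) (Co.tg d) (by simpa using hd) (by simp [sup])
    rw [hone _ (Vx.V d) (by simpa using hd)] at h5
    · have h6 := (hG.gpos _ (hN.cls _ hd)).ne'
      simpa [val, h6] using h5
    · intro v hv hne'
      rcases v with e | e | l | ⟨e, f⟩ | ⟨e, f⟩ | _ | j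
      · have : e ≠ d := fun h => hne' (by rw [h])
        simp [val, this]
      · by_cases hec : e = c
        · rw [hec, hRW c d hcd, zero_mul]
        · rw [h2 _ _ (by
            simp only [hh, hx, Bool.or_eq_false_iff, decide_eq_false_iff_not]
            exact ⟨trivial, hec⟩), zero_mul]
      all_goals rw [h2 _ _ (by simp [hh, hx]), zero_mul]
  -- points
  have hPW : ∀ c d, (c, d) ∈ N.points → o (Vx.P c d) (Vx.W c) * w c.1 =
      -(o (Vx.P c d) (Vx.Y (c.1, d.1)) * y (c.1, d.1)) := by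
    intro c d hcd
    obtain ⟨hc, hd, hl⟩ := hN.pts c d hcd
    have hlt := (hN.lin _ hl).1
    simp only at hlt
    have h5 := h4 (Vx.P c d) (by simpa using hcd) (Co.nd c.1) (by simpa using hN.cls c hc)
      (by simp [sup])
    rw [htwo _ (Vx.W c) (Vx.Y (c.1, d.1)) (by simpa using hc) (by simpa using hl) (by simp)] at h5
    · simp only [val, sg_nd_nd, sg_tg_nd, if_true, add_zero, if_neg hlt.ne'] at h5
      linarith
    · intro v hv hne1 hne2
      rcases v with e | e | l | ⟨e, f⟩ | ⟨e, f⟩ | _ | j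
      · simp [val]
      · have h6 : e ≠ c := fun h => hne1 (by rw [h])
        by_cases h7 : e = d
        · subst h7
          simp [val, hlt.ne']
        · rw [h2 _ _ (by simp [hh, hx, h6, h7]), zero_mul]
      · rw [h2 _ _ (by
          simp only [hh, hx, Bool.or_eq_false_iff, decide_eq_false_iff_not]
          exact ⟨trivial, fun h => hne2 (by rw [h])⟩), zero_mul]
      all_goals rw [h2 _ _ (by simp [hh, hx]), zero_mul]
  have hPW' : ∀ c d, (c, d) ∈ N.points → o (Vx.P c d) (Vx.W d) * w d.1 =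
      -(o (Vx.P c d) (Vx.Y (c.1, d.1)) * z (c.1, d.1)) := by
    intro c d hcd
    obtain ⟨hc, hd, hl⟩ := hN.pts c d hcd
    have hlt := (hN.lin _ hl).1
    simp only at hlt
    have h5 := h4 (Vx.P c d) (by simpa using hcd) (Co.nd d.1) (by simpa using hN.cls d hd)
      (by simp [sup])
    rw [htwo _ (Vx.W d) (Vx.Y (c.1, d.1)) (by simpa using hd) (by simpa using hl) (by simp)] at h5
    · simp only [val, sg_nd_nd, sg_tg_nd, if_true, add_zero, zero_add, if_neg hlt.ne] at h5
      linarith
    · intro v hv hne1 hne2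
      rcases v with e | e | l | ⟨e, f⟩ | ⟨e, f⟩ | _ | j
      · simp [val]
      · have h6 : e ≠ d := fun h => hne1 (by rw [h])
        by_cases h7 : e = c
        · subst h7
          simp [val, hlt.ne]
        · rw [h2 _ _ (by simp [hh, hx, h6, h7]), zero_mul]
      · rw [h2 _ _ (by
          simp only [hh, hx, Bool.or_eq_false_iff, decide_eq_false_iff_not]
          exact ⟨trivial, fun h => hne2 (by rw [h])⟩), zero_mul]
      all_goals rw [h2 _ _ (by simp [hh, hx]), zero_mul]
  have hPV : ∀ c d, (c, d) ∈ N.points → o (Vx.P c d) (Vx.W c) = 0 →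
      o (Vx.P c d) (Vx.V c) = 0 := by
    intro c d hcd h0
    obtain ⟨hc, hd, hl⟩ := hN.pts c d hcd
    have hlt := (hN.lin _ hl).1
    simp only at hlt
    have h5 := h4 (Vx.P c d) (by simpa using hcd) (Co.tg c) (by simpa using hc) (by simp [sup])
    rw [hone _ (Vx.V c) (by simpa using hc)] at h5
    · have h6 := (hG.gpos _ (hN.cls _ hc)).ne'
      simpa [val, h6] using h5
    · intro v hv hne'
      rcases v with e | e | l | ⟨e, f⟩ | ⟨e, f⟩ | _ | j
      · have : e ≠ c := fun h => hne' (by rw [h])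
        simp [val, this]
      · by_cases hec : e = c
        · rw [hec, h0, zero_mul]
        · simp [val, hec]
      · simp [val]
      all_goals rw [h2 _ _ (by simp [hh, hx]), zero_mul]
  have hPV' : ∀ c d, (c, d) ∈ N.points → o (Vx.P c d) (Vx.W d) = 0 →
      o (Vx.P c d) (Vx.V d) = 0 := by
    intro c d hcd h0
    obtain ⟨hc, hd, hl⟩ := hN.pts c d hcd
    have hlt := (hN.lin _ hl).1
    simp only at hlt
    have h5 := h4 (Vx.P c d) (by simpa using hcd) (Co.tg d) (by simpa using hd) (by simp [sup])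
    rw [hone _ (Vx.V d) (by simpa using hd)] at h5
    · have h6 := (hG.gpos _ (hN.cls _ hd)).ne'
      simpa [val, h6] using h5
    · intro v hv hne'
      rcases v with e | e | l | ⟨e, f⟩ | ⟨e, f⟩ | _ | j
      · have : e ≠ d := fun h => hne' (by rw [h])
        simp [val, this]
      · by_cases hec : e = d
        · rw [hec, h0, zero_mul]
        · simp [val, hec]
      · simp [val]
      all_goals rw [h2 _ _ (by simp [hh, hx]), zero_mul]
  -- the stress on the points
  let s : (ℕ × ℕ) × (ℕ × ℕ) → ℝ := fun π => o (Vx.P π.1 π.2) (Vx.Y (π.1.1, π.2.1))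
  have hs : Stress N a y z s := by
    refine ⟨fun c hc => ?_, fun l hl => ?_, fun l hl => ?_⟩
    · have h5 := h3 (Vx.W c) (by simpa using hc)
      rw [hsumP] at h5
      · have h6 : ∑ π ∈ N.points.toFinset, ((if π.1 = c then s π * y (π.1.1, π.2.1) else 0) +
            (if π.2 = c then s π * z (π.1.1, π.2.1) else 0)) =
            -(w c.1 * ∑ π ∈ N.points.toFinset, o (Vx.W c) (Vx.P π.1 π.2)) := by
          rw [Finset.mul_sum, ← Finset.sum_neg_distrib]
          refine sum_congr rfl fun π hπ => ?_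
          have hπ' : (π.1, π.2) ∈ N.points := by simpa using hπ
          obtain ⟨hc, hd, hl⟩ := hN.pts _ _ hπ'
          have hlt := (hN.lin _ hl).1
          have hne : π.1 ≠ π.2 := by
            intro h
            rw [h] at hlt
            simp at hlt
          rw [h1]
          by_cases e1 : π.1 = c
          · have e2 : π.2 ≠ c := fun h => hne (e1.trans h.symm)
            rw [if_pos e1, if_neg e2, ← e1, mul_comm (w _), hPW _ _ hπ']
            simp only [s]
            ring
          · by_cases e2 : π.2 = c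
            · rw [if_neg e1, if_pos e2, ← e2, mul_comm (w _), hPW' _ _ hπ']
              simp only [s]
              ring
            · rw [if_neg e1, if_neg e2, h2 _ _ (by
                simp [hh, hx, Ne.symm e1, Ne.symm e2])]
              ring
        rw [h6, h5, mul_zero, neg_zero]
      · intro v hv hv'
        rcases v with e | e | l | ⟨e, f⟩ | ⟨e, f⟩ | _ | j
        · exact h2 _ _ (by simp [hh, hx])
        · exact h2 _ _ (by simp [hh, hx])
        · exact h2 _ _ (by simp [hh, hx])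
        · exact absurd rfl (hv' e f)
        · by_cases hec : c = e
          · rw [h1, hec]
            exact hRW e f (by simpa using hv)
          · exact h2 _ _ (by simp [hh, hx, hec])
        · exact h2 _ _ (by simp [hh, hx])
        · exact h2 _ _ (by simp [hh, hx])
    · have h5 := h3 (Vx.Y l) (by simpa using hl)
      rw [hsumP] at h5
      · refine Eq.trans (sum_congr rfl fun π hπ => ?_) h5
        rw [h1]
        by_cases e1 : (π.1.1, π.2.1) = l
        · rw [if_pos e1, ← e1]
        · rw [if_neg e1, h2 _ _ (by simp [hh, hx, Ne.symm e1])]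
      · intro v hv hv'
        rcases v with e | e | l | ⟨e, f⟩ | ⟨e, f⟩ | _ | j
        · exact h2 _ _ (by simp [hh, hx])
        · exact h2 _ _ (by simp [hh, hx])
        · exact h2 _ _ (by simp [hh, hx])
        · exact absurd rfl (hv' e f)
        · exact h2 _ _ (by simp [hh, hx])
        · exact h2 _ _ (by simp [hh, hx])
        · exact h2 _ _ (by simp [hh, hx])
    · obtain ⟨hlt, hl1, hl2⟩ := hN.lin l hl
      have h5 := h4 (Vx.Y l) (by simpa using hl) (Co.nd l.1) (by simpa using hl1) (by simp [sup])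
      rw [hsumP] at h5
      · refine Eq.trans (sum_congr rfl fun π hπ => ?_) h5
        rw [h1]
        by_cases e1 : (π.1.1, π.2.1) = l
        · rw [if_pos e1, ← e1]
          simp only [val, sg_nd_nd, sg_tg_nd, if_true, add_zero]
          have : π.2.1 ≠ π.1.1 := by
            rw [← e1] at hlt
            exact hlt.ne'
          rw [if_neg this, add_zero]
        · rw [if_neg e1, h2 _ _ (by simp [hh, hx, Ne.symm e1]), zero_mul]
      · intro v hv hv'
        rcases v with e | e | l | ⟨e, f⟩ | ⟨e, f⟩ | _ | j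
        · rw [h2 _ _ (by simp [hh, hx]), zero_mul]
        · rw [h2 _ _ (by simp [hh, hx]), zero_mul]
        · rw [h2 _ _ (by simp [hh, hx]), zero_mul]
        · exact absurd rfl (hv' e f)
        · rw [h2 _ _ (by simp [hh, hx]), zero_mul]
        · rw [h2 _ _ (by simp [hh, hx]), zero_mul]
        · rw [h2 _ _ (by simp [hh, hx]), zero_mul]
  have hs0 := hred s hs
  -- conclusion
  have hPY : ∀ c d, (c, d) ∈ N.points → o (Vx.P c d) (Vx.Y (c.1, d.1)) = 0 := fun c d h =>
    hs0 _ h
  have hPW0 : ∀ c d, (c, d) ∈ N.points → o (Vx.P c d) (Vx.W c) = 0 := by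
    intro c d h
    have h5 := hPW c d h
    rw [hPY c d h, zero_mul, neg_zero] at h5
    obtain ⟨hc, -, -⟩ := hN.pts c d h
    exact (mul_eq_zero.1 h5).resolve_right (hG.wpos _ (hN.cls _ hc)).1.ne'
  have hPW0' : ∀ c d, (c, d) ∈ N.points → o (Vx.P c d) (Vx.W d) = 0 := by
    intro c d h
    have h5 := hPW' c d h
    rw [hPY c d h, zero_mul, neg_zero] at h5
    obtain ⟨-, hd, -⟩ := hN.pts c d h
    exact (mul_eq_zero.1 h5).resolve_right (hG.wpos _ (hN.cls _ hd)).1.ne'
  have key : ∀ u ∈ N.Ws, ∀ v ∈ N.Ws, hx u v = true → o v u = 0 := by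
    intro u hu v hv h
    rcases u with c | c | l | ⟨c, d⟩ | ⟨c, d⟩ | _ | j <;>
      rcases v with c' | c' | l' | ⟨d', e'⟩ | ⟨d', e'⟩ | _ | j' <;>
      simp only [hx, Bool.false_eq_true, Bool.or_eq_true, decide_eq_true_eq] at h
    · rw [mem_Ws_P] at hv
      rcases h with rfl | rfl
      · exact hPV _ _ hv (hPW0 _ _ hv)
      · exact hPV' _ _ hv (hPW0' _ _ hv)
    · rw [mem_Ws_R] at hv
      rcases h with rfl | rfl
      · exact hRV _ _ hv
      · exact hRV' _ _ hv
    · rw [mem_Ws_P] at hv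
      rcases h with rfl | rfl
      · exact hPW0 _ _ hv
      · exact hPW0' _ _ hv
    · rw [mem_Ws_R] at hv
      subst h
      exact hRW _ _ hv
    · rw [mem_Ws_P] at hv
      subst h
      exact hPY _ _ hv
  intro u hu v hv
  by_cases h : hh u v = false
  · exact h2 _ _ h
  · rw [Bool.not_eq_false, hh, Bool.or_eq_true] at h
    rcases h with h | h
    · rw [h1]
      exact key u hu v hv h
    · exact key v hv u hu h

theorem mu_of_good (hred : ∀ s, Stress N a y z s → ∀ π ∈ N.points, s π = 0) :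
    ∃ M : Matrix (Option {i // i ∈ N.Is} ⊕ {w // w ∈ N.Ws})
        (Option {i // i ∈ N.Is} ⊕ {w // w ∈ N.Ws}) ℝ,
      InM N.G M ∧ Fintype.card {w // w ∈ N.Ws} + M.rank ≤
        Fintype.card (Option {i // i ∈ N.Is} ⊕ {w // w ∈ N.Ws}) := by
  classical
  obtain ⟨δ, hδ0, hδ⟩ : ∃ δ : ℝ, 0 < δ ∧ ∀ u ∈ N.Ws, (∀ i, u ≠ Vx.S i) → ∀ i ∈ N.Is,
      δ * val a g w y z δ u i < 1 := by
    let K : ℝ := ∑ u ∈ N.Ws.toFinset, ∑ i ∈ N.Is.toFinset,
      if (∀ j, u ≠ Vx.S j) then val a g w y z 1 u i else 0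
    have hnn : ∀ u ∈ N.Ws.toFinset, ∀ i ∈ N.Is.toFinset,
        0 ≤ if (∀ j, u ≠ Vx.S j) then val a g w y z 1 u i else 0 := by
      intro u hu i hi
      split_ifs with h
      · exact val_nonneg hN hG (List.mem_toFinset.1 hu) h i
      · exact le_rfl
    have hK : ∀ u ∈ N.Ws, (∀ i, u ≠ Vx.S i) → ∀ i ∈ N.Is, val a g w y z 1 u i ≤ K := by
      intro u hu hu' i hi
      have h1 : val a g w y z 1 u i = if (∀ j, u ≠ Vx.S j) then val a g w y z 1 u i else 0 := by
        rw [if_pos hu']
      rw [h1]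
      refine (single_le_sum (f := fun i => if (∀ j, u ≠ Vx.S j) then val a g w y z 1 u i else 0)
        (fun i hi => hnn u (List.mem_toFinset.2 hu) i hi) (List.mem_toFinset.2 hi)).trans ?_
      exact single_le_sum (f := fun u => ∑ i ∈ N.Is.toFinset,
        if (∀ j, u ≠ Vx.S j) then val a g w y z 1 u i else 0)
        (fun u hu => sum_nonneg fun i hi => hnn u hu i hi) (List.mem_toFinset.2 hu)
    have hK0 : 0 ≤ K := sum_nonneg fun u hu => sum_nonneg fun i hi => hnn u hu i hi
    refine ⟨1 / (1 + K), by positivity, fun u hu hu' i hi => ?_⟩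
    rw [val_indep hu' _ 1, one_div, inv_mul_lt_one₀ (by linarith)]
    linarith [hK u hu hu' i hi]
  refine complete_list (x := val a g w y z δ) hh_comm (fun u hu i _ h => val_pos hN hG hδ0 hu h)
    (fun u _ i _ h => val_zero h) (fun u hu v hv h => ?_)
    (fun u hu v hv hne h => dot_lt hN hG hu hv hne h hδ)
    (fun o h1 h2 h3 h4 => indep hN hG hred o h1 h2 h3 h4)
  unfold hh at h
  rw [Bool.or_eq_true] at h
  rcases h with h | h
  · exact dot_eq hN hG hu hv h
  · rw [← dot_eq (δ := δ) hN hG hv hu h]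
    exact sum_congr rfl fun _ _ => mul_comm _ _

end Main

end Net

end Pool.Agent.NPC.ER.CdV
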