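import Pool.Agent.CdV.NetS

/-!
# Completeness of the network of a program: the numerical values
-/

namespace Pool.Agent.NPC.ER.CdV

open Finset Filter Topology Pool.Agent.NPC.ER.Oslp

namespace Net

/-- The strict inequalities among the numerical conditions. -/
structure Strict (N : Net) (a : ℕ × ℕ → ℝ) (g w : ℕ → ℝ) (y z : ℕ × ℕ → ℝ) : Prop where
  gpos : ∀ n ∈ N.nodes, 0 < g n
  wpos : ∀ n ∈ N.nodes, 0 < w n ∧ w n < 1
  apos : ∀ c ∈ N.classes, 0 < a c ∧ w c.1 * a c < 1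
  a1 : ∀ c ∈ N.classes, 1 - w c.1 * a c < g c.1 ^ 2
  a2 : ∀ c ∈ N.classes, ∀ d ∈ N.classes, c.1 = d.1 → a c * a d + g c.1 ^ 2 < 1
  a4 : ∀ l ∈ N.lines, 0 < y l ∧ 0 < z l ∧ w l.1 * y l < 1 ∧ w l.2 * z l < 1
  a5 : ∀ l ∈ N.lines, ∀ c ∈ N.classes, (c.1 = l.1 → y l * a c < 1) ∧ (c.1 = l.2 → z l * a c < 1)
  a6 : ∀ l ∈ N.lines, ∀ l' ∈ N.lines, l ≠ l' → (l.1 = l'.1 → y l * y l' < 1) ∧
    (l.1 = l'.2 → y l * z l' < 1) ∧ (l.2 = l'.2 → z l * z l' < 1)
  a7 : ∀ c ∈ N.classes, ∀ d ∈ N.classes, ∀ c' ∈ N.classes, ∀ d' ∈ N.classes,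
    (c.1, d.1) ∈ N.lines → c.1 = c'.1 → d.1 = d'.1 → a c * a c' + a d * a d' < 1

theorem ev_list {α : Type} {l : List α} {f : Filter ℝ} {q : α → ℝ → Prop}
    (h : ∀ x ∈ l, ∀ᶠ ε in f, q x ε) : ∀ᶠ ε in f, ∀ x ∈ l, q x ε :=
  (eventually_all_finite (List.finite_toSet l)).2 h

theorem strict_eventually {N : Net} {a : ℝ → ℕ × ℕ → ℝ} {g w : ℕ → ℝ} {y z : ℝ → ℕ × ℕ → ℝ}
    (ha : ∀ c ∈ N.classes, ContinuousAt (fun ε => a ε c) 0)
    (hy : ∀ l ∈ N.lines, ContinuousAt (fun ε => y ε l) 0)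
    (hz : ∀ l ∈ N.lines, ContinuousAt (fun ε => z ε l) 0)
    (h0 : Strict N (a 0) g w (y 0) (z 0)) : ∀ᶠ ε in 𝓝 (0 : ℝ), Strict N (a ε) g w (y ε) (z ε) := by
  have e1 : ∀ᶠ ε in 𝓝 (0 : ℝ), ∀ c ∈ N.classes, 0 < a ε c ∧ w c.1 * a ε c < 1 :=
    ev_list fun c hc => (continuousAt_const.eventually_lt (ha c hc) (h0.apos c hc).1).and
      ((continuousAt_const.mul (ha c hc)).eventually_lt continuousAt_const (h0.apos c hc).2)
  have e2 : ∀ᶠ ε in 𝓝 (0 : ℝ), ∀ c ∈ N.classes, 1 - w c.1 * a ε c < g c.1 ^ 2 :=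
    ev_list fun c hc => (continuousAt_const.sub (continuousAt_const.mul (ha c hc))).eventually_lt
      continuousAt_const (h0.a1 c hc)
  have e3 : ∀ᶠ ε in 𝓝 (0 : ℝ), ∀ c ∈ N.classes, ∀ d ∈ N.classes, c.1 = d.1 →
      a ε c * a ε d + g c.1 ^ 2 < 1 :=
    ev_list fun c hc => ev_list fun d hd => eventually_imp_distrib_left.2 fun h =>
      (((ha c hc).mul (ha d hd)).add continuousAt_const).eventually_lt continuousAt_const
        (h0.a2 c hc d hd h)
  have e4 : ∀ᶠ ε in 𝓝 (0 : ℝ), ∀ l ∈ N.lines, 0 < y ε l ∧ 0 < z ε l ∧ w l.1 * y ε l < 1 ∧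
      w l.2 * z ε l < 1 :=
    ev_list fun l hl => (continuousAt_const.eventually_lt (hy l hl) (h0.a4 l hl).1).and
      ((continuousAt_const.eventually_lt (hz l hl) (h0.a4 l hl).2.1).and
      (((continuousAt_const.mul (hy l hl)).eventually_lt continuousAt_const
        (h0.a4 l hl).2.2.1).and
      ((continuousAt_const.mul (hz l hl)).eventually_lt continuousAt_const (h0.a4 l hl).2.2.2)))
  have e5 : ∀ᶠ ε in 𝓝 (0 : ℝ), ∀ l ∈ N.lines, ∀ c ∈ N.classes,
      (c.1 = l.1 → y ε l * a ε c < 1) ∧ (c.1 = l.2 → z ε l * a ε c < 1) :=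
    ev_list fun l hl => ev_list fun c hc => (eventually_imp_distrib_left.2 fun h =>
      ((hy l hl).mul (ha c hc)).eventually_lt continuousAt_const ((h0.a5 l hl c hc).1 h)).and
      (eventually_imp_distrib_left.2 fun h =>
      ((hz l hl).mul (ha c hc)).eventually_lt continuousAt_const ((h0.a5 l hl c hc).2 h))
  have e6 : ∀ᶠ ε in 𝓝 (0 : ℝ), ∀ l ∈ N.lines, ∀ l' ∈ N.lines, l ≠ l' →
      (l.1 = l'.1 → y ε l * y ε l' < 1) ∧
      (l.1 = l'.2 → y ε l * z ε l' < 1) ∧ (l.2 = l'.2 → z ε l * z ε l' < 1) :=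
    ev_list fun l hl => ev_list fun l' hl' => eventually_imp_distrib_left.2 fun hne =>
      (eventually_imp_distrib_left.2 fun h =>
      ((hy l hl).mul (hy l' hl')).eventually_lt continuousAt_const
        ((h0.a6 l hl l' hl' hne).1 h)).and
      ((eventually_imp_distrib_left.2 fun h =>
      ((hy l hl).mul (hz l' hl')).eventually_lt continuousAt_const
        ((h0.a6 l hl l' hl' hne).2.1 h)).and
      (eventually_imp_distrib_left.2 fun h =>
      ((hz l hl).mul (hz l' hl')).eventually_lt continuousAt_const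
        ((h0.a6 l hl l' hl' hne).2.2 h)))
  have e7 : ∀ᶠ ε in 𝓝 (0 : ℝ), ∀ c ∈ N.classes, ∀ d ∈ N.classes, ∀ c' ∈ N.classes,
      ∀ d' ∈ N.classes, (c.1, d.1) ∈ N.lines → c.1 = c'.1 → d.1 = d'.1 →
      a ε c * a ε c' + a ε d * a ε d' < 1 :=
    ev_list fun c hc => ev_list fun d hd => ev_list fun c' hc' => ev_list fun d' hd' =>
      eventually_imp_distrib_left.2 fun h1 => eventually_imp_distrib_left.2 fun h2 =>
      eventually_imp_distrib_left.2 fun h3 =>
      (((ha c hc).mul (ha c' hc')).add ((ha d hd).mul (ha d' hd'))).eventually_lt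
        continuousAt_const (h0.a7 c hc d hd c' hc' d' hd' h1 h2 h3)
  filter_upwards [e1, e2, e3, e4, e5, e6, e7] with ε f1 f2 f3 f4 f5 f6 f7
  exact ⟨h0.gpos, h0.wpos, f1, f2, f3, f4, f5, f6, f7⟩

theorem Strict.good {N : Net} {a : ℕ × ℕ → ℝ} {g w : ℕ → ℝ} {y z : ℕ × ℕ → ℝ}
    (h : Strict N a g w y z)
    (h8 : ∀ c d, (c, d) ∈ N.points → y (c.1, d.1) * a c + z (c.1, d.1) * a d = 1)
    (h9 : ∀ c d, (c, d) ∈ N.orders → a c < a d) : N.Good a g w y z :=
  ⟨h.gpos, h.wpos, h.apos, h.a1, h.a2, h.a4, h.a5, h.a6, h.a7, h8, h9⟩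

end Net

/-! ### The values for a program -/

section Values

variable (v : ℕ → ℝ) (p : List Ins)

/-- The instruction at a node. -/
def qq (n : ℕ) : Option (ℕ × ℕ × ℕ × ℕ) := (p[n - 3]?).join

theorem qq_eq {m : ℕ} {q : ℕ × ℕ × ℕ × ℕ} (h : p[m]? = some (some q)) : qq p (m + 3) = some q := by
  unfold qq
  rw [Nat.add_sub_cancel, h]
  rfl

/-- The slope at a node. -/
noncomputable def BB (n : ℕ) : ℝ :=
  match qq p n with
  | none => 1
  | some q => if q.1 = 0 then 1 else (v q.2.2.2 - v q.1) / (v (n - 1) - v q.1)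

/-- The values of the classes. -/
noncomputable def aa (ε : ℝ) (c : ℕ × ℕ) : ℝ :=
  if c.1 < 3 then (if c.1 = 1 then 3 / 5 + ε * v c.2 else 3 / 5 - ε * v c.2) else
  match qq p c.1 with
  | none => 7 / 10
  | some q => if q.1 = 0 then 7 / 10 + ε * v (al (c.1 - 3) q c.2)
      else 7 / 10 + 3 / 2 * ε * v (be (c.1 - 3) q c.2)

noncomputable def ww (n : ℕ) : ℝ := if n < 3 then 9 / 10 else (7 + BB v p n) / 10

noncomputable def gg (n : ℕ) : ℝ := if n < 3 then 7 / 10 else √(51 / 100 - 35 / 1000 * BB v p n)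

noncomputable def yy (ε : ℝ) (l : ℕ × ℕ) : ℝ :=
  if l.2 < 3 then 5 / 6 else
  match qq p l.2 with
  | none => 1 / 2
  | some q => if q.1 = 0 then (if l.1 = 0 then 10 / 13 else
        1 / (13 / 10 + ε * (v q.2.2.1 + v q.2.2.2)))
      else if l.1 = 0 then 3 / 2 * BB v p l.2 / (9 / 10 * BB v p l.2 + 7 / 10 +
        3 / 2 * ε * (1 - BB v p l.2) * v q.1) else 15 / 16

noncomputable def zz (ε : ℝ) (l : ℕ × ℕ) : ℝ :=
  if l.2 < 3 then 5 / 6 else
  match qq p l.2 with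
  | none => 1 / 2
  | some q => if q.1 = 0 then (if l.1 = 0 then 10 / 13 else
        1 / (13 / 10 + ε * (v q.2.2.1 + v q.2.2.2)))
      else if l.1 = 0 then 1 / (9 / 10 * BB v p l.2 + 7 / 10 +
        3 / 2 * ε * (1 - BB v p l.2) * v q.1) else 5 / 8

end Values

section Props

variable {v : ℕ → ℝ} {p : List Ins}

theorem run_mono (hr : Oslp.Run v 2 p) : ∀ i j, 1 ≤ i → i < j → j ≤ p.length + 1 → v i < v j := by
  have hinc : ∀ m, m < p.length → v (m + 1) < v (m + 2) := by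
    intro m hm
    have := (run_get hr m _ (List.getElem?_eq_getElem hm)).1
    rwa [show 2 + m - 1 = m + 1 by omega, show 2 + m = m + 2 by omega] at this
  intro i j hi hij hj
  induction j, hij using Nat.le_induction with
  | base =>
    have := hinc (i - 1) (by omega)
    rwa [Nat.sub_add_cancel hi, show i - 1 + 2 = i + 1 by omega] at this
  | succ j hij ih =>
    have := hinc (j - 1) (by omega)
    rw [show j - 1 + 1 = j by omega, show j - 1 + 2 = j + 1 by omega] at this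
    exact (ih (by omega)).trans this

theorem run_rel (hr : Oslp.Run v 2 p) {m : ℕ} {q : ℕ × ℕ × ℕ × ℕ} (h : p[m]? = some (some q)) :
    (q.1 = 0 → v (m + 2) + v q.2.1 = v q.2.2.1 + v q.2.2.2) ∧
    (0 < q.1 → (v (m + 2) - v q.1) * (v q.2.1 - v q.1) =
      (v q.2.2.1 - v q.1) * (v q.2.2.2 - v q.1)) := by
  have := (run_get hr m _ h).2
  rw [show 2 + m = m + 2 by omega] at this
  obtain ⟨o, l, i, j⟩ := q
  exact this

theorem BB_range (hp : WF 2 p) (hr : Oslp.Run v 2 p) (n : ℕ) : 0 < BB v p (n + 3) ∧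
    BB v p (n + 3) ≤ 1 := by
  unfold BB
  split
  · norm_num
  · rename_i q hq
    split_ifs with h0
    · norm_num
    · have h : p[n]? = some (some q) := by
        unfold qq at hq
        rw [Nat.add_sub_cancel, Option.join_eq_some_iff] at hq
        exact hq
      obtain ⟨h1, h2, h3, h4, h5, h6⟩ := wfi_get hp h
      rw [show n + 3 - 1 = n + 2 by omega]
      have k1 := run_mono hr q.1 q.2.2.2 (by omega) (by omega) (by omega)
      have k2 := run_mono hr q.2.2.2 (n + 2) (by omega) (by omega) (by omega)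
      constructor
      · exact div_pos (by linarith) (by linarith)
      · rw [div_le_one (by linarith)]
        linarith

end Props

end Pool.Agent.NPC.ER.CdV
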