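import Pool.Agent.CdV.NetC

/-!
# Completeness of the network of a program: the numerical conditions
-/

namespace Pool.Agent.NPC.ER.CdV

open Finset Filter Topology Pool.Agent.NPC.ER.Oslp

variable {v : ℕ → ℝ} {p : List Ins}

theorem aa_zero (c : ℕ × ℕ) : aa v p 0 c = if c.1 < 3 then 3 / 5 else 7 / 10 := by
  unfold aa
  split_ifs
  · ring
  · ring
  · split
    · rfl
    · split_ifs <;> ring

theorem aa_cont (c : ℕ × ℕ) : ContinuousAt (fun ε => aa v p ε c) 0 := by
  unfold aa
  split_ifs
  · fun_prop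
  · fun_prop
  · split
    · fun_prop
    · split_ifs <;> fun_prop

theorem yy_cont (hp : WF 2 p) (hr : Oslp.Run v 2 p) (l : ℕ × ℕ) :
    ContinuousAt (fun ε => yy v p ε l) 0 := by
  unfold yy
  by_cases h : l.2 < 3
  · simp only [if_pos h]
    exact continuousAt_const
  · simp only [if_neg h]
    have hB := BB_range hp hr (l.2 - 3)
    rw [Nat.sub_add_cancel (by omega)] at hB
    split
    · exact continuousAt_const
    · rename_i q hq
      split_ifs
      · exact continuousAt_const
      · refine ContinuousAt.div (by fun_prop) (by fun_prop) (by norm_num)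
      · refine ContinuousAt.div (by fun_prop) (by fun_prop) ?_
        rw [mul_zero, zero_mul, zero_mul, add_zero]
        linarith [hB.1]
      · exact continuousAt_const

theorem zz_cont (hp : WF 2 p) (hr : Oslp.Run v 2 p) (l : ℕ × ℕ) :
    ContinuousAt (fun ε => zz v p ε l) 0 := by
  unfold zz
  by_cases h : l.2 < 3
  · simp only [if_pos h]
    exact continuousAt_const
  · simp only [if_neg h]
    have hB := BB_range hp hr (l.2 - 3)
    rw [Nat.sub_add_cancel (by omega)] at hB
    split
    · exact continuousAt_const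
    · rename_i q hq
      split_ifs
      · exact continuousAt_const
      · refine ContinuousAt.div (by fun_prop) (by fun_prop) (by norm_num)
      · refine ContinuousAt.div (by fun_prop) (by fun_prop) ?_
        rw [mul_zero, zero_mul, zero_mul, add_zero]
        linarith [hB.1]
      · exact continuousAt_const

theorem BB_add {m : ℕ} {q : ℕ × ℕ × ℕ × ℕ} (h : p[m]? = some (some q)) (h0 : q.1 = 0) :
    BB v p (m + 3) = 1 := by
  unfold BB
  rw [qq_eq p h]
  simp only [if_pos h0]

/-- The values of the coefficients of a line for `ε = 0`. -/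
theorem line_zero {m : ℕ} {q : ℕ × ℕ × ℕ × ℕ} (h : p[m]? = some (some q)) (n : ℕ) :
    (q.1 = 0 → yy v p 0 (n, m + 3) = 10 / 13 ∧ zz v p 0 (n, m + 3) = 10 / 13) ∧
    (q.1 ≠ 0 → n = 0 → yy v p 0 (n, m + 3) = 3 / 2 * BB v p (m + 3) / (9 / 10 * BB v p (m + 3) + 7 / 10)
      ∧ zz v p 0 (n, m + 3) = 1 / (9 / 10 * BB v p (m + 3) + 7 / 10)) ∧
    (q.1 ≠ 0 → n ≠ 0 → yy v p 0 (n, m + 3) = 15 / 16 ∧ zz v p 0 (n, m + 3) = 5 / 8) := by
  have h3 : ¬ m + 3 < 3 := by omega
  unfold yy zz
  simp only [if_neg h3, qq_eq p h]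
  refine ⟨fun h0 => ?_, fun h0 hn => ?_, fun h0 hn => ?_⟩
  · simp only [if_pos h0]
    constructor
    · split_ifs <;> norm_num
    · split_ifs <;> norm_num
  · simp only [if_neg h0, if_pos hn]
    constructor <;> simp
  · simp only [if_neg h0, if_neg hn, and_self]

theorem ww_node (m : ℕ) : ww v p (m + 3) = (7 + BB v p (m + 3)) / 10 := by
  unfold ww
  rw [if_neg (by omega)]

theorem line_facts (hp : WF 2 p) (hr : Oslp.Run v 2 p) {l : ℕ × ℕ} (hl : l ∈ (net p).lines) :
    l.1 < 3 ∧ 0 < yy v p 0 l ∧ yy v p 0 l ≤ 15 / 16 ∧ 0 < zz v p 0 l ∧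
      (l.2 < 3 → zz v p 0 l = 5 / 6) ∧
      (3 ≤ l.2 → ww v p l.2 * zz v p 0 l < 1 ∧ 7 / 10 * zz v p 0 l < 1) := by
  rw [mem_lines] at hl
  rcases hl with rfl | rfl | ⟨m, q, h, hl⟩
  · refine ⟨by norm_num, ?_, ?_, ?_, fun _ => rfl, fun h => absurd h (by norm_num)⟩ <;>
      simp [yy, zz] <;> norm_num
  · refine ⟨by norm_num, ?_, ?_, ?_, fun _ => rfl, fun h => absurd h (by norm_num)⟩ <;>
      simp [yy, zz] <;> norm_num
  · have hs := sr_range q
    have hl' : l = (l.1, m + 3) ∧ l.1 < 3 := by
      rcases hl with rfl | rfl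
      · exact ⟨rfl, by norm_num⟩
      · exact ⟨rfl, by simp only; omega⟩
    obtain ⟨hl1, hl2⟩ := hl'
    obtain ⟨B0, B1⟩ := BB_range hp hr m
    obtain ⟨f1, f2, f3⟩ := line_zero (v := v) h l.1
    have hw := ww_node (v := v) (p := p) m
    have hl3 : l.2 = m + 3 := by rw [hl1]
    rw [hl1]
    simp only
    refine ⟨hl2, ?_⟩
    rw [hw]
    set B := BB v p (m + 3) with hB
    have hd : 0 < 9 / 10 * B + 7 / 10 := by linarith
    by_cases h0 : q.1 = 0
    · obtain ⟨g1, g2⟩ := f1 h0
      have hB1 : B = 1 := BB_add h h0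
      rw [g1, g2, hB1]
      refine ⟨by norm_num, by norm_num, by norm_num, fun h => ?_, fun _ => by norm_num⟩
      omega
    · by_cases hn : l.1 = 0
      · obtain ⟨g1, g2⟩ := f2 h0 hn
        rw [g1, g2]
        refine ⟨by positivity, ?_, by positivity, fun h => ?_, fun _ => ⟨?_, ?_⟩⟩
        · rw [div_le_iff₀ hd]
          linarith
        · omega
        · rw [mul_one_div, div_lt_one hd]
          linarith
        · rw [mul_one_div, div_lt_one hd]
          linarith
      · obtain ⟨g1, g2⟩ := f3 h0 hn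
        rw [g1, g2]
        refine ⟨by norm_num, by norm_num, by norm_num, fun h => ?_, fun _ => ⟨by linarith, by norm_num⟩⟩
        omega

theorem zz_prod (hp : WF 2 p) (hr : Oslp.Run v 2 p) {m : ℕ} {q : ℕ × ℕ × ℕ × ℕ}
    (h : p[m]? = some (some q)) : zz v p 0 (0, m + 3) * zz v p 0 (sr q, m + 3) < 1 := by
  obtain ⟨B0, B1⟩ := BB_range hp hr m
  obtain ⟨f1, f2, -⟩ := line_zero (v := v) h 0
  obtain ⟨g1, -, g3⟩ := line_zero (v := v) h (sr q)
  by_cases h0 : q.1 = 0
  · rw [(f1 h0).2, (g1 h0).2]
    norm_num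
  · have hs : sr q ≠ 0 := by
      have := sr_range q
      omega
    rw [(f2 h0 rfl).2, (g3 h0 hs).2, one_div_mul_eq_div, div_lt_one (by linarith)]
    linarith

theorem strict_zero (hp : WF 2 p) (hr : Oslp.Run v 2 p) :
    Net.Strict (net p) (aa v p 0) (gg v p) (ww v p) (yy v p 0) (zz v p 0) := by
  have hnode : ∀ n ∈ (net p).nodes, n < 3 ∨ ∃ m, n = m + 3 := by
    intro n _
    rcases lt_or_ge n 3 with h | h
    · exact Or.inl h
    · exact Or.inr ⟨n - 3, by omega⟩
  have hcls : ∀ c ∈ (net p).classes, c.1 < 3 ∨ ∃ m, c.1 = m + 3 := by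
    intro c _
    rcases lt_or_ge c.1 3 with h | h
    · exact Or.inl h
    · exact Or.inr ⟨c.1 - 3, by omega⟩
  have hw : ∀ n, n < 3 → ww v p n = 9 / 10 := fun n hn => if_pos hn
  have hg : ∀ n, n < 3 → gg v p n = 7 / 10 := fun n hn => if_pos hn
  have hg' : ∀ m, 0 < gg v p (m + 3) ∧ gg v p (m + 3) ^ 2 = 51 / 100 - 35 / 1000 * BB v p (m + 3) := by
    intro m
    obtain ⟨B0, B1⟩ := BB_range hp hr m
    unfold gg
    rw [if_neg (by omega)]
    exact ⟨Real.sqrt_pos.2 (by linarith), Real.sq_sqrt (by linarith)⟩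
  have ha : ∀ c : ℕ × ℕ, c.1 < 3 → aa v p 0 c = 3 / 5 := fun c hc => by rw [aa_zero, if_pos hc]
  have ha' : ∀ c : ℕ × ℕ, ¬ c.1 < 3 → aa v p 0 c = 7 / 10 := fun c hc => by rw [aa_zero, if_neg hc]
  refine ⟨?_, ?_, ?_, ?_, ?_, ?_, ?_, ?_, ?_⟩
  · intro n hn
    rcases hnode n hn with h | ⟨m, rfl⟩
    · rw [hg n h]
      norm_num
    · exact (hg' m).1
  · intro n hn
    rcases hnode n hn with h | ⟨m, rfl⟩
    · rw [hw n h]
      norm_num
    · obtain ⟨B0, B1⟩ := BB_range hp hr m
      rw [ww_node]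
      constructor <;> linarith
  · intro c hc
    rcases hcls c hc with h | ⟨m, h⟩
    · rw [hw _ h, ha c h]
      norm_num
    · obtain ⟨B0, B1⟩ := BB_range hp hr m
      rw [ha' c (by omega), h, ww_node]
      constructor <;> linarith
  · intro c hc
    rcases hcls c hc with h | ⟨m, h⟩
    · rw [hw _ h, ha c h, hg _ h]
      norm_num
    · obtain ⟨B0, B1⟩ := BB_range hp hr m
      rw [ha' c (by omega), h, ww_node, (hg' m).2]
      linarith
  · intro c hc d hd hcd
    rcases hcls c hc with h | ⟨m, h⟩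
    · rw [ha c h, ha d (by omega), hg _ h]
      norm_num
    · obtain ⟨B0, B1⟩ := BB_range hp hr m
      rw [ha' c (by omega), ha' d (by omega), h, (hg' m).2]
      linarith
  · intro l hl
    obtain ⟨h1, h2, h3, h4, h5, h6⟩ := line_facts hp hr hl
    refine ⟨h2, h4, ?_, ?_⟩
    · rw [hw _ h1]
      linarith
    · rcases lt_or_ge l.2 3 with h | h
      · rw [hw _ h, h5 h]
        norm_num
      · exact (h6 h).1
  · intro l hl c hc
    obtain ⟨h1, h2, h3, h4, h5, h6⟩ := line_facts hp hr hl
    refine ⟨fun h => ?_, fun h => ?_⟩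
    · rw [ha c (by omega)]
      linarith
    · rcases lt_or_ge l.2 3 with h' | h'
      · rw [ha c (by omega), h5 h']
        norm_num
      · rw [ha' c (by omega), mul_comm]
        exact (h6 h').2
  · intro l hl l' hl' hne
    obtain ⟨h1, h2, h3, h4, h5, h6⟩ := line_facts hp hr hl
    obtain ⟨h1', h2', h3', h4', h5', h6'⟩ := line_facts hp hr hl'
    refine ⟨fun _ => by nlinarith, fun h => ?_, fun h => ?_⟩
    · rw [h5' (by omega)]
      linarith
    · rcases lt_or_ge l.2 3 with h' | h'
      · rw [h5 h', h5' (by omega)]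
        norm_num
      · rw [mem_lines] at hl hl'
        rcases hl with rfl | rfl | ⟨m, q, hq, hl⟩
        · exact absurd h' (by norm_num)
        · exact absurd h' (by norm_num)
        · rcases hl' with rfl | rfl | ⟨m', q', hq', hl'⟩
          · simp only at h
            omega
          · simp only at h
            omega
          · have hm : m' = m := by
              rcases hl with rfl | rfl <;> rcases hl' with rfl | rfl <;> simp only at h <;> omega
            subst hm
            obtain rfl := get_unique hq hq'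
            rcases hl with rfl | rfl <;> rcases hl' with rfl | rfl
            · exact absurd rfl hne
            · exact zz_prod hp hr hq
            · rw [mul_comm]
              exact zz_prod hp hr hq
            · exact absurd rfl hne
  · intro c hc d hd c' hc' d' hd' hl h1 h2
    have h3 := (line_facts hp hr hl).1
    simp only at h3
    rw [ha c h3, ha c' (by omega)]
    rcases lt_or_ge d.1 3 with h | h
    · rw [ha d h, ha d' (by omega)]
      norm_num
    · rw [ha' d (by omega), ha' d' (by omega)]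
      norm_num

end Pool.Agent.NPC.ER.CdV
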