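import Pool.Agent.CdV.NetD

/-!
# Completeness of the network of a program: the relations
-/

namespace Pool.Agent.NPC.ER.CdV

open Finset Filter Topology Pool.Agent.NPC.ER.Oslp

variable {v : ℕ → ℝ} {p : List Ins}

theorem rel_add (hr : Oslp.Run v 2 p) {m : ℕ} {q : ℕ × ℕ × ℕ × ℕ}
    (h : p[m]? = some (some q)) (h0 : q.1 = 0) {t : ℕ} (ht : t < 3) :
    v (al m q t) + v (be m q t) = v q.2.2.1 + v q.2.2.2 := by
  have h1 := (run_rel hr h).1 h0
  have : t = 0 ∨ t = 1 ∨ t = 2 := by omega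
  rcases this with rfl | rfl | rfl <;>
    simp only [al, be, if_pos h0, if_true, one_ne_zero, if_false, OfNat.ofNat_ne_zero,
      OfNat.ofNat_ne_one]
  · exact h1
  · rw [add_comm]
    exact h1

theorem rel_mul (hp : WF 2 p) (hr : Oslp.Run v 2 p) {m : ℕ} {q : ℕ × ℕ × ℕ × ℕ}
    (h : p[m]? = some (some q)) (h0 : q.1 ≠ 0) {t : ℕ} (ht : t < 3) :
    v (be m q t) - v q.1 = BB v p (m + 3) * (v (al m q t) - v q.1) := by
  have h1 := (run_rel hr h).2 (by omega)
  obtain ⟨w0, w1, w2, w3, w4, w5⟩ := wfi_get hp h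
  have k1 := run_mono hr q.1 q.2.2.2 (by omega) (by omega) (by omega)
  have k2 := run_mono hr q.2.2.2 (m + 2) (by omega) (by omega) (by omega)
  have k3 : v (m + 2) - v q.1 ≠ 0 := by
    have : 0 < v (m + 2) - v q.1 := by linarith
    exact this.ne'
  have hB : BB v p (m + 3) = (v q.2.2.2 - v q.1) / (v (m + 2) - v q.1) := by
    unfold BB
    rw [qq_eq p h]
    simp only [if_neg h0]
    rfl
  rw [hB]
  have : t = 0 ∨ t = 1 ∨ t = 2 := by omega
  rcases this with rfl | rfl | rfl <;>
    simp only [al, be, if_neg h0, if_true, one_ne_zero, if_false, OfNat.ofNat_ne_zero,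
      OfNat.ofNat_ne_one]
  · rw [div_mul_cancel₀ _ k3]
  · rw [div_mul_eq_mul_div, eq_div_iff k3]
    linear_combination h1
  · ring

theorem aa_bus {ε : ℝ} {b k : ℕ} (hb : b < 3) :
    aa v p ε (b, k) = if b = 1 then 3 / 5 + ε * v k else 3 / 5 - ε * v k := by
  unfold aa
  simp only [if_pos hb]

theorem aa_node {ε : ℝ} {m : ℕ} {q : ℕ × ℕ × ℕ × ℕ} (h : p[m]? = some (some q)) (t : ℕ) :
    aa v p ε (m + 3, t) = if q.1 = 0 then 7 / 10 + ε * v (al m q t)
      else 7 / 10 + 3 / 2 * ε * v (be m q t) := by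
  unfold aa
  have : ¬ m + 3 < 3 := by omega
  simp only [if_neg this, qq_eq p h, Nat.add_sub_cancel]

theorem point_rel (hp : WF 2 p) (hr : Oslp.Run v 2 p) {c d : ℕ × ℕ} (h : (c, d) ∈ (net p).points) :
    ∀ᶠ ε in 𝓝 (0 : ℝ), yy v p ε (c.1, d.1) * aa v p ε c + zz v p ε (c.1, d.1) * aa v p ε d = 1 := by
  rw [mem_points] at h
  rcases h with ⟨b, k, hb, hk, hk', rfl, rfl⟩ | ⟨m, q, t, h, ht, hc, rfl⟩
  · refine Eventually.of_forall fun ε => ?_
    rw [aa_bus (by omega), aa_bus (by omega)]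
    unfold yy zz
    have h3 : b + 1 < 3 := by omega
    simp only [if_pos h3]
    have : b = 0 ∨ b = 1 := by omega
    rcases this with rfl | rfl <;> norm_num <;> ring
  · have h3 : ¬ m + 3 < 3 := by omega
    obtain ⟨B0, B1⟩ := BB_range hp hr m
    by_cases h0 : q.1 = 0
    · have hrel := rel_add hr h h0 ht
      rcases hc with rfl | rfl
      · refine Eventually.of_forall fun ε => ?_
        rw [aa_bus (by omega), aa_node h]
        unfold yy zz
        simp only [if_neg h3, qq_eq p h, if_pos h0, if_true, if_neg (show ¬ (0 : ℕ) = 1 by omega)]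
        ring
      · have hs : sr q = 1 := by
          unfold sr
          rw [if_pos h0]
        rw [hs]
        have hev : ∀ᶠ ε in 𝓝 (0 : ℝ), 13 / 10 + ε * (v q.2.2.1 + v q.2.2.2) ≠ 0 := by
          refine ContinuousAt.eventually_ne (by fun_prop) ?_
          norm_num
        filter_upwards [hev] with ε hε
        rw [aa_bus (by omega), aa_node h]
        unfold yy zz
        simp only [if_neg h3, qq_eq p h, if_pos h0, if_true, if_neg (show ¬ (1 : ℕ) = 0 by omega)]
        rw [← mul_add, one_div, inv_mul_eq_one₀ hε]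
        linear_combination (-ε) * hrel
    · have hrel := rel_mul hp hr h h0 ht
      rcases hc with rfl | rfl
      · have hev : ∀ᶠ ε in 𝓝 (0 : ℝ), 9 / 10 * BB v p (m + 3) + 7 / 10 +
            3 / 2 * ε * (1 - BB v p (m + 3)) * v q.1 ≠ 0 := by
          refine ContinuousAt.eventually_ne (by fun_prop) ?_
          rw [mul_zero, zero_mul, zero_mul, add_zero]
          linarith
        filter_upwards [hev] with ε hε
        rw [aa_bus (by omega), aa_node h]
        unfold yy zz
        simp only [if_neg h3, qq_eq p h, if_neg h0, if_true, if_neg (show ¬ (0 : ℕ) = 1 by omega)]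
        obtain ⟨D, hD⟩ : ∃ D, 9 / 10 * BB v p (m + 3) + 7 / 10 +
          3 / 2 * ε * (1 - BB v p (m + 3)) * v q.1 = D := ⟨_, rfl⟩
        rw [hD] at hε ⊢
        rw [div_mul_eq_mul_div, one_div_mul_eq_div, ← add_div, div_eq_one_iff_eq hε, ← hD]
        linear_combination (3 / 2 * ε) * hrel
      · have hs : sr q = 2 := by
          unfold sr
          rw [if_neg h0]
        rw [hs]
        refine Eventually.of_forall fun ε => ?_
        rw [aa_bus (by omega), aa_node h]
        unfold yy zz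
        simp only [if_neg h3, qq_eq p h, if_neg h0, if_neg (show ¬ (2 : ℕ) = 0 by omega),
          if_neg (show ¬ (2 : ℕ) = 1 by omega)]
        ring

theorem good_eventually (hp : WF 2 p) (hr : Oslp.Run v 2 p) : ∀ᶠ ε in 𝓝[>] (0 : ℝ),
    Net.Good (net p) (aa v p ε) (gg v p) (ww v p) (yy v p ε) (zz v p ε) := by
  have h1 : ∀ᶠ ε in 𝓝[>] (0 : ℝ), Net.Strict (net p) (aa v p ε) (gg v p) (ww v p) (yy v p ε)
      (zz v p ε) :=
    (Net.strict_eventually (fun c _ => aa_cont c) (fun l _ => yy_cont hp hr l)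
      (fun l _ => zz_cont hp hr l) (strict_zero hp hr)).filter_mono nhdsWithin_le_nhds
  have h2 : ∀ᶠ ε in 𝓝[>] (0 : ℝ), ∀ π ∈ (net p).points, yy v p ε (π.1.1, π.2.1) * aa v p ε π.1 +
      zz v p ε (π.1.1, π.2.1) * aa v p ε π.2 = 1 :=
    (Net.ev_list fun π hπ => point_rel (c := π.1) (d := π.2) hp hr hπ).filter_mono
      nhdsWithin_le_nhds
  filter_upwards [h1, h2, self_mem_nhdsWithin] with ε h1 h2 h3
  refine h1.good (fun c d h => h2 (c, d) h) (fun c d h => ?_)
  rw [mem_orders] at h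
  obtain ⟨m, hm, rfl, rfl⟩ := h
  rw [aa_bus (by omega), aa_bus (by omega)]
  simp only [if_neg (show ¬ (0 : ℕ) = 1 by omega)]
  have h4 := run_mono hr (m + 1) (m + 2) (by omega) (by omega) (by omega)
  have h5 : 0 < ε := h3
  nlinarith

end Pool.Agent.NPC.ER.CdV
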