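import Pool.Agent.CdV.NetE

/-!
# Completeness of the network of a program: the stress condition
-/

namespace Pool.Agent.NPC.ER.CdV

open Finset Filter Topology Pool.Agent.NPC.ER.Oslp

variable {v : ℕ → ℝ} {p : List Ins}

theorem sum_pts {β : Type} [DecidableEq β] {P : List β} {f : β → ℝ} (L : List β) (hnd : L.Nodup)
    (hsub : ∀ x ∈ L, x ∈ P) (hz : ∀ x ∈ P, x ∉ L → f x = 0) :
    ∑ x ∈ P.toFinset, f x = (L.map f).sum := by
  rw [← List.sum_toFinset f hnd]
  symm
  refine Finset.sum_subset (fun x hx => ?_) (fun x hx hx' => ?_)
  · exact List.mem_toFinset.2 (hsub x (List.mem_toFinset.1 hx))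
  · exact hz x (List.mem_toFinset.1 hx) (fun h => hx' (List.mem_toFinset.2 h))

/-- The three-point relations of a stress. -/
theorem three {x0 x1 x2 a0 a1 a2 : ℝ} (h1 : x0 + x1 + x2 = 0) (h2 : x0 * a0 + x1 * a1 + x2 * a2 = 0) :
    x0 * (a0 - a2) = x1 * (a2 - a1) := by
  linear_combination h2 - a2 * h1

theorem add_final {x x0 x1 x1' y0 ya z0 yb za zb d1 d2 : ℝ} (hy0 : 0 < y0) (hya : 0 < ya)
    (hz0 : 0 < z0) (hyb : 0 < yb) (hza : 0 < za) (hzb : 0 < zb) (hd1 : d1 < 0) (hd2 : d2 < 0)
    (h0 : x * y0 + x0 * ya = 0) (h1 : x * z0 + x1' * yb = 0) (h2 : x1 * za + x1' * zb = 0)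
    (h3 : x0 * d1 = x1 * d2) : x1 = 0 ∧ x0 = 0 ∧ x = 0 := by
  have e1 : x1' = -(x1 * za / zb) := by
    field_simp
    linarith
  have e2 : x = x1 * (za / zb * yb / z0) := by
    rw [e1] at h1
    field_simp at h1 ⊢
    linarith
  have e3 : x0 = x1 * (d2 / d1) := by
    have := hd1.ne
    field_simp
    linarith
  have hk1 : 0 < za / zb * yb / z0 := by positivity
  have hk2 : 0 < d2 / d1 := div_pos_of_neg_of_neg hd2 hd1
  have h4 : x1 * (za / zb * yb / z0 * y0 + d2 / d1 * ya) = 0 := by
    rw [e2, e3] at h0
    linarith
  have h5 : x1 = 0 := (mul_eq_zero.1 h4).resolve_right (by positivity)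
  refine ⟨h5, ?_, ?_⟩
  · rw [e3, h5, zero_mul]
  · rw [e2, h5, zero_mul]

theorem stress_zero (hp : WF 2 p) (hr : Oslp.Run v 2 p) {ε : ℝ} (hε : 0 < ε)
    (hG : Net.Good (net p) (aa v p ε) (gg v p) (ww v p) (yy v p ε) (zz v p ε))
    {s : (ℕ × ℕ) × (ℕ × ℕ) → ℝ} (hs : Net.Stress (net p) (aa v p ε) (yy v p ε) (zz v p ε) s) :
    ∀ π ∈ (net p).points, s π = 0 := by
  obtain ⟨hs1, hs2, hs3⟩ := hs
  set Y := yy v p ε with hY
  set Z := zz v p ε with hZ
  set A := aa v p ε with hA
  have pY : ∀ l ∈ (net p).lines, 0 < Y l := fun l hl => (hG.a4 l hl).1
  have pZ : ∀ l ∈ (net p).lines, 0 < Z l := fun l hl => (hG.a4 l hl).2.1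
  have hAlt : ∀ i j, 1 ≤ i → i < j → j ≤ p.length + 1 → A (0, j) < A (0, i) := by
    intro i j hi hij hj
    rw [hA, aa_bus (by omega), aa_bus (by omega)]
    simp only [if_neg (show ¬ (0 : ℕ) = 1 by omega)]
    have := run_mono hr i j hi hij hj
    nlinarith
  have l01 : ((0 : ℕ), (1 : ℕ)) ∈ (net p).lines := mem_lines.2 (Or.inl rfl)
  have l12 : ((1 : ℕ), (2 : ℕ)) ∈ (net p).lines := mem_lines.2 (Or.inr (Or.inl rfl))
  have lA : ∀ {m q}, p[m]? = some (some q) → ((0 : ℕ), m + 3) ∈ (net p).lines := fun {m q} h =>
    mem_lines.2 (Or.inr (Or.inr ⟨m, q, h, Or.inl rfl⟩))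
  have lB : ∀ {m q}, p[m]? = some (some q) → (sr q, m + 3) ∈ (net p).lines := fun {m q} h =>
    mem_lines.2 (Or.inr (Or.inr ⟨m, q, h, Or.inr rfl⟩))
  -- the claim for an index
  let C : ℕ → Prop := fun k => s ((0, k), (1, k)) = 0 ∧ s ((1, k), (2, k)) = 0 ∧
    ∀ m q, p[m]? = some (some q) → m + 2 = k → ∀ t, t < 3 →
      s ((0, al m q t), (m + 3, t)) = 0 ∧ s ((sr q, be m q t), (m + 3, t)) = 0
  have main : ∀ j k, 1 ≤ k → k ≤ p.length + 1 → p.length + 1 - k = j → C k := by
    intro j
    induction j using Nat.strong_induction_on with
    | _ j ih =>
    intro k hk1 hk2 hj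
    have IH : ∀ k', k < k' → k' ≤ p.length + 1 → C k' := fun k' h1 h2 =>
      ih (p.length + 1 - k') (by omega) k' (by omega) h2 rfl
    have IHX : ∀ m q, p[m]? = some (some q) → k < m + 2 → ∀ t, t < 3 →
        s ((0, al m q t), (m + 3, t)) = 0 ∧ s ((sr q, be m q t), (m + 3, t)) = 0 := by
      intro m q h h' t ht
      have hm := (wfi_get hp h).1
      exact (IH (m + 2) h' (by omega)).2.2 m q h rfl t ht
    have T0m : ((0, k), (1, k)) ∈ (net p).points :=
      mem_points.2 (Or.inl ⟨0, k, by omega, hk1, hk2, rfl, rfl⟩)
    have T1m : ((1, k), (2, k)) ∈ (net p).points :=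
      mem_points.2 (Or.inl ⟨1, k, by omega, hk1, hk2, rfl, rfl⟩)
    -- class (2, k)
    have hT1 : s ((1, k), (2, k)) = 0 := by
      have h1 := hs1 (2, k) (mem_classes.2 (Or.inl ⟨2, k, by omega, hk1, hk2, rfl⟩))
      rw [sum_pts [((1, k), (2, k))] (by simp) (by simpa using T1m)] at h1
      · simp only [List.map_cons, List.map_nil, List.sum_cons, List.sum_nil, Prod.mk.injEq,
          OfNat.one_ne_ofNat, false_and, if_false, if_true, zero_add, add_zero] at h1
        exact (mul_eq_zero.1 h1).resolve_right (pZ _ l12).ne'
      · rintro ⟨c, d⟩ hcd hne
        rw [mem_points] at hcd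
        rcases hcd with ⟨b, k', hb, hk, hk', rfl, rfl⟩ | ⟨m, q, t, h, ht, hc, rfl⟩
        · have e1 : ¬ (((b, k') : ℕ × ℕ) = (2, k)) := by
            simp only [Prod.mk.injEq]
            omega
          have e2 : ¬ (((b + 1, k') : ℕ × ℕ) = (2, k)) := by
            simp only [Prod.mk.injEq]
            rintro ⟨h, rfl⟩
            obtain rfl : b = 1 := by omega
            exact hne (by simp)
          simp only [if_neg e1, if_neg e2, add_zero]
        · have e2 : ¬ (((m + 3, t) : ℕ × ℕ) = (2, k)) := by
            simp only [Prod.mk.injEq]
            omega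
          simp only [if_neg e2, add_zero]
          rcases hc with rfl | rfl
          · rw [if_neg]
            simp
          · split_ifs with h2
            · simp only [Prod.mk.injEq] at h2
              have hbr := be_range hp h t
              have hlt : k < m + 2 := by
                obtain ⟨w0, w1, w2, w3, w4, w5⟩ := wfi_get hp h
                have h0 : q.1 ≠ 0 := by
                  intro h0
                  rw [sr, if_pos h0] at h2
                  omega
                have h3 := h2.2
                unfold be at h3
                simp only [if_neg h0] at h3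
                split_ifs at h3 <;> omega
              rw [(IHX m q h hlt t ht).2, zero_mul]
            · rfl
    by_cases hrel : ∃ m q, p[m]? = some (some q) ∧ m + 2 = k
    · obtain ⟨m, q, hq, hmk⟩ := hrel
      subst hmk
      obtain ⟨w0, w1, w2, w3, w4, w5⟩ := wfi_get hp hq
      have Xm : ∀ t, t < 3 → ((0, al m q t), (m + 3, t)) ∈ (net p).points := fun t ht =>
        mem_points.2 (Or.inr ⟨m, q, t, hq, ht, Or.inl rfl, rfl⟩)
      have Xm' : ∀ t, t < 3 → ((sr q, be m q t), (m + 3, t)) ∈ (net p).points := fun t ht =>
        mem_points.2 (Or.inr ⟨m, q, t, hq, ht, Or.inr rfl, rfl⟩)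
      have al0 : al m q 0 = m + 2 := by simp [al]
      -- class (0, m + 2)
      have hc0 : s ((0, m + 2), (1, m + 2)) * Y (0, 1) + s ((0, m + 2), (m + 3, 0)) * Y (0, m + 3)
          = 0 := by
        have h1 := hs1 (0, m + 2) (mem_classes.2 (Or.inl ⟨0, m + 2, by omega, hk1, hk2, rfl⟩))
        rw [sum_pts [((0, m + 2), (1, m + 2)), ((0, m + 2), (m + 3, 0))] (by simp) (by
          intro x hx
          simp only [List.mem_cons, List.not_mem_nil, or_false] at hx
          rcases hx with rfl | rfl
          · exact T0m
          · have := Xm 0 (by omega)
            rwa [al0] at this)] at h1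
        · have e3 : ¬ (((1, m + 2) : ℕ × ℕ) = (0, m + 2)) := by simp
          have e4 : ¬ (((m + 3, 0) : ℕ × ℕ) = (0, m + 2)) := by simp
          simp only [List.map_cons, List.map_nil, List.sum_cons, List.sum_nil, if_true, if_neg e3,
            if_neg e4, add_zero] at h1
          exact h1
        · rintro ⟨c, d⟩ hcd hne
          rw [mem_points] at hcd
          rcases hcd with ⟨b, k', hb, hk, hk', rfl, rfl⟩ | ⟨m', q', t, h, ht, hc, rfl⟩
          · have e1 : ¬ (((b, k') : ℕ × ℕ) = (0, m + 2)) := by
              simp only [Prod.mk.injEq]
              rintro ⟨rfl, rfl⟩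
              exact hne (by simp)
            have e2 : ¬ (((b + 1, k') : ℕ × ℕ) = (0, m + 2)) := by
              simp only [Prod.mk.injEq]
              omega
            simp only [if_neg e1, if_neg e2, add_zero]
          · have e2 : ¬ (((m' + 3, t) : ℕ × ℕ) = (0, m + 2)) := by
              simp only [Prod.mk.injEq]
              omega
            simp only [if_neg e2, add_zero]
            rcases hc with rfl | rfl
            · split_ifs with h2
              · simp only [Prod.mk.injEq, true_and] at h2
                have har := al_range hp h t
                rcases eq_or_lt_of_le (show m ≤ m' by omega) with rfl | hlt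
                · obtain rfl := get_unique hq h
                  have ht0 := al_inj hp hq ht (show 0 < 3 by omega) (h2.trans al0.symm)
                  subst ht0
                  exact absurd (by simp [h2]) hne
                · rw [(IHX m' q' h (by omega) t ht).1, zero_mul]
              · rfl
            · rw [if_neg]
              simp only [Prod.mk.injEq]
              have := sr_range q'
              omega
      -- the line (0, m + 3)
      have hl1 : s ((0, al m q 0), (m + 3, 0)) + s ((0, al m q 1), (m + 3, 1)) +
          s ((0, al m q 2), (m + 3, 2)) = 0 := by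
        have h1 := hs2 _ (lA hq)
        rw [sum_pts [((0, al m q 0), (m + 3, 0)), ((0, al m q 1), (m + 3, 1)),
          ((0, al m q 2), (m + 3, 2))] (by simp) (by
          intro x hx
          simp only [List.mem_cons, List.not_mem_nil, or_false] at hx
          rcases hx with rfl | rfl | rfl
          · exact Xm 0 (by omega)
          · exact Xm 1 (by omega)
          · exact Xm 2 (by omega))] at h1
        · simp only [List.map_cons, List.map_nil, List.sum_cons, List.sum_nil, if_true,
            add_zero] at h1
          linarith
        · rintro ⟨c, d⟩ hcd hne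
          rw [mem_points] at hcd
          split_ifs with h2
          · simp only [Prod.mk.injEq] at h2
            rcases hcd with ⟨b, k', hb, hk, hk', rfl, rfl⟩ | ⟨m', q', t, h, ht, hc, rfl⟩
            · simp only at h2
              omega
            · have hm : m' = m := by
                have := h2.2
                simp only at this
                omega
              subst hm
              obtain rfl := get_unique hq h
              rcases hc with rfl | rfl
              · have : t = 0 ∨ t = 1 ∨ t = 2 := by omega
                rcases this with rfl | rfl | rfl <;> exact absurd (by simp) hne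
              · have := sr_range q
                simp only at h2
                omega
          · rfl
      have hl2 : s ((0, al m q 0), (m + 3, 0)) * A (0, al m q 0) +
          s ((0, al m q 1), (m + 3, 1)) * A (0, al m q 1) +
          s ((0, al m q 2), (m + 3, 2)) * A (0, al m q 2) = 0 := by
        have h1 := hs3 _ (lA hq)
        rw [sum_pts [((0, al m q 0), (m + 3, 0)), ((0, al m q 1), (m + 3, 1)),
          ((0, al m q 2), (m + 3, 2))] (by simp) (by
          intro x hx
          simp only [List.mem_cons, List.not_mem_nil, or_false] at hx
          rcases hx with rfl | rfl | rfl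
          · exact Xm 0 (by omega)
          · exact Xm 1 (by omega)
          · exact Xm 2 (by omega))] at h1
        · simp only [List.map_cons, List.map_nil, List.sum_cons, List.sum_nil, if_true,
            add_zero] at h1
          linarith
        · rintro ⟨c, d⟩ hcd hne
          rw [mem_points] at hcd
          split_ifs with h2
          · simp only [Prod.mk.injEq] at h2
            rcases hcd with ⟨b, k', hb, hk, hk', rfl, rfl⟩ | ⟨m', q', t, h, ht, hc, rfl⟩
            · simp only at h2
              omega
            · have hm : m' = m := by
                have := h2.2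
                simp only at this
                omega
              subst hm
              obtain rfl := get_unique hq h
              rcases hc with rfl | rfl
              · have : t = 0 ∨ t = 1 ∨ t = 2 := by omega
                rcases this with rfl | rfl | rfl <;> exact absurd (by simp) hne
              · have := sr_range q
                simp only at h2
                omega
          · rfl
      have hthree := three hl1 hl2
      -- the classes (m + 3, t)
      have hd : ∀ t, t < 3 → s ((0, al m q t), (m + 3, t)) * Z (0, m + 3) +
          s ((sr q, be m q t), (m + 3, t)) * Z (sr q, m + 3) = 0 := by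
        intro t ht
        have h1 := hs1 (m + 3, t) (mem_classes.2 (Or.inr ⟨m, q, t, hq, ht, rfl⟩))
        have hsr := sr_range q
        rw [sum_pts [((0, al m q t), (m + 3, t)), ((sr q, be m q t), (m + 3, t))] (by
          simp only [List.nodup_cons, List.mem_singleton, Prod.mk.injEq, List.not_mem_nil,
            not_false_eq_true, List.nodup_nil, and_true]
          omega) (by
          intro x hx
          simp only [List.mem_cons, List.not_mem_nil, or_false] at hx
          rcases hx with rfl | rfl
          · exact Xm t ht
          · exact Xm' t ht)] at h1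
        · have e3 : ¬ (((0, al m q t) : ℕ × ℕ) = (m + 3, t)) := by
            simp only [Prod.mk.injEq]
            omega
          have e4 : ¬ (((sr q, be m q t) : ℕ × ℕ) = (m + 3, t)) := by
            simp only [Prod.mk.injEq]
            omega
          simp only [List.map_cons, List.map_nil, List.sum_cons, List.sum_nil, if_true, if_neg e3,
            if_neg e4, add_zero, zero_add] at h1
          exact h1
        · rintro ⟨c, d⟩ hcd hne
          rw [mem_points] at hcd
          rcases hcd with ⟨b, k', hb, hk, hk', rfl, rfl⟩ | ⟨m', q', t', h, ht', hc, rfl⟩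
          · have e1 : ¬ (((b, k') : ℕ × ℕ) = (m + 3, t)) := by
              simp only [Prod.mk.injEq]
              omega
            have e2 : ¬ (((b + 1, k') : ℕ × ℕ) = (m + 3, t)) := by
              simp only [Prod.mk.injEq]
              omega
            simp only [if_neg e1, if_neg e2, add_zero]
          · have e1 : ¬ (c = (m + 3, t)) := by
              have := sr_range q'
              rcases hc with rfl | rfl <;> simp only [Prod.mk.injEq] <;> omega
            have e2 : ¬ (((m' + 3, t') : ℕ × ℕ) = (m + 3, t)) := by
              simp only [Prod.mk.injEq]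
              rintro ⟨h3, rfl⟩
              have hm : m' = m := by omega
              subst hm
              obtain rfl := get_unique hq h
              rcases hc with rfl | rfl <;> exact absurd (by simp) hne
            simp only [if_neg e1, if_neg e2, add_zero]
      have hX' : ∀ t, t < 3 → s ((0, al m q t), (m + 3, t)) = 0 →
          s ((sr q, be m q t), (m + 3, t)) = 0 := by
        intro t ht h1
        have h2 := hd t ht
        rw [h1, zero_mul, zero_add] at h2
        exact (mul_eq_zero.1 h2).resolve_right (pZ _ (lB hq)).ne'
      by_cases h0 : q.1 = 0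
      · -- addition
        have hsr : sr q = 1 := by
          unfold sr
          rw [if_pos h0]
        have be1 : be m q 1 = m + 2 := by simp [be, h0]
        have hc1 : s ((0, m + 2), (1, m + 2)) * Z (0, 1) +
            s ((1, m + 2), (m + 3, 1)) * Y (1, m + 3) = 0 := by
          have h1 := hs1 (1, m + 2) (mem_classes.2 (Or.inl ⟨1, m + 2, by omega, hk1, hk2, rfl⟩))
          rw [sum_pts [((0, m + 2), (1, m + 2)), ((1, m + 2), (m + 3, 1))] (by simp) (by
            intro x hx
            simp only [List.mem_cons, List.not_mem_nil, or_false] at hx
            rcases hx with rfl | rfl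
            · exact T0m
            · have := Xm' 1 (by omega)
              rwa [be1, hsr] at this)] at h1
          · have e3 : ¬ (((0, m + 2) : ℕ × ℕ) = (1, m + 2)) := by simp
            have e4 : ¬ (((m + 3, 1) : ℕ × ℕ) = (1, m + 2)) := by simp
            simp only [List.map_cons, List.map_nil, List.sum_cons, List.sum_nil, if_true,
              if_neg e3, if_neg e4, add_zero, zero_add] at h1
            exact h1
          · rintro ⟨c, d⟩ hcd hne
            rw [mem_points] at hcd
            rcases hcd with ⟨b, k', hb, hk, hk', rfl, rfl⟩ | ⟨m', q', t, h, ht, hc, rfl⟩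
            · have e2 : ¬ (((b + 1, k') : ℕ × ℕ) = (1, m + 2)) := by
                simp only [Prod.mk.injEq]
                rintro ⟨h, rfl⟩
                obtain rfl : b = 0 := by omega
                exact hne (by simp)
              simp only [if_neg e2, add_zero]
              split_ifs with h2
              · simp only [Prod.mk.injEq] at h2
                obtain ⟨rfl, rfl⟩ := h2
                rw [hT1, zero_mul]
              · rfl
            · have e2 : ¬ (((m' + 3, t) : ℕ × ℕ) = (1, m + 2)) := by
                simp only [Prod.mk.injEq]
                omega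
              simp only [if_neg e2, add_zero]
              rcases hc with rfl | rfl
              · rw [if_neg]
                simp
              · split_ifs with h2
                · simp only [Prod.mk.injEq] at h2
                  have hbr := be_range hp h t
                  rcases eq_or_lt_of_le (show m ≤ m' by omega) with rfl | hlt
                  · obtain rfl := get_unique hq h
                    have ht0 := be_inj hp hq ht (show 1 < 3 by omega) (h2.2.trans be1.symm)
                    subst ht0
                    exact absurd (by simp [h2]) hne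
                  · rw [(IHX m' q' h (by omega) t ht).2, zero_mul]
                · rfl
        have a1 : al m q 1 = q.2.1 := by simp [al, h0]
        have a2 : al m q 2 = q.2.2.1 := by simp [al, h0]
        have g1 : A (0, al m q 2) < A (0, al m q 1) := by
          rw [a1, a2]
          exact hAlt _ _ (by omega) (by omega) (by omega)
        have g2 : A (0, al m q 0) < A (0, al m q 2) := by
          rw [al0, a2]
          exact hAlt _ _ (by omega) (by omega) (by omega)
        have hd1 := hd 1 (by omega)
        rw [be1, hsr] at hd1
        rw [al0] at hthree hl1 g2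
        have y01 := pY _ l01
        have z01 := pZ _ l01
        have yA := pY _ (lA hq)
        have zA := pZ _ (lA hq)
        have yB := pY _ (lB hq)
        have zB := pZ _ (lB hq)
        rw [hsr] at yB zB
        obtain ⟨k1, k0, kx⟩ := add_final y01 yA z01 yB zA zB (sub_neg.2 g2) (sub_neg.2 g1) hc0 hc1
          hd1 hthree
        have k2 : s ((0, al m q 2), (m + 3, 2)) = 0 := by
          rw [k0, k1] at hl1
          linarith
        refine ⟨kx, hT1, fun m' q' h' hm t ht => ?_⟩
        obtain rfl : m' = m := by omega
        obtain rfl := get_unique hq h'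
        have hX : s ((0, al m' q t), (m' + 3, t)) = 0 := by
          have : t = 0 ∨ t = 1 ∨ t = 2 := by omega
          rcases this with rfl | rfl | rfl
          · rw [al0]
            exact k0
          · exact k1
          · exact k2
        exact ⟨hX, hX' t ht hX⟩
      · -- multiplication
        have hsr : sr q = 2 := by
          unfold sr
          rw [if_neg h0]
        have kx : s ((0, m + 2), (1, m + 2)) = 0 := by
          have h1 := hs1 (1, m + 2) (mem_classes.2 (Or.inl ⟨1, m + 2, by omega, hk1, hk2, rfl⟩))
          rw [sum_pts [((0, m + 2), (1, m + 2))] (by simp) (by simpa using T0m)] at h1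
          · have e3 : ¬ (((0, m + 2) : ℕ × ℕ) = (1, m + 2)) := by simp
            simp only [List.map_cons, List.map_nil, List.sum_cons, List.sum_nil, if_true,
              if_neg e3, add_zero, zero_add] at h1
            exact (mul_eq_zero.1 h1).resolve_right (pZ _ l01).ne'
          · rintro ⟨c, d⟩ hcd hne
            rw [mem_points] at hcd
            rcases hcd with ⟨b, k', hb, hk, hk', rfl, rfl⟩ | ⟨m', q', t, h, ht, hc, rfl⟩
            · have e2 : ¬ (((b + 1, k') : ℕ × ℕ) = (1, m + 2)) := by
                simp only [Prod.mk.injEq]
                rintro ⟨h, rfl⟩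
                obtain rfl : b = 0 := by omega
                exact hne (by simp)
              simp only [if_neg e2, add_zero]
              split_ifs with h2
              · simp only [Prod.mk.injEq] at h2
                obtain ⟨rfl, rfl⟩ := h2
                rw [hT1, zero_mul]
              · rfl
            · have e2 : ¬ (((m' + 3, t) : ℕ × ℕ) = (1, m + 2)) := by
                simp only [Prod.mk.injEq]
                omega
              simp only [if_neg e2, add_zero]
              rcases hc with rfl | rfl
              · rw [if_neg]
                simp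
              · split_ifs with h2
                · simp only [Prod.mk.injEq] at h2
                  have hbr := be_range hp h t
                  rcases eq_or_lt_of_le (show m ≤ m' by omega) with rfl | hlt
                  · obtain rfl := get_unique hq h
                    omega
                  · rw [(IHX m' q' h (by omega) t ht).2, zero_mul]
                · rfl
        have k0 : s ((0, m + 2), (m + 3, 0)) = 0 := by
          rw [kx, zero_mul, zero_add] at hc0
          exact (mul_eq_zero.1 hc0).resolve_right (pY _ (lA hq)).ne'
        have a1 : al m q 1 = q.2.2.1 := by simp [al, h0]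
        have a2 : al m q 2 = q.1 := by simp [al, h0]
        have g1 : A (0, al m q 1) < A (0, al m q 2) := by
          rw [a1, a2]
          exact hAlt _ _ (by omega) (by omega) (by omega)
        rw [al0, k0, zero_mul] at hthree
        have k1 : s ((0, al m q 1), (m + 3, 1)) = 0 :=
          (mul_eq_zero.1 hthree.symm).resolve_right (sub_pos.2 g1).ne'
        have k2 : s ((0, al m q 2), (m + 3, 2)) = 0 := by
          rw [al0, k0, k1] at hl1
          linarith
        refine ⟨kx, hT1, fun m' q' h' hm t ht => ?_⟩
        obtain rfl : m' = m := by omega
        obtain rfl := get_unique hq h'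
        have hX : s ((0, al m' q t), (m' + 3, t)) = 0 := by
          have : t = 0 ∨ t = 1 ∨ t = 2 := by omega
          rcases this with rfl | rfl | rfl
          · rw [al0]
            exact k0
          · exact k1
          · exact k2
        exact ⟨hX, hX' t ht hX⟩
    · -- no relation
      have kx : s ((0, k), (1, k)) = 0 := by
        have h1 := hs1 (1, k) (mem_classes.2 (Or.inl ⟨1, k, by omega, hk1, hk2, rfl⟩))
        rw [sum_pts [((0, k), (1, k))] (by simp) (by simpa using T0m)] at h1
        · have e3 : ¬ (((0, k) : ℕ × ℕ) = (1, k)) := by simp
          simp only [List.map_cons, List.map_nil, List.sum_cons, List.sum_nil, if_true,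
            if_neg e3, add_zero, zero_add] at h1
          exact (mul_eq_zero.1 h1).resolve_right (pZ _ l01).ne'
        · rintro ⟨c, d⟩ hcd hne
          rw [mem_points] at hcd
          rcases hcd with ⟨b, k', hb, hk, hk', rfl, rfl⟩ | ⟨m', q', t, h, ht, hc, rfl⟩
          · have e2 : ¬ (((b + 1, k') : ℕ × ℕ) = (1, k)) := by
              simp only [Prod.mk.injEq]
              rintro ⟨h, rfl⟩
              obtain rfl : b = 0 := by omega
              exact hne (by simp)
            simp only [if_neg e2, add_zero]
            split_ifs with h2
            · simp only [Prod.mk.injEq] at h2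
              obtain ⟨rfl, rfl⟩ := h2
              rw [hT1, zero_mul]
            · rfl
          · have e2 : ¬ (((m' + 3, t) : ℕ × ℕ) = (1, k)) := by
              simp only [Prod.mk.injEq]
              omega
            simp only [if_neg e2, add_zero]
            rcases hc with rfl | rfl
            · rw [if_neg]
              simp
            · split_ifs with h2
              · simp only [Prod.mk.injEq] at h2
                have hbr := be_range hp h t
                rcases eq_or_lt_of_le (show k ≤ m' + 2 by omega) with hlt | hlt
                · exact absurd ⟨m', q', h, hlt.symm⟩ hrel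
                · rw [(IHX m' q' h hlt t ht).2, zero_mul]
              · rfl
      exact ⟨kx, hT1, fun m q h hm => absurd ⟨m, q, h, hm⟩ hrel⟩
  rintro ⟨c, d⟩ hcd
  rw [mem_points] at hcd
  rcases hcd with ⟨b, k', hb, hk, hk', rfl, rfl⟩ | ⟨m', q', t, h, ht, hc, rfl⟩
  · obtain ⟨h0, h1, -⟩ := main _ k' hk hk' rfl
    have : b = 0 ∨ b = 1 := by omega
    rcases this with rfl | rfl
    · exact h0
    · exact h1
  · have hm := (wfi_get hp h).1
    obtain ⟨-, -, h2⟩ := main _ (m' + 2) (by omega) (by omega) rfl
    rcases hc with rfl | rfl
    · exact (h2 m' q' h rfl t ht).1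
    · exact (h2 m' q' h rfl t ht).2

/-- Completeness. -/
theorem mu_of_osat (hp : WF 2 p) (h : OSat p) :
    ∃ M : Matrix (Option {i // i ∈ (net p).Is} ⊕ {w // w ∈ (net p).Ws})
        (Option {i // i ∈ (net p).Is} ⊕ {w // w ∈ (net p).Ws}) ℝ,
      InM (net p).G M ∧ Fintype.card {w // w ∈ (net p).Ws} + M.rank ≤
        Fintype.card (Option {i // i ∈ (net p).Is} ⊕ {w // w ∈ (net p).Ws}) := by
  obtain ⟨v, hr⟩ := h
  have h1 := (good_eventually hp hr).and self_mem_nhdsWithin
  obtain ⟨ε, hG, hε⟩ := h1.exists
  exact Net.mu_of_good (net_ok hp) hG fun s hs => stress_zero hp hr hε hG hs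

end Pool.Agent.NPC.ER.CdV
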