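import Pool.Agent.CdV.Net3
import Pool.Agent.H612.OslpPoly

/-!
# The network of an increasing straight-line program
-/

namespace Pool.Agent.NPC.ER.CdV

open Finset Pool.Agent.NPC.ER.Oslp

/-- The relations of a program: the pairs (position, instruction). -/
def rels (p : List Ins) : List (ℕ × (ℕ × ℕ × ℕ × ℕ)) :=
  p.zipIdx.flatMap fun e => match e.1 with
    | none => []
    | some q => [(e.2, q)]

theorem mem_rels {p : List Ins} {m : ℕ} {q : ℕ × ℕ × ℕ × ℕ} :
    (m, q) ∈ rels p ↔ p[m]? = some (some q) := by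
  unfold rels
  simp only [List.mem_flatMap, Prod.exists, List.mem_zipIdx_iff_getElem?]
  constructor
  · rintro ⟨a, i, h, h'⟩
    rcases a with _ | a
    · simp at h'
    · simp only [List.mem_singleton, Prod.mk.injEq] at h'
      rw [h'.1, h'.2]
      exact h
  · intro h
    exact ⟨some q, m, h, by simp⟩

/-- The indices `α t`. -/
def al (m : ℕ) (q : ℕ × ℕ × ℕ × ℕ) (t : ℕ) : ℕ :=
  if t = 0 then m + 2 else if t = 1 then (if q.1 = 0 then q.2.1 else q.2.2.1)
    else (if q.1 = 0 then q.2.2.1 else q.1)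

/-- The indices `β t`. -/
def be (m : ℕ) (q : ℕ × ℕ × ℕ × ℕ) (t : ℕ) : ℕ :=
  if t = 0 then (if q.1 = 0 then q.2.1 else q.2.2.2) else if t = 1 then
    (if q.1 = 0 then m + 2 else q.2.1) else (if q.1 = 0 then q.2.2.2 else q.1)

/-- The node where the `β t` are read. -/
def sr (q : ℕ × ℕ × ℕ × ℕ) : ℕ := if q.1 = 0 then 1 else 2

/-- The network of a program. -/
def net (p : List Ins) : Net where
  nodes := [0, 1, 2] ++ (rels p).map fun r => r.1 + 3
  classes := (List.range (p.length + 1)).flatMap (fun k => [(0, k + 1), (1, k + 1), (2, k + 1)]) ++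
    (rels p).flatMap fun r => [(r.1 + 3, 0), (r.1 + 3, 1), (r.1 + 3, 2)]
  lines := [(0, 1), (1, 2)] ++ (rels p).flatMap fun r => [(0, r.1 + 3), (sr r.2, r.1 + 3)]
  points := (List.range (p.length + 1)).flatMap
    (fun k => [((0, k + 1), (1, k + 1)), ((1, k + 1), (2, k + 1))]) ++
    (rels p).flatMap fun r => [((0, al r.1 r.2 0), (r.1 + 3, 0)), ((0, al r.1 r.2 1), (r.1 + 3, 1)),
      ((0, al r.1 r.2 2), (r.1 + 3, 2)), ((sr r.2, be r.1 r.2 0), (r.1 + 3, 0)),
      ((sr r.2, be r.1 r.2 1), (r.1 + 3, 1)), ((sr r.2, be r.1 r.2 2), (r.1 + 3, 2))]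
  orders := (List.range p.length).map fun m => ((0, m + 2), (0, m + 1))

section Mem

variable {p : List Ins}

theorem mem_nodes {n : ℕ} : n ∈ (net p).nodes ↔ n < 3 ∨ ∃ m q, p[m]? = some (some q) ∧ n = m + 3 := by
  simp only [net, List.mem_append, List.mem_map]
  refine or_congr ?_ ?_
  · simp only [List.mem_cons, List.not_mem_nil, or_false]
    omega
  · constructor
    · rintro ⟨⟨m, q⟩, h, h'⟩
      exact ⟨m, q, mem_rels.1 h, h'.symm⟩
    · rintro ⟨m, q, h, h'⟩
      exact ⟨(m, q), mem_rels.2 h, h'.symm⟩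

theorem mem_classes {c : ℕ × ℕ} : c ∈ (net p).classes ↔
    (∃ b k, b < 3 ∧ 1 ≤ k ∧ k ≤ p.length + 1 ∧ c = (b, k)) ∨
    ∃ m q t, p[m]? = some (some q) ∧ t < 3 ∧ c = (m + 3, t) := by
  simp only [net, List.mem_append, List.mem_flatMap, List.mem_range]
  refine or_congr ?_ ?_
  · constructor
    · rintro ⟨k, hk, h⟩
      simp only [List.mem_cons, List.not_mem_nil, or_false] at h
      rcases h with h | h | h
      · exact ⟨0, k + 1, by omega, by omega, by omega, h⟩
      · exact ⟨1, k + 1, by omega, by omega, by omega, h⟩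
      · exact ⟨2, k + 1, by omega, by omega, by omega, h⟩
    · rintro ⟨b, k, hb, hk1, hk2, h⟩
      refine ⟨k - 1, by omega, ?_⟩
      rw [Nat.sub_add_cancel hk1, h]
      simp only [List.mem_cons, List.not_mem_nil, or_false, Prod.mk.injEq, and_true]
      omega
  · constructor
    · rintro ⟨⟨m, q⟩, hr, h⟩
      simp only [List.mem_cons, List.not_mem_nil, or_false] at h
      rw [mem_rels] at hr
      rcases h with h | h | h
      · exact ⟨m, q, 0, hr, by omega, h⟩
      · exact ⟨m, q, 1, hr, by omega, h⟩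
      · exact ⟨m, q, 2, hr, by omega, h⟩
    · rintro ⟨m, q, t, hr, ht, h⟩
      refine ⟨(m, q), mem_rels.2 hr, ?_⟩
      rw [h]
      simp only [List.mem_cons, List.not_mem_nil, or_false, Prod.mk.injEq, true_and]
      omega

theorem mem_lines {l : ℕ × ℕ} : l ∈ (net p).lines ↔ l = (0, 1) ∨ l = (1, 2) ∨
    ∃ m q, p[m]? = some (some q) ∧ (l = (0, m + 3) ∨ l = (sr q, m + 3)) := by
  simp only [net, List.mem_append, List.mem_flatMap, List.mem_cons, List.not_mem_nil, or_false,
    Prod.exists, mem_rels, or_assoc]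

theorem mem_points {c d : ℕ × ℕ} : (c, d) ∈ (net p).points ↔
    (∃ b k, b < 2 ∧ 1 ≤ k ∧ k ≤ p.length + 1 ∧ c = (b, k) ∧ d = (b + 1, k)) ∨
    ∃ m q t, p[m]? = some (some q) ∧ t < 3 ∧ (c = (0, al m q t) ∨ c = (sr q, be m q t)) ∧
      d = (m + 3, t) := by
  simp only [net, List.mem_append, List.mem_flatMap, List.mem_range]
  refine or_congr ?_ ?_
  · constructor
    · rintro ⟨k, hk, h⟩
      simp only [List.mem_cons, List.not_mem_nil, or_false, Prod.mk.injEq] at h
      rcases h with h | h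
      · exact ⟨0, k + 1, by omega, by omega, by omega, h⟩
      · exact ⟨1, k + 1, by omega, by omega, by omega, h⟩
    · rintro ⟨b, k, hb, hk1, hk2, h1, h2⟩
      refine ⟨k - 1, by omega, ?_⟩
      rw [Nat.sub_add_cancel hk1, h1, h2]
      have : b = 0 ∨ b = 1 := by omega
      rcases this with rfl | rfl <;> simp
  · constructor
    · rintro ⟨⟨m, q⟩, hr, h⟩
      simp only [List.mem_cons, List.not_mem_nil, or_false, Prod.mk.injEq] at h
      rw [mem_rels] at hr
      rcases h with h | h | h | h | h | h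
      · exact ⟨m, q, 0, hr, by omega, Or.inl h.1, h.2⟩
      · exact ⟨m, q, 1, hr, by omega, Or.inl h.1, h.2⟩
      · exact ⟨m, q, 2, hr, by omega, Or.inl h.1, h.2⟩
      · exact ⟨m, q, 0, hr, by omega, Or.inr h.1, h.2⟩
      · exact ⟨m, q, 1, hr, by omega, Or.inr h.1, h.2⟩
      · exact ⟨m, q, 2, hr, by omega, Or.inr h.1, h.2⟩
    · rintro ⟨m, q, t, hr, ht, h1, h2⟩
      refine ⟨(m, q), mem_rels.2 hr, ?_⟩
      have : t = 0 ∨ t = 1 ∨ t = 2 := by omega
      rw [h2]
      rcases this with rfl | rfl | rfl <;> rcases h1 with h1 | h1 <;> rw [h1] <;> simp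

theorem mem_orders {c d : ℕ × ℕ} : (c, d) ∈ (net p).orders ↔
    ∃ m, m < p.length ∧ c = (0, m + 2) ∧ d = (0, m + 1) := by
  simp only [net, List.mem_map, List.mem_range, Prod.mk.injEq]
  constructor
  · rintro ⟨m, hm, h1, h2⟩
    exact ⟨m, hm, h1.symm, h2.symm⟩
  · rintro ⟨m, hm, h1, h2⟩
    exact ⟨m, hm, h1.symm, h2.symm⟩

end Mem

section Ok

variable {p : List Ins}

theorem wfi_get (hp : WF 2 p) {m : ℕ} {q : ℕ × ℕ × ℕ × ℕ} (h : p[m]? = some (some q)) :
    m < p.length ∧ q.1 < q.2.1 ∧ q.2.1 < q.2.2.1 ∧ q.2.1 < q.2.2.2 ∧ q.2.2.1 < m + 2 ∧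
      q.2.2.2 < m + 2 := by
  have h1 := wf_get hp m _ h
  obtain ⟨o, l, i, j⟩ := q
  simp only [WFI] at h1
  obtain ⟨h2, h3, h4, h5, h6⟩ := h1
  rw [add_comm] at h5 h6
  exact ⟨(List.getElem?_eq_some_iff.1 h).1, h2, h3, h4, h5, h6⟩

theorem al_range (hp : WF 2 p) {m : ℕ} {q : ℕ × ℕ × ℕ × ℕ} (h : p[m]? = some (some q)) (t : ℕ) :
    1 ≤ al m q t ∧ al m q t ≤ m + 2 := by
  obtain ⟨h1, h2, h3, h4, h5, h6⟩ := wfi_get hp h
  unfold al
  split_ifs <;> omega

theorem be_range (hp : WF 2 p) {m : ℕ} {q : ℕ × ℕ × ℕ × ℕ} (h : p[m]? = some (some q)) (t : ℕ) :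
    1 ≤ be m q t ∧ be m q t ≤ m + 2 := by
  obtain ⟨h1, h2, h3, h4, h5, h6⟩ := wfi_get hp h
  unfold be
  split_ifs <;> omega

theorem al_inj (hp : WF 2 p) {m : ℕ} {q : ℕ × ℕ × ℕ × ℕ} (h : p[m]? = some (some q)) {t t' : ℕ}
    (ht : t < 3) (ht' : t' < 3) (he : al m q t = al m q t') : t = t' := by
  obtain ⟨h1, h2, h3, h4, h5, h6⟩ := wfi_get hp h
  unfold al at he
  split_ifs at he <;> omega

theorem be_inj (hp : WF 2 p) {m : ℕ} {q : ℕ × ℕ × ℕ × ℕ} (h : p[m]? = some (some q)) {t t' : ℕ}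
    (ht : t < 3) (ht' : t' < 3) (he : be m q t = be m q t') : t = t' := by
  obtain ⟨h1, h2, h3, h4, h5, h6⟩ := wfi_get hp h
  unfold be at he
  split_ifs at he <;> omega

theorem sr_range (q : ℕ × ℕ × ℕ × ℕ) : sr q = 1 ∨ sr q = 2 := by
  unfold sr
  split_ifs <;> simp

theorem get_unique {m : ℕ} {q q' : ℕ × ℕ × ℕ × ℕ} (h : p[m]? = some (some q))
    (h' : p[m]? = some (some q')) : q = q' := by
  rw [h] at h'
  simpa using h'

theorem net_ok (hp : WF 2 p) : (net p).Ok where
  cls c hc := by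
    rw [mem_classes] at hc
    rw [mem_nodes]
    rcases hc with ⟨b, k, hb, -, -, rfl⟩ | ⟨m, q, t, h, -, rfl⟩
    · exact Or.inl hb
    · exact Or.inr ⟨m, q, h, rfl⟩
  lin l hl := by
    rw [mem_lines] at hl
    rw [mem_nodes, mem_nodes]
    rcases hl with rfl | rfl | ⟨m, q, h, rfl | rfl⟩
    · exact ⟨by norm_num, Or.inl (by norm_num), Or.inl (by norm_num)⟩
    · exact ⟨by norm_num, Or.inl (by norm_num), Or.inl (by norm_num)⟩
    · exact ⟨by simp, Or.inl (by norm_num), Or.inr ⟨m, q, h, rfl⟩⟩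
    · have := sr_range q
      exact ⟨by simp only; omega, Or.inl (by simp only; omega), Or.inr ⟨m, q, h, rfl⟩⟩
  pts c d h := by
    rw [mem_points] at h
    rw [mem_classes, mem_classes, mem_lines]
    rcases h with ⟨b, k, hb, hk, hk', rfl, rfl⟩ | ⟨m, q, t, h, ht, hc, rfl⟩
    · refine ⟨Or.inl ⟨b, k, by omega, hk, hk', rfl⟩, Or.inl ⟨b + 1, k, by omega, hk, hk', rfl⟩, ?_⟩
      have : b = 0 ∨ b = 1 := by omega
      rcases this with rfl | rfl <;> simp
    · have hm := (wfi_get hp h).1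
      refine ⟨Or.inl ?_, Or.inr ⟨m, q, t, h, ht, rfl⟩, Or.inr (Or.inr ⟨m, q, h, ?_⟩)⟩
      · rcases hc with rfl | rfl
        · have := al_range hp h t
          exact ⟨0, _, by omega, this.1, by omega, rfl⟩
        · have := be_range hp h t
          have := sr_range q
          exact ⟨sr q, _, by omega, by omega, by omega, rfl⟩
      · rcases hc with rfl | rfl <;> simp
  ptl c d d' h h' hd := by
    rw [mem_points] at h h'
    rcases h with ⟨b, k, hb, hk, hk', rfl, rfl⟩ | ⟨m, q, t, h, ht, hc, rfl⟩ <;>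
      rcases h' with ⟨b', k', hb', hk1, hk1', hc', rfl⟩ | ⟨m', q', t', h', ht', hc', rfl⟩
    · simp only [Prod.mk.injEq] at hc'
      rw [hc'.1, hc'.2]
    · simp only at hd
      omega
    · simp only at hd
      omega
    · have hm : m = m' := by
        simp only at hd
        omega
      subst hm
      obtain rfl := get_unique h h'
      have hs := sr_range q
      rcases hc with rfl | rfl <;> rcases hc' with hc' | hc' <;>
        simp only [Prod.mk.injEq, true_and] at hc'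
      · rw [al_inj hp h ht ht' hc']
      · omega
      · omega
      · rw [be_inj hp h ht ht' hc']
  ptr c c' d h h' hd := by
    rw [mem_points] at h h'
    rcases h with ⟨b, k, hb, hk, hk', rfl, rfl⟩ | ⟨m, q, t, h, ht, hc, rfl⟩ <;>
      rcases h' with ⟨b', k', hb', hk1, hk1', hc', hc''⟩ | ⟨m', q', t', h', ht', hc', hc''⟩ <;>
      simp only [Prod.mk.injEq] at hc''
    · rw [hc']
      ext
      · simp only
        omega
      · exact hc''.2
    · omega
    · omega
    · have hm : m = m' := by omega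
      subst hm
      obtain rfl := get_unique h h'
      obtain ⟨-, rfl⟩ := hc''
      have hs := sr_range q
      rcases hc with rfl | rfl <;> rcases hc' with rfl | rfl <;> simp only at hd
      · rfl
      · omega
      · omega
      · rfl
  ord c d h := by
    rw [mem_orders] at h
    rw [mem_classes, mem_classes]
    obtain ⟨m, hm, rfl, rfl⟩ := h
    exact ⟨Or.inl ⟨0, m + 2, by omega, by omega, by omega, rfl⟩,
      Or.inl ⟨0, m + 1, by omega, by omega, by omega, rfl⟩, rfl, by simp⟩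
  orr c d h h' := by
    rw [mem_orders] at h h'
    obtain ⟨m, hm, rfl, rfl⟩ := h
    obtain ⟨m', hm', h1, h2⟩ := h'
    simp only [Prod.mk.injEq, true_and] at h1 h2
    omega

end Ok

end Pool.Agent.NPC.ER.CdV
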