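import Pool.Agent.CdV.NetO

/-!
# Soundness of the network of a program
-/

namespace Pool.Agent.NPC.ER.CdV

open Finset Pool.Agent.NPC.ER.Oslp

theorem run_of_get {v : ℕ → ℝ} : ∀ {n : ℕ} {p : List Ins},
    (∀ k ins, p[k]? = some ins → v (n + k - 1) < v (n + k) ∧ Holds v (n + k) ins) → Oslp.Run v n p
  | n, [], _ => trivial
  | n, a :: p, h => by
    have h0 := h 0 a rfl
    refine ⟨by simpa using h0.1, by simpa using h0.2, run_of_get fun k ins hk => ?_⟩
    have h1 := h (k + 1) ins (by simpa using hk)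
    rwa [show n + (k + 1) = n + 1 + k by omega] at h1

theorem osat_of_sol {p : List Ins} (hp : WF 2 p) {a : ℕ × ℕ → ℝ} (h : (net p).Sol a) :
    OSat p := by
  obtain ⟨hl, ho⟩ := h
  -- the first two lines
  obtain ⟨y0, z0, hy0, hz0, h0⟩ := hl (0, 1) (mem_lines.2 (Or.inl rfl))
  obtain ⟨y1, z1, hy1, hz1, h1⟩ := hl (1, 2) (mem_lines.2 (Or.inr (Or.inl rfl)))
  have e0 : ∀ k, 1 ≤ k → k ≤ p.length + 1 → a (1, k) = (1 - y0 * a (0, k)) / z0 := by
    intro k hk hk'
    have := h0 (0, k) (1, k) (mem_points.2 (Or.inl ⟨0, k, by omega, hk, hk', rfl, rfl⟩)) rfl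
    rw [eq_div_iff hz0.ne']
    linarith
  have e1 : ∀ k, 1 ≤ k → k ≤ p.length + 1 → a (2, k) = (1 - y1 * a (1, k)) / z1 := by
    intro k hk hk'
    have := h1 (1, k) (2, k) (mem_points.2 (Or.inl ⟨1, k, by omega, hk, hk', rfl, rfl⟩)) rfl
    rw [eq_div_iff hz1.ne']
    linarith
  have hs : ∀ s, s = 1 ∨ s = 2 → ∃ A B : ℝ, ∀ k, 1 ≤ k → k ≤ p.length + 1 →
      a (s, k) = A + B * a (0, k) := by
    rintro s (rfl | rfl)
    · refine ⟨1 / z0, -(y0 / z0), fun k hk hk' => ?_⟩
      rw [e0 k hk hk']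
      field_simp
      ring
    · refine ⟨(1 - y1 * (1 / z0)) / z1, y1 * y0 / z0 / z1, fun k hk hk' => ?_⟩
      rw [e1 k hk hk', e0 k hk hk']
      field_simp
      ring
  let v : ℕ → ℝ := fun k => -a (0, k)
  have hinc : ∀ m, m < p.length → v (m + 1) < v (m + 2) := by
    intro m hm
    have := ho (0, m + 2) (0, m + 1) (mem_orders.2 ⟨m, hm, rfl, rfl⟩)
    simp only [v]
    linarith
  have hmono : ∀ i j, 1 ≤ i → i < j → j ≤ p.length + 1 → v i < v j := by
    intro i j hi hij hj
    induction j, hij using Nat.le_induction with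
    | base =>
      have := hinc (i - 1) (by omega)
      rwa [Nat.sub_add_cancel hi, show i - 1 + 2 = i + 1 by omega] at this
    | succ j hij ih =>
      have := hinc (j - 1) (by omega)
      rw [show j - 1 + 1 = j by omega, show j - 1 + 2 = j + 1 by omega] at this
      exact (ih (by omega)).trans this
  have haff : ∀ m q, p[m]? = some (some q) → ∃ C D : ℝ, ∀ t, t < 3 →
      v (al m q t) = C + D * v (be m q t) := by
    intro m q hq
    obtain ⟨yA, zA, hyA, hzA, hA⟩ := hl (0, m + 3)
      (mem_lines.2 (Or.inr (Or.inr ⟨m, q, hq, Or.inl rfl⟩)))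
    obtain ⟨yB, zB, hyB, hzB, hB⟩ := hl (sr q, m + 3)
      (mem_lines.2 (Or.inr (Or.inr ⟨m, q, hq, Or.inr rfl⟩)))
    obtain ⟨A, B, hAB⟩ := hs (sr q) (sr_range q)
    have hm := (wfi_get hp hq).1
    refine ⟨-((1 - zA * ((1 - yB * A) / zB)) / yA), zA * (yB * B) / zB / yA, fun t ht => ?_⟩
    have r1 := hA (0, al m q t) (m + 3, t) (mem_points.2 (Or.inr ⟨m, q, t, hq, ht, Or.inl rfl, rfl⟩))
      rfl
    have r2 := hB (sr q, be m q t) (m + 3, t)
      (mem_points.2 (Or.inr ⟨m, q, t, hq, ht, Or.inr rfl, rfl⟩)) rfl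
    have hb := be_range hp hq t
    rw [hAB _ hb.1 (by omega)] at r2
    have r3 : a (m + 3, t) = (1 - yB * (A + B * a (0, be m q t))) / zB := by
      rw [eq_div_iff hzB.ne']
      linarith
    have r4 : a (0, al m q t) = (1 - zA * a (m + 3, t)) / yA := by
      rw [eq_div_iff hyA.ne']
      linarith
    simp only [v]
    rw [r4, r3]
    field_simp
    ring
  refine ⟨v, run_of_get fun m ins hm => ?_⟩
  have hm' : m < p.length := (List.getElem?_eq_some_iff.1 hm).1
  refine ⟨?_, ?_⟩
  · have := hinc m hm'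
    rwa [show 2 + m - 1 = m + 1 by omega, show 2 + m = m + 2 by omega]
  · rcases ins with _ | ⟨o, l, i, j⟩
    · trivial
    · obtain ⟨-, w1, w2, w3, w4, w5⟩ := wfi_get hp hm
      simp only at w1 w2 w3 w4 w5
      obtain ⟨C, D, hCD⟩ := haff m _ hm
      have c0 := hCD 0 (by omega)
      have c1 := hCD 1 (by omega)
      have c2 := hCD 2 (by omega)
      rw [show 2 + m = m + 2 by omega]
      have hlk := hmono l (m + 2) (by omega) (by omega) (by omega)
      refine ⟨fun ho => ?_, fun ho => ?_⟩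
      · subst ho
        simp only [al, be, if_true, one_ne_zero, if_false, OfNat.ofNat_ne_zero,
          OfNat.ofNat_ne_one] at c0 c1 c2
        have hD : D = -1 := by
          have h3 : (v (m + 2) - v l) * (1 + D) = 0 := by linear_combination c0 - c1
          rcases mul_eq_zero.1 h3 with h4 | h4
          · linarith
          · linarith
        subst hD
        linarith
      · have ho' : o ≠ 0 := by omega
        simp only [al, be, if_neg ho', if_true, one_ne_zero, if_false, OfNat.ofNat_ne_zero,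
          OfNat.ofNat_ne_one] at c0 c1 c2
        have d0 : v (m + 2) - v o = D * (v j - v o) := by linear_combination c0 - c2
        have d1 : v i - v o = D * (v l - v o) := by linear_combination c1 - c2
        rw [d0, d1]
        ring

end Pool.Agent.NPC.ER.CdV
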