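import Mathlib

/-!
# Real symmetric matrices with exactly one negative eigenvalue
-/

namespace Pool.Agent.NPC.ER.CdV

open Matrix Finset

variable {V : Type} [Fintype V] [DecidableEq V]

/-- Elementary form of the spectral theorem. -/
theorem exists_diag {M : Matrix V V ℝ} (hM : M.IsHermitian) :
    ∃ U : Matrix V V ℝ, Uᵀ * U = 1 ∧ U * Uᵀ = 1 ∧ M = U * diagonal hM.eigenvalues * Uᵀ := by
  have h1 : (hM.eigenvectorUnitary : Matrix V V ℝ)ᵀ * hM.eigenvectorUnitary = 1 := by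
    have := Unitary.coe_star_mul_self hM.eigenvectorUnitary
    rwa [star_eq_conjTranspose, conjTranspose_eq_transpose_of_trivial] at this
  refine ⟨hM.eigenvectorUnitary, h1, mul_eq_one_comm.1 h1, ?_⟩
  · have := hM.spectral_theorem
    rw [Unitary.conjStarAlgAut_apply, star_eq_conjTranspose,
      conjTranspose_eq_transpose_of_trivial] at this
    exact this

omit [DecidableEq V] in
/-- The quadratic form of a diagonalised matrix. -/
theorem quad_diag {W : Type} [Fintype W] [DecidableEq W] (U : Matrix V W ℝ) (l : W → ℝ)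
    (y : V → ℝ) :
    y ⬝ᵥ (U * diagonal l * Uᵀ) *ᵥ y = ∑ j, l j * (Uᵀ *ᵥ y) j ^ 2 := by
  rw [← mulVec_mulVec, ← mulVec_mulVec, dotProduct_mulVec, ← mulVec_transpose, dotProduct]
  refine sum_congr rfl fun j _ => ?_
  rw [mulVec_diagonal]
  ring

/-- Characterisation of the matrices with exactly one negative eigenvalue. -/
theorem neg_iff {M : Matrix V V ℝ} (hM : M.IsHermitian) :
    (univ.filter fun i => hM.eigenvalues i < 0).card = 1 ↔
      (∃ l : V → ℝ, ∀ y, l ⬝ᵥ y = 0 → 0 ≤ y ⬝ᵥ M *ᵥ y) ∧ ∃ y, y ⬝ᵥ M *ᵥ y < 0 := by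
  obtain ⟨U, h1, h2, h3⟩ := exists_diag hM
  set e := hM.eigenvalues with he
  have hq : ∀ y, y ⬝ᵥ M *ᵥ y = ∑ j, e j * (Uᵀ *ᵥ y) j ^ 2 := by
    intro y
    conv_lhs => rw [h3]
    exact quad_diag U e y
  have hU : ∀ z : V → ℝ, Uᵀ *ᵥ (U *ᵥ z) = z := by
    intro z
    rw [mulVec_mulVec, h1, one_mulVec]
  constructor
  · intro hc
    obtain ⟨j0, hj0⟩ := card_eq_one.1 hc
    have hneg : e j0 < 0 := by
      have : j0 ∈ univ.filter fun i => e i < 0 := by rw [hj0]; simp
      simpa using this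
    have hpos : ∀ j, j ≠ j0 → 0 ≤ e j := by
      intro j hj
      by_contra hlt
      have : j ∈ univ.filter fun i => e i < 0 := by simpa using hlt
      rw [hj0] at this
      exact hj (by simpa using this)
    refine ⟨⟨fun v => U v j0, fun y hy => ?_⟩, U *ᵥ Pi.single j0 1, ?_⟩
    · rw [hq]
      refine sum_nonneg fun j _ => ?_
      by_cases hj : j = j0
      · subst hj
        have : (Uᵀ *ᵥ y) j = 0 := hy
        rw [this]
        simp
      · exact mul_nonneg (hpos j hj) (sq_nonneg _)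
    · rw [hq, hU, sum_eq_single j0]
      · simpa using hneg
      · intro j _ hj
        simp [hj]
      · simp
  · rintro ⟨⟨l, hl⟩, y, hy⟩
    have hne : ∃ j, e j < 0 := by
      by_contra hcon
      push Not at hcon
      rw [hq] at hy
      exact absurd (sum_nonneg fun j _ => mul_nonneg (hcon j) (sq_nonneg _)) (not_le.2 hy)
    obtain ⟨j0, hj0⟩ := hne
    refine card_eq_one.2 ⟨j0, ?_⟩
    ext j
    simp only [mem_filter, mem_univ, true_and, mem_singleton]
    refine ⟨fun hj => ?_, fun hj => by rw [hj]; exact hj0⟩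
    by_contra hne
    have key : ∀ a b : ℝ, a * (l ⬝ᵥ U *ᵥ Pi.single j 1) + b * (l ⬝ᵥ U *ᵥ Pi.single j0 1) = 0 →
        0 ≤ e j * a ^ 2 + e j0 * b ^ 2 := by
      intro a b hab
      have h4 := hl (a • (U *ᵥ Pi.single j 1) + b • (U *ᵥ Pi.single j0 1)) (by
        rw [dotProduct_add, dotProduct_smul, dotProduct_smul]
        simpa using hab)
      rw [hq, mulVec_add, mulVec_smul, mulVec_smul, hU, hU, Fintype.sum_eq_add j j0 hne] at h4
      · simpa [hne, Ne.symm hne] using h4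
      · rintro x ⟨hx1, hx2⟩
        simp [hx1, hx2]
    by_cases h0 : l ⬝ᵥ U *ᵥ Pi.single j0 1 = 0
    · have := key 0 1 (by rw [h0]; ring)
      nlinarith
    · have := key (l ⬝ᵥ U *ᵥ Pi.single j0 1) (-(l ⬝ᵥ U *ᵥ Pi.single j 1)) (by ring)
      have h5 : 0 < (l ⬝ᵥ U *ᵥ Pi.single j0 1) ^ 2 := by positivity
      nlinarith [mul_neg_of_neg_of_pos hj h5, sq_nonneg (l ⬝ᵥ U *ᵥ Pi.single j 1),
        mul_nonneg (neg_nonneg.2 hj0.le) (sq_nonneg (l ⬝ᵥ U *ᵥ Pi.single j 1))]

end Pool.Agent.NPC.ER.CdV
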